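import Pool.Agent.N537.RS.Stm

/-!
# RS/AL: the lifting argument of Aizenman and Lieb (helper264)
-/

set_option autoImplicit false

open MeasureTheory Set Filter Topology

namespace Pool.Agent.N537.RS

namespace AL

open ProbabilityTheory

/-- pointwise form -/
theorem pt {q b y s : ℝ} (hb : 0 < b) (hy : 0 < y) (hq : 0 ≤ q) :
    (Ioi (0 : ℝ)).indicator (fun s => ENNReal.ofReal (s ^ q) *
      ENNReal.ofReal ((max (y - s) 0) ^ b)) s =
    ENNReal.ofReal (beta (q + 1) (b + 1)) * ENNReal.ofReal (y ^ (q + b)) *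
      betaPDF (q + 1) (b + 1) (y⁻¹ * s) := by
  by_cases hs : 0 < s
  · rw [indicator_of_mem (mem_Ioi.2 hs)]
    by_cases h1 : s < y
    · have h2 : 0 < y⁻¹ * s := by positivity
      have h3 : y⁻¹ * s < 1 := by
        rw [inv_mul_lt_iff₀ hy]; linarith
      rw [betaPDF_of_pos_lt_one h2 h3, max_eq_left (by linarith)]
      have hB : 0 < beta (q + 1) (b + 1) := beta_pos (by linarith) (by linarith)
      rw [← ENNReal.ofReal_mul (by positivity), ← ENNReal.ofReal_mul hB.le,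
        ← ENNReal.ofReal_mul (by positivity)]
      congr 1
      have e1 : (1 - y⁻¹ * s) = (y - s) / y := by field_simp
      have e2 : q + 1 - 1 = q := by ring
      have e3 : b + 1 - 1 = b := by ring
      rw [e1, e2, e3, Real.mul_rpow (by positivity) hs.le, Real.div_rpow (by linarith) hy.le,
        Real.rpow_add hy, Real.inv_rpow hy.le]
      have hyq : 0 < y ^ q := by positivity
      have hyb : 0 < y ^ b := by positivity
      field_simp
    · have h3 : 1 ≤ y⁻¹ * s := by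
        rw [le_inv_mul_iff₀ hy]; linarith
      rw [betaPDF_eq_zero_of_one_le h3, max_eq_right (by linarith), Real.zero_rpow hb.ne']
      simp
  · rw [indicator_of_notMem (by simpa using hs), betaPDF_eq_zero_of_nonpos, mul_zero]
    exact mul_nonpos_of_nonneg_of_nonpos (by positivity) (by linarith)

theorem scal {y : ℝ} (hy : 0 < y) (f : ℝ → ENNReal) (hf : Measurable f) :
    ∫⁻ s, f (y⁻¹ * s) = ENNReal.ofReal y * ∫⁻ x, f x := by
  have h := Real.smul_map_volume_mul_left (a := y) hy.ne'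
  have hm : Measurable fun s => f (y⁻¹ * s) := hf.comp (measurable_const_mul _)
  conv_lhs => rw [← h]
  rw [lintegral_smul_measure, lintegral_map hm (measurable_const_mul _), abs_of_pos hy]
  rw [smul_eq_mul]
  congr 1
  refine lintegral_congr fun x => ?_
  rw [inv_mul_cancel_left₀ hy.ne']

theorem key {q b : ℝ} (hb : 0 < b) (hq : 0 ≤ q) (y : ℝ) :
    ∫⁻ s in Ioi (0 : ℝ), ENNReal.ofReal (s ^ q) * ENNReal.ofReal ((max (y - s) 0) ^ b) =
    ENNReal.ofReal (beta (q + 1) (b + 1)) * ENNReal.ofReal ((max y 0) ^ (q + b + 1)) := by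
  by_cases hy : 0 < y
  · rw [← lintegral_indicator measurableSet_Ioi]
    have : (fun s => (Ioi (0 : ℝ)).indicator (fun s => ENNReal.ofReal (s ^ q) *
        ENNReal.ofReal ((max (y - s) 0) ^ b)) s) = fun s =>
        ENNReal.ofReal (beta (q + 1) (b + 1)) * ENNReal.ofReal (y ^ (q + b)) *
        betaPDF (q + 1) (b + 1) (y⁻¹ * s) := by
      funext s; exact pt hb hy hq
    rw [this]
    have hm : Measurable (betaPDF (q + 1) (b + 1)) :=
      (measurable_betaPDFReal (q + 1) (b + 1)).ennreal_ofReal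
    rw [lintegral_const_mul' _ _ (ENNReal.mul_ne_top ENNReal.ofReal_ne_top
      ENNReal.ofReal_ne_top), scal hy _ hm,
      lintegral_betaPDF_eq_one (by linarith) (by linarith), mul_one, mul_assoc,
      ← ENNReal.ofReal_mul (by positivity), max_eq_left hy.le]
    congr 2
    rw [Real.rpow_add_one hy.ne']
  · have hy' : y ≤ 0 := by linarith
    rw [max_eq_right hy', Real.zero_rpow (by positivity)]
    simp only [ENNReal.ofReal_zero, mul_zero]
    rw [setLIntegral_eq_zero measurableSet_Ioi]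
    intro s hs
    have : (0 : ℝ) < s := hs
    have h0 : y - s ≤ 0 := by linarith
    simp only [max_eq_right h0, Real.zero_rpow hb.ne', ENNReal.ofReal_zero, mul_zero,
      Pi.zero_apply]

theorem key2 {q : ℝ} (hq : 0 ≤ q) (y : ℝ) :
    ∫⁻ s in Ioi (0 : ℝ), ENNReal.ofReal (s ^ q) * ENNReal.ofReal ((max (y - s) 0) ^ 2) =
    ENNReal.ofReal (beta (q + 1) 3) * ENNReal.ofReal ((max y 0) ^ (q + 3)) := by
  have h := key (b := 2) (by norm_num) hq y
  have e1 : (2 : ℝ) + 1 = 3 := by norm_num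
  have e2 : q + 2 + 1 = q + 3 := by ring
  rw [e1, e2] at h
  rw [← h]
  refine lintegral_congr fun s => ?_
  norm_num

/-- the lifting -/
theorem lift {q : ℝ} (hq : 0 ≤ q) (m : ℕ) (y : Fin m → ℝ) (W : ℝ → ℝ) (hW : Measurable W)
    (h : ∀ σ : ℝ, 0 ≤ σ → ∑ i, ENNReal.ofReal ((max (y i - σ) 0) ^ (3 / 2 : ℝ)) ≤
      ENNReal.ofReal (3 / 16) * ∫⁻ t, ENNReal.ofReal ((max (W t - σ) 0) ^ 2)) :
    ENNReal.ofReal (beta (q + 1) (5 / 2)) *
      ∑ i, ENNReal.ofReal ((max (y i) 0) ^ (q + 5 / 2)) ≤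
    ENNReal.ofReal (3 / 16) * (ENNReal.ofReal (beta (q + 1) 3) *
      ∫⁻ t, ENNReal.ofReal ((max (W t) 0) ^ (q + 3))) := by
  have hms : Measurable fun s : ℝ => ENNReal.ofReal (s ^ q) := by fun_prop
  have h1 : ∫⁻ s in Ioi (0 : ℝ), ENNReal.ofReal (s ^ q) *
        ∑ i, ENNReal.ofReal ((max (y i - s) 0) ^ (3 / 2 : ℝ)) ≤
      ∫⁻ s in Ioi (0 : ℝ), ENNReal.ofReal (s ^ q) * (ENNReal.ofReal (3 / 16) *
        ∫⁻ t, ENNReal.ofReal ((max (W t - s) 0) ^ 2)) := by
    refine setLIntegral_mono' measurableSet_Ioi fun s hs => ?_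
    exact mul_le_mul_right (h s (le_of_lt hs)) _
  have h2 : ∫⁻ s in Ioi (0 : ℝ), ENNReal.ofReal (s ^ q) *
        ∑ i, ENNReal.ofReal ((max (y i - s) 0) ^ (3 / 2 : ℝ)) =
      ENNReal.ofReal (beta (q + 1) (5 / 2)) *
        ∑ i, ENNReal.ofReal ((max (y i) 0) ^ (q + 5 / 2)) := by
    simp only [Finset.mul_sum]
    rw [lintegral_finsetSum]
    · refine Finset.sum_congr rfl fun i _ => ?_
      have h := key (b := 3 / 2) (by norm_num) hq (y i)
      have e1 : (3 / 2 : ℝ) + 1 = 5 / 2 := by norm_num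
      have e2 : q + 3 / 2 + 1 = q + 5 / 2 := by ring
      rw [e1, e2] at h
      exact h
    · intro i _
      fun_prop
  have h3 : ∫⁻ s in Ioi (0 : ℝ), ENNReal.ofReal (s ^ q) * (ENNReal.ofReal (3 / 16) *
        ∫⁻ t, ENNReal.ofReal ((max (W t - s) 0) ^ 2)) =
      ENNReal.ofReal (3 / 16) * (ENNReal.ofReal (beta (q + 1) 3) *
      ∫⁻ t, ENNReal.ofReal ((max (W t) 0) ^ (q + 3))) := by
    have hm2 : Measurable (Function.uncurry fun (s t : ℝ) => ENNReal.ofReal (s ^ q) *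
        ENNReal.ofReal ((max (W t - s) 0) ^ 2)) := by
      unfold Function.uncurry
      fun_prop
    have e : ∀ s : ℝ, ENNReal.ofReal (s ^ q) * (ENNReal.ofReal (3 / 16) *
        ∫⁻ t, ENNReal.ofReal ((max (W t - s) 0) ^ 2)) = ENNReal.ofReal (3 / 16) *
        ∫⁻ t, ENNReal.ofReal (s ^ q) * ENNReal.ofReal ((max (W t - s) 0) ^ 2) := by
      intro s
      rw [lintegral_const_mul _ (by fun_prop)]
      ring
    simp only [e]
    rw [lintegral_const_mul' _ _ ENNReal.ofReal_ne_top]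
    congr 1
    rw [lintegral_lintegral_swap hm2.aemeasurable]
    simp only [key2 hq]
    rw [lintegral_const_mul' _ _ ENNReal.ofReal_ne_top]
  rw [h2, h3] at h1
  exact h1

/-- the constant -/
theorem const {d : ℕ} (hd : 6 ≤ d) :
    3 / 16 * beta (((d : ℝ) - 6) / 2 + 1) 3 / beta (((d : ℝ) - 6) / 2 + 1) (5 / 2) =
      (d.factorial : ℝ) / (2 ^ (d + 1) * Real.Gamma ((d : ℝ) / 2 + 1) ^ 2) := by
  have hd' : (6 : ℝ) ≤ d := by exact_mod_cast hd
  unfold beta
  have e1 : ((d : ℝ) - 6) / 2 + 1 + 3 = (d : ℝ) / 2 + 1 := by ring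
  have e2 : ((d : ℝ) - 6) / 2 + 1 + 5 / 2 = ((d : ℝ) + 1) / 2 := by ring
  rw [e1, e2]
  have g3 : Real.Gamma 3 = 2 := by
    have := Real.Gamma_nat_eq_factorial 2
    have e : ((2 : ℕ) : ℝ) + 1 = 3 := by norm_num
    rw [e] at this
    rw [this]
    norm_num [Nat.factorial]
  have g5 : Real.Gamma (5 / 2) = 3 / 4 * Real.sqrt Real.pi := by
    have h1 : (5 / 2 : ℝ) = 3 / 2 + 1 := by norm_num
    have h2 : (3 / 2 : ℝ) = 1 / 2 + 1 := by norm_num
    rw [h1, Real.Gamma_add_one (by norm_num), h2, Real.Gamma_add_one (by norm_num),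
      Real.Gamma_one_half_eq]
    ring
  have hA : 0 < Real.Gamma (((d : ℝ) - 6) / 2 + 1) := Real.Gamma_pos_of_pos (by linarith)
  have hG : 0 < Real.Gamma ((d : ℝ) / 2 + 1) := Real.Gamma_pos_of_pos (by positivity)
  have hH : 0 < Real.Gamma (((d : ℝ) + 1) / 2) := Real.Gamma_pos_of_pos (by positivity)
  have dup := Real.Gamma_mul_Gamma_add_half (((d : ℝ) + 1) / 2)
  have e3 : ((d : ℝ) + 1) / 2 + 1 / 2 = (d : ℝ) / 2 + 1 := by ring
  have e4 : 2 * (((d : ℝ) + 1) / 2) = (d : ℝ) + 1 := by ring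
  rw [e3, e4, Real.Gamma_nat_eq_factorial] at dup
  have e5 : (2 : ℝ) ^ (1 - ((d : ℝ) + 1)) = (2 ^ d)⁻¹ := by
    rw [show (1 - ((d : ℝ) + 1)) = -(d : ℝ) by ring, Real.rpow_neg (by norm_num),
      Real.rpow_natCast]
  rw [e5] at dup
  have hpi : 0 < Real.sqrt Real.pi := Real.sqrt_pos.2 Real.pi_pos
  have hsq : Real.sqrt Real.pi ^ 2 = Real.pi := Real.sq_sqrt Real.pi_pos.le
  have hfac : (d.factorial : ℝ) = Real.Gamma (((d : ℝ) + 1) / 2) *
      Real.Gamma ((d : ℝ) / 2 + 1) * 2 ^ d / Real.sqrt Real.pi := by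
    rw [dup]
    field_simp
  rw [hfac, g3, g5]
  generalize Real.Gamma (((d : ℝ) - 6) / 2 + 1) = A at *
  generalize Real.Gamma ((d : ℝ) / 2 + 1) = G at *
  generalize Real.Gamma (((d : ℝ) + 1) / 2) = H at *
  generalize Real.sqrt Real.pi = p at *
  field_simp
  ring

/-- RS/AL: the lifting argument of Aizenman and Lieb -/
theorem t_AL : S_AL := by
  intro d hd m y W hW h
  have hd' : (6 : ℝ) ≤ d := by exact_mod_cast hd
  have hq : (0 : ℝ) ≤ ((d : ℝ) - 6) / 2 := by linarith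
  have h1 := lift hq m y W hW h
  have e1 : ((d : ℝ) - 6) / 2 + 5 / 2 = ((d : ℝ) - 1) / 2 := by ring
  have e2 : ((d : ℝ) - 6) / 2 + 3 = (d : ℝ) / 2 := by ring
  rw [e1, e2] at h1
  have hc := const hd
  have hB : 0 < beta (((d : ℝ) - 6) / 2 + 1) (5 / 2) := beta_pos (by linarith) (by norm_num)
  have hB3 : 0 < beta (((d : ℝ) - 6) / 2 + 1) 3 := beta_pos (by linarith) (by norm_num)
  have hL : LL d = 3 / 16 * beta (((d : ℝ) - 6) / 2 + 1) 3 /
      beta (((d : ℝ) - 6) / 2 + 1) (5 / 2) := by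
    rw [hc]; rfl
  have hne : ENNReal.ofReal (beta (((d : ℝ) - 6) / 2 + 1) (5 / 2)) ≠ 0 := by
    simpa using hB
  have h2 : ENNReal.ofReal (beta (((d : ℝ) - 6) / 2 + 1) (5 / 2)) *
      ∑ i, ENNReal.ofReal ((max (y i) 0) ^ (((d : ℝ) - 1) / 2)) ≤
      ENNReal.ofReal (beta (((d : ℝ) - 6) / 2 + 1) (5 / 2)) *
      (ENNReal.ofReal (LL d) * ∫⁻ t, ENNReal.ofReal ((max (W t) 0) ^ ((d : ℝ) / 2))) := by
    refine h1.trans (le_of_eq ?_)
    rw [← mul_assoc, ← mul_assoc, ← ENNReal.ofReal_mul (by norm_num),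
      ← ENNReal.ofReal_mul hB.le, hL]
    congr 2
    generalize beta (((d : ℝ) - 6) / 2 + 1) (5 / 2) = A at *
    generalize beta (((d : ℝ) - 6) / 2 + 1) 3 = B at *
    field_simp
  exact (ENNReal.mul_le_mul_iff_right hne ENNReal.ofReal_ne_top).1 h2

end AL

end Pool.Agent.N537.RS
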