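import Pool.Agent.N537.RS.Stm

/-!
# Project RS, part CAL (helper291): the sharp inequality on the line, by a matrix calibration
-/

set_option autoImplicit false

open MeasureTheory Set Filter Topology

namespace Pool.Agent.N537.RS

namespace CA

lemma nsq (z : ℂ) : ((‖z‖ ^ 2 : ℝ) : ℂ) = star z * z := by
  rw [Complex.star_def, Complex.conj_mul']
  push_cast
  rfl

/-! ### algebra -/

section Alg

variable {m : ℕ} (v w : Fin m → ℂ) (M : Fin m → Fin m → ℂ)

lemma star_u (hM : ∀ i j, star (M i j) = M j i) (k : Fin m) :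
    star (∑ j, M k j * v j) = ∑ j, M j k * star (v j) := by
  rw [star_sum]
  refine Finset.sum_congr rfl fun j _ => ?_
  rw [star_mul', hM]

lemma alg1 : ∑ i, ∑ j, star (w i) * M i j * v j = ∑ i, star (w i) * ∑ j, M i j * v j := by
  refine Finset.sum_congr rfl fun i _ => ?_
  rw [Finset.mul_sum]
  exact Finset.sum_congr rfl fun j _ => mul_assoc _ _ _

lemma alg2 : ∑ i, ∑ j, star (v i) * (-2 * (v i * star (v j))) * v j =
    -2 * ((∑ i, star (v i) * v i) * ∑ i, star (v i) * v i) := by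
  rw [Finset.sum_mul_sum, Finset.mul_sum]
  refine Finset.sum_congr rfl fun i _ => ?_
  rw [Finset.mul_sum]
  refine Finset.sum_congr rfl fun j _ => ?_
  ring

lemma alg3 (hM : ∀ i j, star (M i j) = M j i) :
    ∑ i, ∑ j, star (v i) * M i j * w j = ∑ i, star (∑ j, M i j * v j) * w i := by
  rw [Finset.sum_comm]
  refine Finset.sum_congr rfl fun i _ => ?_
  rw [star_u v M hM, Finset.sum_mul]
  refine Finset.sum_congr rfl fun j _ => ?_
  ring

lemma algC (hM : ∀ i j, star (M i j) = M j i) :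
    ∑ k, star (∑ j, M k j * v j) * ∑ j, M k j * v j =
      ∑ k, ∑ j, ∑ i, v i * star (v j) * M j k * M k i := by
  refine Finset.sum_congr rfl fun k _ => ?_
  rw [star_u v M hM, Finset.sum_mul_sum]
  refine Finset.sum_congr rfl fun j _ => Finset.sum_congr rfl fun i _ => ?_
  ring

lemma alg4 : ∑ i, ∑ j, ∑ k, -2 * (v i * star (v j)) * M j k * M k i =
    -2 * ∑ k, ∑ j, ∑ i, v i * star (v j) * M j k * M k i := by
  have h1 : ∑ i, ∑ j, ∑ k, -2 * (v i * star (v j)) * M j k * M k i =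
      ∑ k, ∑ j, ∑ i, -2 * (v i * star (v j)) * M j k * M k i := by
    rw [Finset.sum_comm]
    have h2 : ∀ j, ∑ i, ∑ k, -2 * (v i * star (v j)) * M j k * M k i =
      ∑ k, ∑ i, -2 * (v i * star (v j)) * M j k * M k i := fun j => Finset.sum_comm
    rw [Finset.sum_congr rfl fun j _ => h2 j, Finset.sum_comm]
  rw [h1]
  simp only [Finset.mul_sum]
  refine Finset.sum_congr rfl fun i _ => Finset.sum_congr rfl fun j _ =>
    Finset.sum_congr rfl fun k _ => ?_
  ring

lemma alg5 : ∑ i, ∑ j, ∑ k, M i j * (-2 * (v j * star (v k))) * M k i =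
    -2 * ∑ k, ∑ j, ∑ i, v i * star (v j) * M j k * M k i := by
  have h1 : ∑ i, ∑ j, ∑ k, M i j * (-2 * (v j * star (v k))) * M k i =
      ∑ k, ∑ j, ∑ i, M k i * (-2 * (v i * star (v j))) * M j k :=
    Finset.sum_congr rfl fun i _ => Finset.sum_comm
  rw [h1]
  simp only [Finset.mul_sum]
  refine Finset.sum_congr rfl fun i _ => Finset.sum_congr rfl fun j _ =>
    Finset.sum_congr rfl fun k _ => ?_
  ring

lemma alg6 : ∑ i, ∑ j, ∑ k, M i j * M j k * (-2 * (v k * star (v i))) =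
    -2 * ∑ k, ∑ j, ∑ i, v i * star (v j) * M j k * M k i := by
  rw [Finset.sum_comm]
  simp only [Finset.mul_sum]
  refine Finset.sum_congr rfl fun i _ => Finset.sum_congr rfl fun j _ =>
    Finset.sum_congr rfl fun k _ => ?_
  ring

/-- the pointwise identity -/
lemma alg (hM : ∀ i j, star (M i j) = M j i) :
    -(2 / 3 : ℂ) * (∑ i, ∑ j, (star (w i) * M i j * v j +
        star (v i) * (-2 * (v i * star (v j))) * v j + star (v i) * M i j * w j)) -
      (2 / 27 : ℂ) * (∑ i, ∑ j, ∑ k, (-2 * (v i * star (v j)) * M j k * M k i +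
        M i j * (-2 * (v j * star (v k))) * M k i +
        M i j * M j k * (-2 * (v k * star (v i))))) =
    ((∑ i, ‖w i - (2 / 3 : ℂ) * ∑ j, M i j * v j‖ ^ 2 - ∑ i, ‖w i‖ ^ 2 +
      4 / 3 * (∑ i, ‖v i‖ ^ 2) ^ 2 : ℝ) : ℂ) := by
  have e1 : ∑ i, ∑ j, (star (w i) * M i j * v j +
        star (v i) * (-2 * (v i * star (v j))) * v j + star (v i) * M i j * w j) =
      (∑ i, star (w i) * ∑ j, M i j * v j) +
        -2 * ((∑ i, star (v i) * v i) * ∑ i, star (v i) * v i) +
        ∑ i, star (∑ j, M i j * v j) * w i := by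
    rw [← alg1, ← alg2, ← alg3 v w M hM]
    simp only [Finset.sum_add_distrib]
  have e2 : ∑ i, ∑ j, ∑ k, (-2 * (v i * star (v j)) * M j k * M k i +
        M i j * (-2 * (v j * star (v k))) * M k i +
        M i j * M j k * (-2 * (v k * star (v i)))) =
      -6 * ∑ k, star (∑ j, M k j * v j) * ∑ j, M k j * v j := by
    have e3 : ∑ i, ∑ j, ∑ k, (-2 * (v i * star (v j)) * M j k * M k i +
        M i j * (-2 * (v j * star (v k))) * M k i +
        M i j * M j k * (-2 * (v k * star (v i)))) =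
        (∑ i, ∑ j, ∑ k, -2 * (v i * star (v j)) * M j k * M k i) +
        (∑ i, ∑ j, ∑ k, M i j * (-2 * (v j * star (v k))) * M k i) +
        ∑ i, ∑ j, ∑ k, M i j * M j k * (-2 * (v k * star (v i))) := by
      simp only [Finset.sum_add_distrib]
    rw [e3, alg4, alg5, alg6, algC v M hM]
    ring
  rw [e1, e2]
  have gen : ∀ u : Fin m → ℂ, ((∑ i, ‖w i - (2 / 3 : ℂ) * u i‖ ^ 2 : ℝ) : ℂ) =
      (∑ i, star (w i) * w i) - (2 / 3 : ℂ) * (∑ i, star (w i) * u i) -
        (2 / 3 : ℂ) * (∑ i, star (u i) * w i) + (4 / 9 : ℂ) * ∑ k, star (u k) * u k := by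
    intro u
    rw [Complex.ofReal_sum, Finset.mul_sum, Finset.mul_sum, Finset.mul_sum,
      ← Finset.sum_sub_distrib, ← Finset.sum_sub_distrib, ← Finset.sum_add_distrib]
    refine Finset.sum_congr rfl fun i _ => ?_
    rw [nsq, star_sub, star_mul']
    have h23 : star (2 / 3 : ℂ) = 2 / 3 := by
      simp
    rw [h23]
    ring
  have e4 := gen (fun i => ∑ j, M i j * v j)
  have e5 : ((∑ i, ‖w i‖ ^ 2 : ℝ) : ℂ) = ∑ i, star (w i) * w i := by
    rw [Complex.ofReal_sum]
    exact Finset.sum_congr rfl fun i _ => nsq _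
  have e6 : ((∑ i, ‖v i‖ ^ 2 : ℝ) : ℂ) = ∑ i, star (v i) * v i := by
    rw [Complex.ofReal_sum]
    exact Finset.sum_congr rfl fun i _ => nsq _
  rw [Complex.ofReal_add, Complex.ofReal_sub, e4, e5, Complex.ofReal_mul, Complex.ofReal_pow, e6]
  push_cast
  ring

end Alg

/-! ### analysis -/

lemma int_mul {f g : ℝ → ℂ} (hf : Continuous f) (hg : Continuous g)
    (h1 : Integrable (fun t => ‖f t‖ ^ 2)) (h2 : Integrable (fun t => ‖g t‖ ^ 2)) :
    Integrable (fun t => star (f t) * g t) := by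
  refine (h1.add h2).mono' (hf.star.mul hg).aestronglyMeasurable (ae_of_all _ fun t => ?_)
  rw [norm_mul, norm_star]
  show ‖f t‖ * ‖g t‖ ≤ ‖f t‖ ^ 2 + ‖g t‖ ^ 2
  nlinarith [sq_nonneg (‖f t‖ - ‖g t‖), sq_nonneg ‖f t‖, sq_nonneg ‖g t‖]

lemma tend {f f' : ℝ → ℂ} (hd : ∀ t, HasDerivAt f (f' t) t) (hc : Continuous f')
    (h0 : Integrable (fun t => ‖f t‖ ^ 2)) (h1 : Integrable (fun t => ‖f' t‖ ^ 2)) :
    Tendsto f atTop (𝓝 0) ∧ Tendsto f atBot (𝓝 0) := by
  have hcf : Continuous f := continuous_iff_continuousAt.2 fun t => (hd t).continuousAt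
  have hg : ∀ t, HasDerivAt (fun t => star (f t) * f t)
      (star (f' t) * f t + star (f t) * f' t) t := fun t => (hd t).star.mul (hd t)
  have hi : Integrable (fun t => star (f' t) * f t + star (f t) * f' t) :=
    (int_mul hc hcf h1 h0).add (int_mul hcf hc h0 h1)
  have hi0 : Integrable (fun t => star (f t) * f t) := int_mul hcf hcf h0 h0
  have key : ∀ l : Filter ℝ, Tendsto (fun t => star (f t) * f t) l (𝓝 0) →
      Tendsto f l (𝓝 0) := by
    intro l h
    have h2 := h.norm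
    have h3 : Tendsto (fun t => ‖f t‖ ^ 2) l (𝓝 0) := by
      refine (h2.congr fun t => ?_).trans (by simp)
      rw [norm_mul, norm_star, pow_two]
    have h4 := h3.sqrt
    rw [tendsto_zero_iff_norm_tendsto_zero]
    simpa using h4
  exact ⟨key _ (tendsto_zero_of_hasDerivAt_of_integrableOn_Ioi (a := 0) (fun x _ => hg x)
    hi.integrableOn hi0.integrableOn), key _ (tendsto_zero_of_hasDerivAt_of_integrableOn_Iic
    (a := 0) (fun x _ => hg x) hi.integrableOn hi0.integrableOn)⟩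

lemma bound {f : ℝ → ℂ} (hc : Continuous f) (hT : Tendsto f atTop (𝓝 0))
    (hB : Tendsto f atBot (𝓝 0)) : ∃ C : ℝ, 0 ≤ C ∧ ∀ t, ‖f t‖ ≤ C := by
  have h1 := hT.norm
  have h2 := hB.norm
  rw [norm_zero] at h1 h2
  obtain ⟨a, ha⟩ := eventually_atTop.1 (h1.eventually_lt_const zero_lt_one)
  obtain ⟨b, hb⟩ := eventually_atBot.1 (h2.eventually_lt_const zero_lt_one)
  obtain ⟨C, hC⟩ := (isCompact_Icc (a := b) (b := a)).exists_bound_of_continuousOn hc.continuousOn
  refine ⟨max C 1, le_max_of_le_right zero_le_one, fun t => ?_⟩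
  rcases le_total a t with h | h
  · exact (ha t h).le.trans (le_max_right _ _)
  · rcases le_total t b with h' | h'
    · exact (hb t h').le.trans (le_max_right _ _)
    · exact (hC t ⟨h', h⟩).trans (le_max_left _ _)

lemma G_eq {g : ℝ → ℂ} (hi : Integrable g) (x : ℝ) :
    ∫ s in Iic x, g s = (∫ s in Iic (0 : ℝ), g s) + ∫ s in (0 : ℝ)..x, g s := by
  rw [← intervalIntegral.integral_Iic_sub_Iic hi.integrableOn hi.integrableOn]
  ring

lemma G_deriv {g : ℝ → ℂ} (hg : Continuous g) (hi : Integrable g) (x : ℝ) :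
    HasDerivAt (fun x => ∫ s in Iic x, g s) (g x) x := by
  have e : (fun x => ∫ s in Iic x, g s) =
      fun x => (∫ s in Iic (0 : ℝ), g s) + ∫ s in (0 : ℝ)..x, g s := funext fun x => G_eq hi x
  rw [e]
  exact (hg.integral_hasStrictDerivAt 0 x).hasDerivAt.const_add _

lemma G_top {g : ℝ → ℂ} (hi : Integrable g) :
    Tendsto (fun x : ℝ => ∫ s in Iic x, g s) atTop (𝓝 (∫ s, g s)) :=
  (aecover_Iic tendsto_id).integral_tendsto_of_countably_generated hi

lemma G_bot {g : ℝ → ℂ} (hi : Integrable g) :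
    Tendsto (fun x : ℝ => ∫ s in Iic x, g s) atBot (𝓝 0) := by
  have h1 := intervalIntegral_tendsto_integral_Iic (μ := volume) (0 : ℝ)
    (hi.integrableOn (s := Iic 0)) (tendsto_id (α := ℝ) (x := atBot))
  have h2 := (tendsto_const_nhds (x := ∫ s in Iic (0 : ℝ), g s) (f := atBot)).sub h1
  rw [sub_self] at h2
  refine h2.congr fun x => ?_
  rw [G_eq hi x, intervalIntegral.integral_symm]
  simp [sub_eq_add_neg]

/-- the core -/
theorem core {m : ℕ} (f f' : Fin m → ℝ → ℂ) (hd : ∀ i t, HasDerivAt (f i) (f' i t) t)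
    (hc : ∀ i, Continuous (f' i)) (h0 : ∀ i, Integrable (fun t => ‖f i t‖ ^ 2))
    (h1 : ∀ i, Integrable (fun t => ‖f' i t‖ ^ 2)) (ν : Fin m → ℝ)
    (ho : ∀ i j, ∫ t, star (f i t) * f j t = if i = j then (ν i : ℂ) else 0) :
    Integrable (fun t => (∑ j, ‖f j t‖ ^ 2) ^ 2) ∧
    4 / 3 * ∫ t, (∑ j, ‖f j t‖ ^ 2) ^ 2 ≤
      (∑ j, ∫ t, ‖f' j t‖ ^ 2) + 4 / 27 * ∑ j, ν j ^ 3 := by
  have hcf : ∀ i, Continuous (f i) := fun i =>
    continuous_iff_continuousAt.2 fun t => (hd i t).continuousAt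
  have hS : Continuous (fun t => ∑ j, ‖f j t‖ ^ 2) :=
    continuous_finsetSum _ fun j _ => (hcf j).norm.pow 2
  have hSi : Integrable (fun t => ∑ j, ‖f j t‖ ^ 2) := integrable_finsetSum _ fun j _ => h0 j
  have hS'i : Integrable (fun t => ∑ j, ‖f' j t‖ ^ 2) := integrable_finsetSum _ fun j _ => h1 j
  have hS'c : Continuous (fun t => ∑ j, ‖f' j t‖ ^ 2) :=
    continuous_finsetSum _ fun j _ => (hc j).norm.pow 2
  have ht := fun i => tend (hd i) (hc i) (h0 i) (h1 i)
  have hSS : Integrable (fun t => (∑ j, ‖f j t‖ ^ 2) ^ 2) := by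
    have hb : ∀ i, ∃ C : ℝ, 0 ≤ C ∧ ∀ t, ‖f i t‖ ≤ C := fun i =>
      bound (hcf i) (ht i).1 (ht i).2
    choose C hC0 hC using hb
    refine (hSi.const_mul (∑ j, C j ^ 2)).mono' (hS.pow 2).aestronglyMeasurable
      (ae_of_all _ fun t => ?_)
    have hpos : 0 ≤ ∑ j, ‖f j t‖ ^ 2 := Finset.sum_nonneg fun j _ => sq_nonneg _
    rw [Real.norm_of_nonneg (sq_nonneg _), pow_two (∑ j, ‖f j t‖ ^ 2)]
    refine mul_le_mul_of_nonneg_right ?_ hpos
    exact Finset.sum_le_sum fun j _ => pow_le_pow_left₀ (norm_nonneg _) (hC j t) 2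
  refine ⟨hSS, ?_⟩
  -- the matrix `G`
  have hgc : ∀ i j, Continuous (fun t => f i t * star (f j t)) := fun i j =>
    (hcf i).mul (hcf j).star
  have hgi : ∀ i j, Integrable (fun t => f i t * star (f j t)) := fun i j => by
    have := int_mul (hcf j) (hcf i) (h0 j) (h0 i)
    refine this.congr (ae_of_all _ fun t => ?_)
    exact mul_comm _ _
  obtain ⟨D, hD⟩ : ∃ D : Fin m → Fin m → ℝ → ℂ, ∀ i j x, D i j x =
    (if i = j then (ν i : ℂ) else 0) - 2 * ∫ s in Iic x, f i s * star (f j s) := ⟨_, fun _ _ _ => rfl⟩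
  have hD' : ∀ i j x, HasDerivAt (D i j) (-2 * (f i x * star (f j x))) x := by
    intro i j x
    have e : D i j = fun x => (if i = j then (ν i : ℂ) else 0) -
      2 * ∫ s in Iic x, f i s * star (f j s) := funext fun x => hD i j x
    rw [e]
    have := ((G_deriv (hgc i j) (hgi i j) x).const_mul 2).const_sub
      (if i = j then (ν i : ℂ) else 0)
    refine this.congr_deriv ?_
    ring
  have hDs : ∀ i j x, star (D i j x) = D j i x := by
    intro i j x
    have e : star (∫ s in Iic x, f i s * star (f j s)) = ∫ s in Iic x, f j s * star (f i s) := by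
      rw [Complex.star_def, ← integral_conj]
      refine integral_congr_ae (ae_of_all _ fun s => ?_)
      simp [mul_comm]
    rw [hD, hD, star_sub, star_mul', e]
    congr 1
    · by_cases h : i = j
      · subst h
        simp
      · simp [h, Ne.symm h]
    · simp
  have hDc : ∀ i j, Continuous (D i j) := fun i j =>
    continuous_iff_continuousAt.2 fun t => (hD' i j t).continuousAt
  have hDT : ∀ i j, Tendsto (D i j) atTop (𝓝 (if i = j then -(ν i : ℂ) else 0)) := by
    intro i j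
    have h2 := ((G_top (hgi i j)).const_mul 2).const_sub (if i = j then (ν i : ℂ) else 0)
    have e : ∫ s, f i s * star (f j s) = if i = j then (ν i : ℂ) else 0 := by
      have h3 := ho j i
      rw [integral_congr_ae (ae_of_all _ fun s => mul_comm (f i s) (star (f j s))), h3]
      by_cases h : i = j
      · subst h
        simp
      · simp [h, Ne.symm h]
    rw [e] at h2
    have e2 : (if i = j then (ν i : ℂ) else 0) - 2 * (if i = j then (ν i : ℂ) else 0) =
        if i = j then -(ν i : ℂ) else 0 := by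
      split_ifs <;> ring
    rw [e2] at h2
    exact h2.congr fun x => (hD i j x).symm
  have hDB : ∀ i j, Tendsto (D i j) atBot (𝓝 (if i = j then (ν i : ℂ) else 0)) := by
    intro i j
    have h2 := ((G_bot (hgi i j)).const_mul 2).const_sub (if i = j then (ν i : ℂ) else 0)
    rw [mul_zero, sub_zero] at h2
    exact h2.congr fun x => (hD i j x).symm
  -- the primitive
  obtain ⟨F, hF⟩ : ∃ F : ℝ → ℂ, ∀ x, F x = -(2 / 3 : ℂ) * (∑ i, ∑ j,
    star (f i x) * D i j x * f j x) - (2 / 27 : ℂ) * (∑ i, ∑ j, ∑ k,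
      D i j x * D j k x * D k i x) := ⟨_, fun _ => rfl⟩
  obtain ⟨P, hP⟩ : ∃ P : ℝ → ℝ, ∀ x, P x =
      (∑ i, ‖f' i x - (2 / 3 : ℂ) * ∑ j, D i j x * f j x‖ ^ 2 - ∑ i, ‖f' i x‖ ^ 2 +
      4 / 3 * (∑ i, ‖f i x‖ ^ 2) ^ 2) := ⟨_, fun _ => rfl⟩
  have hPc : Continuous P := by
    have e : P = fun x => (∑ i, ‖f' i x - (2 / 3 : ℂ) * ∑ j, D i j x * f j x‖ ^ 2 -
      ∑ i, ‖f' i x‖ ^ 2 + 4 / 3 * (∑ i, ‖f i x‖ ^ 2) ^ 2) := funext hP
    rw [e]
    refine ((continuous_finsetSum _ fun i _ => ?_).sub hS'c).add (continuous_const.mul (hS.pow 2))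
    refine (((hc i).sub (continuous_const.mul (continuous_finsetSum _ fun j _ => ?_))).norm).pow 2
    exact (hDc i j).mul (hcf j)
  have hFd : ∀ x, HasDerivAt F ((P x : ℝ) : ℂ) x := by
    intro x
    have e : F = fun x => -(2 / 3 : ℂ) * (∑ i, ∑ j,
      star (f i x) * D i j x * f j x) - (2 / 27 : ℂ) * (∑ i, ∑ j, ∑ k,
      D i j x * D j k x * D k i x) := funext hF
    rw [e]
    have q1 : HasDerivAt (fun x => ∑ i, ∑ j, star (f i x) * D i j x * f j x)
        (∑ i, ∑ j, (star (f' i x) * D i j x * f j x +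
        star (f i x) * (-2 * (f i x * star (f j x))) * f j x +
          star (f i x) * D i j x * f' j x)) x := by
      refine HasDerivAt.fun_sum fun i _ => HasDerivAt.fun_sum fun j _ => ?_
      refine (((hd i x).star.mul (hD' i j x)).mul (hd j x)).congr_deriv ?_
      simp only [Pi.mul_apply]
      ring
    have q2 : HasDerivAt (fun x => ∑ i, ∑ j, ∑ k, D i j x * D j k x * D k i x)
        (∑ i, ∑ j, ∑ k, (-2 * (f i x * star (f j x)) * D j k x * D k i x +
        D i j x * (-2 * (f j x * star (f k x))) * D k i x +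
        D i j x * D j k x * (-2 * (f k x * star (f i x))))) x := by
      refine HasDerivAt.fun_sum fun i _ => HasDerivAt.fun_sum fun j _ =>
        HasDerivAt.fun_sum fun k _ => ?_
      refine (((hD' i j x).mul (hD' j k x)).mul (hD' k i x)).congr_deriv ?_
      simp only [Pi.mul_apply]
      ring
    refine ((q1.const_mul (-(2 / 3 : ℂ))).sub (q2.const_mul (2 / 27 : ℂ))).congr_deriv ?_
    rw [hP]
    exact alg (fun i => f i x) (fun i => f' i x) (fun i j => D i j x) (fun i j => hDs i j x)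
  have hFT : Tendsto F atTop (𝓝 ((2 / 27 : ℂ) * ∑ i, (ν i : ℂ) ^ 3)) := by
    have h2 : Tendsto (fun x => -(2 / 3 : ℂ) * (∑ i, ∑ j,
      star (f i x) * D i j x * f j x) - (2 / 27 : ℂ) * (∑ i, ∑ j, ∑ k,
      D i j x * D j k x * D k i x)) atTop (𝓝 (-(2 / 3 : ℂ) * (∑ i, ∑ j,
      star (0 : ℂ) * (if i = j then -(ν i : ℂ) else 0) * 0) - (2 / 27 : ℂ) * (∑ i, ∑ j, ∑ k,
      (if i = j then -(ν i : ℂ) else 0) * (if j = k then -(ν j : ℂ) else 0) *
        (if k = i then -(ν k : ℂ) else 0)))) := by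
      refine (Tendsto.const_mul _ ?_).sub (Tendsto.const_mul _ ?_)
      · refine tendsto_finsetSum _ fun i _ => tendsto_finsetSum _ fun j _ => ?_
        exact (((ht i).1.star).mul (hDT i j)).mul (ht j).1
      · refine tendsto_finsetSum _ fun i _ => tendsto_finsetSum _ fun j _ =>
          tendsto_finsetSum _ fun k _ => ?_
        exact ((hDT i j).mul (hDT j k)).mul (hDT k i)
    refine (h2.congr fun x => (hF x).symm).trans (le_of_eq ?_)
    congr 1
    simp only [mul_ite, ite_mul, mul_zero, zero_mul, Finset.sum_ite_eq',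
      Finset.mem_univ, if_true, Finset.sum_const_zero, zero_sub]
    rw [← mul_neg, ← Finset.sum_neg_distrib]
    congr 1
    refine Finset.sum_congr rfl fun i _ => ?_
    ring
  have hFB : Tendsto F atBot (𝓝 (-(2 / 27 : ℂ) * ∑ i, (ν i : ℂ) ^ 3)) := by
    have h2 : Tendsto (fun x => -(2 / 3 : ℂ) * (∑ i, ∑ j,
      star (f i x) * D i j x * f j x) - (2 / 27 : ℂ) * (∑ i, ∑ j, ∑ k,
      D i j x * D j k x * D k i x)) atBot (𝓝 (-(2 / 3 : ℂ) * (∑ i, ∑ j,
      star (0 : ℂ) * (if i = j then (ν i : ℂ) else 0) * 0) - (2 / 27 : ℂ) * (∑ i, ∑ j, ∑ k,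
      (if i = j then (ν i : ℂ) else 0) * (if j = k then (ν j : ℂ) else 0) *
        (if k = i then (ν k : ℂ) else 0)))) := by
      refine (Tendsto.const_mul _ ?_).sub (Tendsto.const_mul _ ?_)
      · refine tendsto_finsetSum _ fun i _ => tendsto_finsetSum _ fun j _ => ?_
        exact (((ht i).2.star).mul (hDB i j)).mul (ht j).2
      · refine tendsto_finsetSum _ fun i _ => tendsto_finsetSum _ fun j _ =>
          tendsto_finsetSum _ fun k _ => ?_
        exact ((hDB i j).mul (hDB j k)).mul (hDB k i)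
    refine (h2.congr fun x => (hF x).symm).trans (le_of_eq ?_)
    congr 1
    simp only [mul_ite, ite_mul, mul_zero, zero_mul, Finset.sum_ite_eq',
      Finset.mem_univ, if_true, Finset.sum_const_zero, zero_sub]
    rw [neg_mul]
    congr 2
    refine Finset.sum_congr rfl fun i _ => ?_
    ring
  -- the inequality on `[-T, T]`
  have hineq : ∀ T : ℝ, 0 ≤ T → 4 / 3 * (∫ t in (-T)..T, (∑ j, ‖f j t‖ ^ 2) ^ 2) ≤
      (∫ t in (-T)..T, ∑ j, ‖f' j t‖ ^ 2) + ((F T).re - (F (-T)).re) := by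
    intro T hT
    have hFre : ∀ x, HasDerivAt (fun x => (F x).re) (P x) x := by
      intro x
      exact (Complex.reCLM.hasFDerivAt.comp_hasDerivAt x (hFd x)).congr_deriv (by simp)
    have h2 : ∫ t in (-T)..T, P t = (F T).re - (F (-T)).re :=
      intervalIntegral.integral_eq_sub_of_hasDerivAt (fun x _ => hFre x)
        (hPc.intervalIntegrable _ _)
    rw [← h2, ← intervalIntegral.integral_const_mul, ← intervalIntegral.integral_add
      (hS'c.intervalIntegrable _ _) (hPc.intervalIntegrable _ _)]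
    refine intervalIntegral.integral_mono_on (by linarith)
      ((continuous_const.mul (hS.pow 2)).intervalIntegrable _ _)
      ((hS'c.add hPc).intervalIntegrable _ _) fun t _ => ?_
    rw [hP]
    have : 0 ≤ ∑ i, ‖f' i t - (2 / 3 : ℂ) * ∑ j, D i j t * f j t‖ ^ 2 :=
      Finset.sum_nonneg fun i _ => sq_nonneg _
    linarith
  have hneg : Tendsto (fun T : ℝ => -T) atTop atBot := tendsto_neg_atTop_atBot
  have hL : Tendsto (fun T : ℝ => 4 / 3 * (∫ t in (-T)..T, (∑ j, ‖f j t‖ ^ 2) ^ 2)) atTop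
      (𝓝 (4 / 3 * ∫ t, (∑ j, ‖f j t‖ ^ 2) ^ 2)) :=
    (intervalIntegral_tendsto_integral hSS hneg tendsto_id).const_mul _
  have hR : Tendsto (fun T : ℝ => (∫ t in (-T)..T, ∑ j, ‖f' j t‖ ^ 2) +
      ((F T).re - (F (-T)).re)) atTop (𝓝 ((∫ t, ∑ j, ‖f' j t‖ ^ 2) +
        (((2 / 27 : ℂ) * ∑ i, (ν i : ℂ) ^ 3).re - (-(2 / 27 : ℂ) * ∑ i, (ν i : ℂ) ^ 3).re))) := by
    refine (intervalIntegral_tendsto_integral hS'i hneg tendsto_id).add (Tendsto.sub ?_ ?_)
    · exact (Complex.continuous_re.tendsto _).comp hFT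
    · exact (Complex.continuous_re.tendsto _).comp (hFB.comp hneg)
  have hfin := le_of_tendsto_of_tendsto hL hR (eventually_atTop.2 ⟨0, fun T hT => hineq T hT⟩)
  refine hfin.trans (le_of_eq ?_)
  rw [integral_finsetSum _ fun j _ => h1 j]
  congr 1
  have e3 : (∑ i, (ν i : ℂ) ^ 3) = ((∑ i, ν i ^ 3 : ℝ) : ℂ) := by
    push_cast
    rfl
  have e4 : (2 / 27 : ℂ) = ((2 / 27 : ℝ) : ℂ) := by
    push_cast
    rfl
  rw [e3, e4, neg_mul, Complex.neg_re, ← Complex.ofReal_mul, Complex.ofReal_re]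
  ring

end CA

theorem t_CAL : S_CAL := by
  intro m ψ ψ' hψ hO ν hν
  have hs : ∀ j, √(ν j) ^ 2 = ν j := fun j => Real.sq_sqrt (hν j)
  have hn : ∀ (j : Fin m) (z : ℂ), ‖(√(ν j) : ℂ) * z‖ ^ 2 = ν j * ‖z‖ ^ 2 := by
    intro j z
    rw [norm_mul, mul_pow, Complex.norm_real, Real.norm_of_nonneg (Real.sqrt_nonneg _), hs]
  have h := CA.core (fun j t => (√(ν j) : ℂ) * ψ j t) (fun j t => (√(ν j) : ℂ) * ψ' j t)
    (fun j t => ((hψ j).deriv t).const_mul _) (fun j => continuous_const.mul (hψ j).cont)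
    (fun j => by simp only [hn]; exact (hψ j).i0.const_mul _)
    (fun j => by simp only [hn]; exact (hψ j).i1.const_mul _) ν (by
      intro i j
      have e : ∀ t, star ((√(ν i) : ℂ) * ψ i t) * ((√(ν j) : ℂ) * ψ j t) =
          ((√(ν i) : ℂ) * (√(ν j) : ℂ)) * (star (ψ i t) * ψ j t) := by
        intro t
        rw [star_mul']
        have : star (√(ν i) : ℂ) = (√(ν i) : ℂ) := Complex.conj_ofReal _
        rw [this]
        ring
      simp only [e]
      rw [integral_const_mul, hO i j]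
      by_cases h : i = j
      · subst h
        rw [if_pos rfl, if_pos rfl, mul_one, ← pow_two, ← Complex.ofReal_pow, hs]
      · rw [if_neg h, if_neg h, mul_zero])
  simp only [hn, integral_const_mul] at h
  exact h

end Pool.Agent.N537.RS
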