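import Pool.Agent.N537.RS.Stm

/-!
# Project RS, leaf CELL: the cells
-/

set_option autoImplicit false

open MeasureTheory Set

namespace Pool.Agent.N537.RS

noncomputable section

namespace CE

/-- the product of the factors common to the two end points of a cell -/
def C (k l : ℕ) : ℝ := ∏ j ∈ Finset.range k, ((l : ℝ) + 1 + j)

theorem C_pos (k l : ℕ) : 0 < C k l := by
  unfold C
  apply Finset.prod_pos
  intro i _
  positivity

theorem PP_succ (k l : ℕ) : PP (k + 3) (l + 1) =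
    ((l : ℝ) + 1 + k / 2) * ((l : ℝ) + 1 + k) * C k l := by
  unfold PP C
  have h : k + 3 - 2 = k + 1 := by omega
  rw [h, Finset.prod_range_succ]
  push_cast
  ring

theorem PP_eq (k l : ℕ) : PP (k + 3) l = ((l : ℝ) + k / 2) * l * C k l := by
  unfold PP C
  have h : k + 3 - 2 = k + 1 := by omega
  rw [h, Finset.prod_range_succ']
  have h2 : ∀ j : ℕ, (l : ℝ) + ((j + 1 : ℕ) : ℝ) = (l : ℝ) + 1 + j := by
    intro j; push_cast; ring
  simp only [h2]
  push_cast
  ring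

theorem diff_eq (k l : ℕ) : PP (k + 3) (l + 1) - PP (k + 3) l =
    C k l * ((l : ℝ) + (k + 1) / 2) * (k + 2) := by
  rw [PP_succ, PP_eq]; ring

theorem sum_eq (k l : ℕ) : (PP (k + 3) (l + 1) + PP (k + 3) l) / 2 =
    C k l * (((l : ℝ) + (k + 1) / 2) ^ 2 + (k + 1) / 4) := by
  rw [PP_succ, PP_eq]; ring

theorem choose1 (k l : ℕ) : ((k + 2).factorial : ℝ) * ((l + k + 2).choose (k + 2) : ℝ) =
    C k l * ((l : ℝ) + 1 + k) * ((l : ℝ) + k + 2) := by
  have h : (l + 1).ascFactorial (k + 2) = (k + 2).factorial * (l + (k + 2)).choose (k + 2) :=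
    Nat.ascFactorial_eq_factorial_mul_choose l (k + 2)
  have h2 : l + (k + 2) = l + k + 2 := by ring
  rw [h2, Nat.ascFactorial_eq_prod_range, Finset.prod_range_succ, Finset.prod_range_succ] at h
  have h3 := congrArg (fun n : ℕ => (n : ℝ)) h
  push_cast at h3
  rw [← h3]
  unfold C
  push_cast
  ring

theorem choose2 (k l : ℕ) : ((k + 2).factorial : ℝ) * ((l + k).choose (k + 2) : ℝ) =
    C k l * ((l : ℝ) - 1) * l := by
  cases l with
  | zero =>
    have : (0 + k).choose (k + 2) = 0 := Nat.choose_eq_zero_of_lt (by omega)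
    rw [this]
    simp
  | succ l =>
    have h : l.ascFactorial (k + 2) = (k + 2).factorial * (l + (k + 2) - 1).choose (k + 2) :=
      Nat.ascFactorial_eq_factorial_mul_choose' l (k + 2)
    have h2 : l + (k + 2) - 1 = l + 1 + k := by omega
    rw [h2, Nat.ascFactorial_eq_prod_range, Finset.prod_range_succ', Finset.prod_range_succ'] at h
    have h3 := congrArg (fun n : ℕ => (n : ℝ)) h
    push_cast at h3
    rw [← h3]
    unfold C
    have h4 : ∀ j : ℕ, ((l + 1 : ℕ) : ℝ) + 1 + j = (l : ℝ) + (j + 1 + 1) := by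
      intro j; push_cast; ring
    simp only [h4]
    push_cast
    ring

theorem hdim_eq (k l : ℕ) : ((k + 3 - 1).factorial : ℝ) * (hdim (k + 3) l : ℝ) =
    2 * (PP (k + 3) (l + 1) - PP (k + 3) l) := by
  unfold hdim
  have e1 : k + 3 - 1 = k + 2 := by omega
  have e2 : l + (k + 3) - 1 = l + k + 2 := by omega
  have e3 : l + (k + 3) - 3 = l + k := by omega
  rw [e1, e2, e3, Nat.cast_sub (Nat.choose_le_choose _ (by omega)), mul_sub, choose1, choose2,
    diff_eq]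
  ring

theorem sum_sq (c : ℝ) (k : ℕ) : ∑ i ∈ Finset.range k, ((i : ℝ) + c) ^ 2 =
    (k : ℝ) * (k - 1) * (2 * k - 1) / 6 + c * k * (k - 1) + k * c ^ 2 := by
  induction k with
  | zero => simp
  | succ k ih => rw [Finset.sum_range_succ, ih]; push_cast; ring

theorem C_sq (k l : ℕ) : C k l ^ 2 = ∏ i ∈ Finset.range k,
    (((l : ℝ) + (k + 1) / 2) ^ 2 - ((i : ℝ) + (1 - k) / 2) ^ 2) := by
  have h1 : C k l = ∏ i ∈ Finset.range k, ((l : ℝ) + 1 + ((k - 1 - i : ℕ) : ℝ)) := by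
    unfold C
    exact (Finset.prod_range_reflect (fun j : ℕ => (l : ℝ) + 1 + (j : ℝ)) k).symm
  rw [sq]
  nth_rewrite 2 [h1]
  unfold C
  rw [← Finset.prod_mul_distrib]
  apply Finset.prod_congr rfl
  intro i hi
  rw [Finset.mem_range] at hi
  have : ((k - 1 - i : ℕ) : ℝ) = (k : ℝ) - 1 - i := by
    have h : k - 1 - i + (1 + i) = k := by omega
    have h' := congrArg (fun n : ℕ => (n : ℝ)) h
    push_cast at h'
    linarith
  rw [this]
  ring

theorem main_ineq (k l : ℕ) (hk : 3 ≤ k) :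
    C k l * (((l : ℝ) + (k + 1) / 2) ^ 2 + (k + 1) / 4) ≤ ((l : ℝ) + (k + 1) / 2) ^ (k + 2) := by
  have hk' : (3 : ℝ) ≤ k := by exact_mod_cast hk
  set ν : ℝ := (l : ℝ) + (k + 1) / 2 with hν
  have hνp : 0 < ν := by positivity
  have hC := C_pos k l
  rw [← pow_le_pow_iff_left₀ (by positivity) (by positivity) (two_ne_zero)]
  rw [mul_pow, C_sq, ← hν]
  have hν2 : 0 < ν ^ 2 := by positivity
  have hle1 : ∏ i ∈ Finset.range k, (ν ^ 2 - ((i : ℝ) + (1 - k) / 2) ^ 2) ≤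
      ∏ i ∈ Finset.range k, (ν ^ 2 * Real.exp (-((i : ℝ) + (1 - k) / 2) ^ 2 / ν ^ 2)) := by
    apply Finset.prod_le_prod
    · intro i hi
      rw [Finset.mem_range] at hi
      have hi' : (i : ℝ) + 1 ≤ k := by exact_mod_cast hi
      have hi0 : (0 : ℝ) ≤ i := by positivity
      have hl0 : (0 : ℝ) ≤ l := by positivity
      have : ν ^ 2 - ((i : ℝ) + (1 - k) / 2) ^ 2 = ((l : ℝ) + 1 + i) * ((l : ℝ) + k - i) := by
        rw [hν]; ring
      rw [this]
      apply mul_nonneg <;> linarith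
    · intro i _
      have h := Real.add_one_le_exp (-((i : ℝ) + (1 - k) / 2) ^ 2 / ν ^ 2)
      have h2 := mul_le_mul_of_nonneg_left h hν2.le
      have h3 : ν ^ 2 * (-((i : ℝ) + (1 - k) / 2) ^ 2 / ν ^ 2 + 1) =
          ν ^ 2 - ((i : ℝ) + (1 - k) / 2) ^ 2 := by
        field_simp
        ring
      rwa [h3] at h2
  have hle2 : ν ^ 2 + ((k : ℝ) + 1) / 4 ≤ ν ^ 2 * Real.exp (((k : ℝ) + 1) / 4 / ν ^ 2) := by
    have h := Real.add_one_le_exp (((k : ℝ) + 1) / 4 / ν ^ 2)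
    have h2 := mul_le_mul_of_nonneg_left h hν2.le
    have h3 : ν ^ 2 * (((k : ℝ) + 1) / 4 / ν ^ 2 + 1) = ν ^ 2 + ((k : ℝ) + 1) / 4 := by
      field_simp
      ring
    rwa [h3] at h2
  have hle3 : (ν ^ 2 + ((k : ℝ) + 1) / 4) ^ 2 ≤
      (ν ^ 2 * Real.exp (((k : ℝ) + 1) / 4 / ν ^ 2)) ^ 2 :=
    pow_le_pow_left₀ (by positivity) hle2 2
  refine (mul_le_mul hle1 hle3 (by positivity) (Finset.prod_nonneg fun i _ => by positivity)).trans ?_
  rw [Finset.prod_mul_distrib, Finset.prod_const, Finset.card_range, ← Real.exp_sum, mul_pow,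
    ← Real.exp_nat_mul]
  have hs : ∑ i ∈ Finset.range k, (-((i : ℝ) + (1 - k) / 2) ^ 2 / ν ^ 2) =
      -((k : ℝ) * (k - 1) * (k + 1) / 12) / ν ^ 2 := by
    rw [← Finset.sum_div, Finset.sum_neg_distrib, sum_sq]
    congr 2
    ring
  rw [hs]
  have h5 : (ν ^ 2) ^ k * Real.exp (-((k : ℝ) * (k - 1) * (k + 1) / 12) / ν ^ 2) *
      ((ν ^ 2) ^ 2 * Real.exp (((2 : ℕ) : ℝ) * (((k : ℝ) + 1) / 4 / ν ^ 2))) =
      (ν ^ (k + 2)) ^ 2 * Real.exp (-(((k : ℝ) + 1) * (k * (k - 1) - 6) / 12 / ν ^ 2)) := by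
    have e : Real.exp (-(((k : ℝ) + 1) * (k * (k - 1) - 6) / 12 / ν ^ 2)) =
        Real.exp (-((k : ℝ) * (k - 1) * (k + 1) / 12) / ν ^ 2) *
        Real.exp (((2 : ℕ) : ℝ) * (((k : ℝ) + 1) / 4 / ν ^ 2)) := by
      rw [← Real.exp_add]
      congr 1
      push_cast
      ring
    rw [e]
    ring
  rw [h5]
  have h6 : Real.exp (-(((k : ℝ) + 1) * (k * (k - 1) - 6) / 12 / ν ^ 2)) ≤ 1 := by
    rw [Real.exp_le_one_iff, neg_nonpos]
    have : (0 : ℝ) ≤ k * (k - 1) - 6 := by nlinarith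
    positivity
  have h7 : 0 ≤ (ν ^ (k + 2)) ^ 2 := by positivity
  nlinarith

theorem tangent {e μ x : ℝ} (he0 : 0 ≤ e) (he1 : e ≤ 1) (hμ : 0 < μ) (hx : 0 ≤ x) :
    x ^ e ≤ μ ^ e + e * (μ ^ e / μ) * (x - μ) := by
  have h := rpow_one_add_le_one_add_mul_self (s := x / μ - 1) (by
    have : 0 ≤ x / μ := by positivity
    linarith) he0 he1
  have h1 : 1 + (x / μ - 1) = x / μ := by ring
  rw [h1, Real.div_rpow hx hμ.le] at h
  have hp : 0 < μ ^ e := Real.rpow_pos_of_pos hμ e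
  rw [div_le_iff₀ hp] at h
  refine h.trans (le_of_eq ?_)
  field_simp

theorem integral_le {e p q : ℝ} (he0 : 0 ≤ e) (he1 : e ≤ 1) (hp : 0 ≤ p) (hpq : p ≤ q)
    (hm : 0 < (p + q) / 2) :
    ∫ x in p..q, x ^ e ≤ (q - p) * ((p + q) / 2) ^ e := by
  set μ := (p + q) / 2 with hμ
  have h1 : ∫ x in p..q, x ^ e ≤ ∫ x in p..q, (μ ^ e + e * (μ ^ e / μ) * (x - μ)) := by
    apply intervalIntegral.integral_mono_on hpq
    · apply Continuous.intervalIntegrable
      exact Real.continuous_rpow_const he0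
    · apply Continuous.intervalIntegrable
      fun_prop
    · intro x hx
      exact tangent he0 he1 hm (hp.trans hx.1)
  refine h1.trans (le_of_eq ?_)
  have i1 : IntervalIntegrable (fun _ : ℝ => μ ^ e) volume p q :=
    Continuous.intervalIntegrable (by fun_prop) _ _
  have i2 : IntervalIntegrable (fun x : ℝ => e * (μ ^ e / μ) * (x - μ)) volume p q :=
    Continuous.intervalIntegrable (by fun_prop) _ _
  have i3 : IntervalIntegrable (fun x : ℝ => x) volume p q :=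
    Continuous.intervalIntegrable (by fun_prop) _ _
  have i4 : IntervalIntegrable (fun _ : ℝ => μ) volume p q :=
    Continuous.intervalIntegrable (by fun_prop) _ _
  rw [intervalIntegral.integral_add i1 i2, intervalIntegral.integral_const,
    intervalIntegral.integral_const_mul, intervalIntegral.integral_sub i3 i4,
    integral_id, intervalIntegral.integral_const]
  simp only [smul_eq_mul]
  rw [hμ]
  ring

theorem t_CELL : S_CELL := by
  intro d hd
  obtain ⟨k, rfl⟩ : ∃ k, d = k + 3 := ⟨d - 3, by omega⟩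
  have hk : 3 ≤ k := by omega
  refine ⟨?_, ?_⟩
  · rw [PP_eq]; simp
  intro l
  have hC := C_pos k l
  have hd' := diff_eq k l
  have hle : PP (k + 3) l ≤ PP (k + 3) (l + 1) := by
    have : 0 ≤ C k l * ((l : ℝ) + (k + 1) / 2) * (k + 2) := by positivity
    linarith
  refine ⟨(hdim_eq k l).symm, hle, ?_⟩
  have hp0 : 0 ≤ PP (k + 3) l := by rw [PP_eq]; positivity
  have hmid : (PP (k + 3) l + PP (k + 3) (l + 1)) / 2 =
      C k l * (((l : ℝ) + (k + 1) / 2) ^ 2 + (k + 1) / 4) := by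
    rw [← sum_eq]; ring
  have hm : 0 < (PP (k + 3) l + PP (k + 3) (l + 1)) / 2 := by
    rw [hmid]; positivity
  have hcast : ((k + 3 : ℕ) : ℝ) - 1 = (k : ℝ) + 2 := by push_cast; ring
  have hcast2 : (((k + 3 : ℕ) : ℝ) - 2) / 2 = ((k : ℝ) + 1) / 2 := by push_cast; ring
  rw [hcast, hcast2]
  have hk0 : (0 : ℝ) ≤ k := by positivity
  have he0 : (0 : ℝ) ≤ 2 / ((k : ℝ) + 2) := by positivity
  have he1 : 2 / ((k : ℝ) + 2) ≤ 1 := by
    rw [div_le_one (by positivity)]; linarith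
  refine (integral_le he0 he1 hp0 hle hm).trans ?_
  apply mul_le_mul_of_nonneg_left _ (sub_nonneg.2 hle)
  have h1 : (PP (k + 3) l + PP (k + 3) (l + 1)) / 2 ≤ ((l : ℝ) + (k + 1) / 2) ^ (k + 2) := by
    rw [hmid]; exact main_ineq k l hk
  refine (Real.rpow_le_rpow hm.le h1 he0).trans (le_of_eq ?_)
  have hν : (0 : ℝ) ≤ (l : ℝ) + (k + 1) / 2 := by positivity
  rw [← Real.rpow_natCast ((l : ℝ) + (k + 1) / 2) (k + 2), ← Real.rpow_mul hν]
  have : ((k + 2 : ℕ) : ℝ) * (2 / ((k : ℝ) + 2)) = (2 : ℕ) := by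
    push_cast
    field_simp
  rw [this, Real.rpow_natCast]

end CE

end

end Pool.Agent.N537.RS
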