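import Pool.Agent.N537.RS.Stm

/-! RS/CST (helper36): the constant. -/

set_option autoImplicit false

namespace Pool.Agent.N537.RS

namespace CS

open Pool.Agent.R117.RL

theorem t_CST : S_CST := by
  intro d hd
  have hd0 : 0 < d := by omega
  have hd' : (0 : ℝ) < d := by exact_mod_cast hd0
  have hω := om_pos d
  have hσ := sg_pos hd0
  have hG := Ga_pos d
  have hπ := Real.pi_pos
  have hfac : (0 : ℝ) < (d - 1).factorial := by exact_mod_cast Nat.factorial_pos _
  have hLL : 0 < LL d := by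
    unfold LL
    have h1 : (0 : ℝ) < d.factorial := by exact_mod_cast Nat.factorial_pos _
    positivity
  refine ⟨hLL, ?_⟩
  have hf : (d.factorial : ℝ) = d * ((d - 1).factorial : ℝ) := by
    rw [← Nat.mul_factorial_pred hd0.ne']
    push_cast
    rfl
  obtain ⟨B, hB⟩ : ∃ B : ℝ, B = (d : ℝ) / (2 ^ d * Ga d ^ 2) := ⟨_, rfl⟩
  have hB0 : 0 < B := by rw [hB]; positivity
  have hBB : 2 / ((d - 1).factorial : ℝ) * LL d = B := by
    rw [hB]
    unfold LL
    rw [hf, pow_succ]
    field_simp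
  rw [hBB]
  have hsq := om_sq hd0
  have key : (2 * Real.pi) ^ d / om d = sg d / B := by
    rw [div_eq_div_iff hω.ne' hB0.ne', hB]
    unfold sg
    have h1 : (d : ℝ) * om d * om d = d * (Real.pi ^ d / Ga d ^ 2) := by
      rw [← hsq]; ring
    rw [h1, mul_pow]
    field_simp
  have e1 : (2 * Real.pi) ^ 2 = ((2 * Real.pi) ^ d) ^ (2 / (d : ℝ)) := by
    rw [← Real.rpow_natCast (2 * Real.pi) d, ← Real.rpow_mul (by positivity)]
    have h1 : (d : ℝ) * (2 / (d : ℝ)) = ((2 : ℕ) : ℝ) := by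
      field_simp
      norm_num
    rw [h1, Real.rpow_natCast]
  have e2 : (2 * Real.pi) ^ 2 / om d ^ (2 / (d : ℝ)) =
      sg d ^ (2 / (d : ℝ)) * B ^ (-(2 / (d : ℝ))) := by
    rw [e1, ← Real.div_rpow (by positivity) hω.le, key, Real.div_rpow hσ.le hB0.le,
      Real.rpow_neg hB0.le, div_eq_mul_inv]
  unfold Kcl
  rw [e2]
  ring

end CS

end Pool.Agent.N537.RS

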