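import Pool.Agent.N537.RS.Stm

/-!
RS/DUAL: assembly of the dual inequality.
-/

set_option autoImplicit false

open MeasureTheory Set Filter Topology Matrix
open scoped ComplexOrder

namespace Pool.Agent.N537.RS.DU

open Pool.Agent.N537.RS

noncomputable section

variable {m : ℕ}

/-- the Gram matrix with the weight `w` -/
def G (w : ℝ → ℝ) (u : Fin m → ℝ → ℂ) : Matrix (Fin m) (Fin m) ℂ :=
  Matrix.of fun i j => ∫ t, (w t : ℂ) * (star (u i t) * u j t)

theorem G_herm (w : ℝ → ℝ) (u : Fin m → ℝ → ℂ) : (G w u).IsHermitian := by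
  apply Matrix.IsHermitian.ext
  intro i j
  change star (∫ t, (w t : ℂ) * (star (u j t) * u i t)) = ∫ t, (w t : ℂ) * (star (u i t) * u j t)
  have h := integral_conj (μ := volume) (f := fun t => (w t : ℂ) * (star (u j t) * u i t))
  change ∫ t, star ((w t : ℂ) * (star (u j t) * u i t)) = star (∫ t, (w t : ℂ) * (star (u j t) * u i t)) at h
  rw [← h]
  apply integral_congr_ae
  apply Filter.Eventually.of_forall
  intro t
  beta_reduce
  rw [star_mul', star_mul', star_star]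
  have h2 : star ((w t : ℝ) : ℂ) = (w t : ℂ) := Complex.conj_ofReal (w t)
  rw [h2]
  ring

theorem G_bil (w : ℝ → ℝ) (u : Fin m → ℝ → ℂ)
    (hint : ∀ i j, Integrable (fun t => (w t : ℂ) * (star (u i t) * u j t))) (a b : Fin m → ℂ) :
    star a ⬝ᵥ (G w u *ᵥ b) =
      ∫ t, (w t : ℂ) * (star (∑ i, a i * u i t) * (∑ j, b j * u j t)) := by
  have h1 : ∀ t, (w t : ℂ) * (star (∑ i, a i * u i t) * (∑ j, b j * u j t)) =
      ∑ i, ∑ j, (star (a i) * b j) * ((w t : ℂ) * (star (u i t) * u j t)) := by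
    intro t
    rw [star_sum, Finset.sum_mul_sum, Finset.mul_sum]
    apply Finset.sum_congr rfl
    intro i _
    rw [Finset.mul_sum]
    apply Finset.sum_congr rfl
    intro j _
    rw [star_mul']
    ring
  simp_rw [h1]
  rw [integral_finsetSum]
  · unfold dotProduct mulVec dotProduct
    apply Finset.sum_congr rfl
    intro i _
    rw [integral_finsetSum]
    · rw [Finset.mul_sum]
      apply Finset.sum_congr rfl
      intro j _
      rw [integral_const_mul]
      change star (a i) * ((∫ t, (w t : ℂ) * (star (u i t) * u j t)) * b j) = _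
      ring
    · intro j _
      exact (hint i j).const_mul _
  · intro i _
    apply integrable_finsetSum
    intro j _
    exact (hint i j).const_mul _

theorem G_self (w : ℝ → ℝ) (u : Fin m → ℝ → ℂ)
    (hint : ∀ i j, Integrable (fun t => (w t : ℂ) * (star (u i t) * u j t))) (a : Fin m → ℂ) :
    star a ⬝ᵥ (G w u *ᵥ a) = ((∫ t, w t * ‖∑ i, a i * u i t‖ ^ 2 : ℝ) : ℂ) := by
  have h0 : ((∫ t, w t * ‖∑ i, a i * u i t‖ ^ 2 : ℝ) : ℂ) =
      ∫ t, ((w t * ‖∑ i, a i * u i t‖ ^ 2 : ℝ) : ℂ) := (integral_ofReal (𝕜 := ℂ)).symm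
  rw [G_bil w u hint, h0]
  apply integral_congr_ae
  apply Filter.Eventually.of_forall
  intro t
  beta_reduce
  have h : star (∑ i, a i * u i t) * (∑ i, a i * u i t) = ((‖∑ i, a i * u i t‖ : ℝ) : ℂ) ^ 2 :=
    Complex.conj_mul' _
  rw [h]
  push_cast
  rfl

theorem intw (w : ℝ → ℝ) (hw : Measurable w) (u v : ℝ → ℂ) (hu : Continuous u) (hv : Continuous v)
    (iu : Integrable (fun t => |w t| * ‖u t‖ ^ 2)) (iv : Integrable (fun t => |w t| * ‖v t‖ ^ 2)) :
    Integrable (fun t => (w t : ℂ) * (star (u t) * v t)) := by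
  refine (iu.add iv).mono' ?_ ?_
  · apply Measurable.aestronglyMeasurable
    apply Measurable.mul (Complex.measurable_ofReal.comp hw)
    exact ((hu.star).measurable).mul hv.measurable
  · apply Filter.Eventually.of_forall
    intro t
    rw [norm_mul, norm_mul, norm_star, Complex.norm_real, Real.norm_eq_abs]
    change |w t| * (‖u t‖ * ‖v t‖) ≤ |w t| * ‖u t‖ ^ 2 + |w t| * ‖v t‖ ^ 2
    rw [← mul_add]
    apply mul_le_mul_of_nonneg_left _ (abs_nonneg _)
    nlinarith [sq_nonneg (‖u t‖ - ‖v t‖), sq_nonneg (‖u t‖), sq_nonneg (‖v t‖)]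

theorem fn_cont {f f' : ℝ → ℂ} (h : Fn f f') : Continuous f :=
  continuous_iff_continuousAt.mpr fun t => (h.deriv t).continuousAt

theorem int_one {f f' g g' : ℝ → ℂ} (hf : Fn f f') (hg : Fn g g') :
    Integrable (fun t => (((fun _ : ℝ => (1 : ℝ)) t : ℝ) : ℂ) * (star (f t) * g t)) := by
  apply intw _ measurable_const _ _ (fn_cont hf) (fn_cont hg)
  · simpa using hf.i0
  · simpa using hg.i0

theorem int_one' {f f' g g' : ℝ → ℂ} (hf : Fn f f') (hg : Fn g g') :
    Integrable (fun t => (((fun _ : ℝ => (1 : ℝ)) t : ℝ) : ℂ) * (star (f' t) * g' t)) := by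
  apply intw _ measurable_const _ _ hf.cont hg.cont
  · simpa using hf.i1
  · simpa using hg.i1

theorem int_exp {f f' g g' : ℝ → ℂ} (hf : Fn f f') (hg : Fn g g') :
    Integrable (fun t => (((fun t : ℝ => Real.exp (2 * t)) t : ℝ) : ℂ) * (star (f t) * g t)) := by
  apply intw (fun t => Real.exp (2 * t)) (by fun_prop) _ _ (fn_cont hf) (fn_cont hg)
  · simpa using hf.i2
  · simpa using hg.i2

theorem int_V {f f' g g' : ℝ → ℂ} (hf : Fn f f') (hg : Fn g g') (V : ℝ → ℝ) (hV : Measurable V)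
    (hV0 : ∀ t, 0 ≤ V t) (C : ℝ) (hC : ∀ t, V t ≤ C) :
    Integrable (fun t => (((fun t : ℝ => Real.exp (2 * t) * V t) t : ℝ) : ℂ) *
      (star (f t) * g t)) := by
  have key : ∀ {f f' : ℝ → ℂ}, Fn f f' →
      Integrable (fun t => |Real.exp (2 * t) * V t| * ‖f t‖ ^ 2) := by
    intro f f' hf
    refine (hf.i2.const_mul C).mono' ?_ ?_
    · apply Measurable.aestronglyMeasurable
      apply Measurable.mul
      · apply Measurable.abs
        exact Measurable.mul (by fun_prop) hV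
      · exact ((fn_cont hf).measurable.norm).pow_const 2
    · apply Filter.Eventually.of_forall
      intro t
      rw [Real.norm_eq_abs, abs_mul, abs_abs, abs_mul, abs_of_pos (Real.exp_pos _),
        abs_of_nonneg (hV0 t), abs_of_nonneg (by positivity : (0 : ℝ) ≤ ‖f t‖ ^ 2)]
      have h1 : V t * (Real.exp (2 * t) * ‖f t‖ ^ 2) ≤ C * (Real.exp (2 * t) * ‖f t‖ ^ 2) :=
        mul_le_mul_of_nonneg_right (hC t) (by positivity)
      calc Real.exp (2 * t) * V t * ‖f t‖ ^ 2 = V t * (Real.exp (2 * t) * ‖f t‖ ^ 2) := by ring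
        _ ≤ _ := h1
  apply intw (fun t => Real.exp (2 * t) * V t) (Measurable.mul (by fun_prop) hV) _ _
    (fn_cont hf) (fn_cont hg)
  · exact key hf
  · exact key hg

theorem G_one (ψ : Fin m → ℝ → ℂ) (ho : Orth ψ) : G (fun _ => (1 : ℝ)) ψ = 1 := by
  ext i j
  change ∫ t, (((1 : ℝ)) : ℂ) * (star (ψ i t) * ψ j t) = _
  simp only [Complex.ofReal_one, one_mul]
  rw [ho i j, Matrix.one_apply]

theorem M_pos (ψ ψ' : Fin m → ℝ → ℂ) (hψ : ∀ j, Fn (ψ j) (ψ' j)) (ho : Orth ψ) :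
    (G (fun t => Real.exp (2 * t)) ψ).PosDef := by
  apply Matrix.PosDef.of_dotProduct_mulVec_pos (G_herm _ _)
  intro x hx
  rw [G_self _ _ (fun i j => int_exp (hψ i) (hψ j))]
  rw [Complex.zero_lt_real]
  have hnn : ∀ t : ℝ, 0 ≤ Real.exp (2 * t) * ‖∑ i, x i * ψ i t‖ ^ 2 := fun t => by positivity
  have hint : Integrable (fun t : ℝ => Real.exp (2 * t) * ‖∑ i, x i * ψ i t‖ ^ 2) := by
    have h1 : Integrable (fun t : ℝ => (((fun t : ℝ => Real.exp (2 * t)) t : ℝ) : ℂ) *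
        (star (∑ i, x i * ψ i t) * (∑ j, x j * ψ j t))) := by
      have h2 : ∀ t : ℝ, (((fun t : ℝ => Real.exp (2 * t)) t : ℝ) : ℂ) *
          (star (∑ i, x i * ψ i t) * (∑ j, x j * ψ j t)) =
          ∑ i, ∑ j, (star (x i) * x j) *
            ((((fun t : ℝ => Real.exp (2 * t)) t : ℝ) : ℂ) * (star (ψ i t) * ψ j t)) := by
        intro t
        rw [star_sum, Finset.sum_mul_sum, Finset.mul_sum]
        apply Finset.sum_congr rfl
        intro i _
        rw [Finset.mul_sum]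
        apply Finset.sum_congr rfl
        intro j _
        rw [star_mul']
        ring
      simp_rw [h2]
      apply integrable_finsetSum
      intro i _
      apply integrable_finsetSum
      intro j _
      exact (int_exp (hψ i) (hψ j)).const_mul _
    have h3 := h1.norm
    refine h3.congr ?_
    apply Filter.Eventually.of_forall
    intro t
    beta_reduce
    rw [norm_mul, norm_mul, norm_star, Complex.norm_real, Real.norm_eq_abs,
      abs_of_pos (Real.exp_pos _)]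
    ring
  rcases (integral_nonneg (μ := volume)
    (f := fun t : ℝ => Real.exp (2 * t) * ‖∑ i, x i * ψ i t‖ ^ 2) hnn).lt_or_eq with h | h
  · exact h
  · exfalso
    apply hx
    have h4 := (integral_eq_zero_iff_of_nonneg hnn hint).mp h.symm
    have h5 : ∫ t, (fun _ : ℝ => (1 : ℝ)) t * ‖∑ i, x i * ψ i t‖ ^ 2 = 0 := by
      rw [← integral_zero ℝ ℝ]
      apply integral_congr_ae
      filter_upwards [h4] with t ht
      have h6 : Real.exp (2 * t) * ‖∑ i, x i * ψ i t‖ ^ 2 = 0 := ht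
      rcases mul_eq_zero.mp h6 with h7 | h7
      · exact absurd h7 (Real.exp_pos _).ne'
      · change (1 : ℝ) * _ = 0
        rw [h7, mul_zero]
    have h8 := G_self (fun _ => (1 : ℝ)) ψ (fun i j => int_one (hψ i) (hψ j)) x
    rw [h5, G_one ψ ho, Matrix.one_mulVec, Complex.ofReal_zero] at h8
    exact dotProduct_star_self_eq_zero.mp h8

theorem t_DUAL (hG : S_GS) (h32 : S_LT32) (hAL : S_AL) (hLA : S_LA) (hT : S_TAU) : S_DUAL := by
  intro d hd Λ g N hg φ φ' hs V hV hV0 hVC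
  obtain ⟨C, hC⟩ := hVC
  have hd' : (6 : ℝ) ≤ d := by exact_mod_cast hd
  obtain ⟨m, ψ, ψ', c, hψ, ho, hc⟩ := hG (Σ l : {x // x ∈ Λ}, Fin (N l.1))
    (fun i => φ i.1.1 i.2) (fun i => φ' i.1.1 i.2) (fun i => hs.fn i.1.1 i.1.2 i.2)
  -- the vectors
  obtain ⟨v, hv⟩ : ∃ v : ∀ l, Fin (N l) → Fin m → ℂ, ∀ (l : ℕ) (h : l ∈ Λ) (n : Fin (N l)),
      v l n = c ⟨⟨l, h⟩, n⟩ := by
    classical
    refine ⟨fun l n => if h : l ∈ Λ then c ⟨⟨l, h⟩, n⟩ else 0, ?_⟩
    intro l h n
    beta_reduce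
    rw [dif_pos h]
  have hφ : ∀ (l : ℕ) (h : l ∈ Λ) (n : Fin (N l)) (t : ℝ), ∑ j, v l n j * ψ j t = φ l n t := by
    intro l h n t
    rw [hv l h n]
    exact ((hc ⟨⟨l, h⟩, n⟩ t).1).symm
  have hφ' : ∀ (l : ℕ) (h : l ∈ Λ) (n : Fin (N l)) (t : ℝ), ∑ j, v l n j * ψ' j t = φ' l n t := by
    intro l h n t
    rw [hv l h n]
    exact ((hc ⟨⟨l, h⟩, n⟩ t).2).symm
  -- the matrices
  obtain ⟨M, hMdef⟩ : ∃ M, M = G (fun t => Real.exp (2 * t)) ψ := ⟨_, rfl⟩
  obtain ⟨K, hKdef⟩ : ∃ K, K = G (fun _ => (1 : ℝ)) ψ' := ⟨_, rfl⟩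
  obtain ⟨X, hXdef⟩ : ∃ X, X = G (fun t => Real.exp (2 * t) * V t) ψ := ⟨_, rfl⟩
  have hMp : M.PosDef := hMdef ▸ M_pos ψ ψ' hψ ho
  have hKh : K.IsHermitian := hKdef ▸ G_herm _ _
  have hXh : X.IsHermitian := hXdef ▸ G_herm _ _
  have hAh : (K - X).IsHermitian := hKh.sub hXh
  have hH : ∀ τ : ℝ, ((K - X) + (τ : ℂ) • M).IsHermitian := by
    intro τ
    apply hAh.add
    have h1 : IsSelfAdjoint ((τ : ℝ) : ℂ) := Complex.conj_ofReal τ
    have h2 : (((τ : ℝ) : ℂ) • M)ᴴ = ((τ : ℝ) : ℂ) • M := by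
      rw [Matrix.conjTranspose_smul, hMp.1.eq]
      congr 1
    exact h2
  have horth : ∀ l ∈ Λ, ∀ a b, star (v l a) ⬝ᵥ (M *ᵥ v l b) = if a = b then (1 : ℂ) else 0 := by
    intro l hl a b
    rw [hMdef, G_bil _ _ (fun i j => int_exp (hψ i) (hψ j)), ← hs.orth l hl a b]
    apply integral_congr_ae
    apply Filter.Eventually.of_forall
    intro t
    beta_reduce
    rw [hφ l hl a t, hφ l hl b t]
  have hLA' := hLA d hd m (K - X) M hAh hMp Λ g N hg v horth hH
  -- the left hand side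
  have hself : ∀ (l : ℕ) (h : l ∈ Λ) (n : Fin (N l)),
      (star (v l n) ⬝ᵥ ((K - X) *ᵥ v l n)).re =
        (∫ t, ‖φ' l n t‖ ^ 2) - ∫ t, Real.exp (2 * t) * V t * ‖φ l n t‖ ^ 2 := by
    intro l h n
    rw [Matrix.sub_mulVec, dotProduct_sub, hKdef, hXdef,
      G_self _ _ (fun i j => int_one' (hψ i) (hψ j)),
      G_self _ _ (fun i j => int_V (hψ i) (hψ j) V hV hV0 C hC), Complex.sub_re,
      Complex.ofReal_re, Complex.ofReal_re]
    congr 1
    · apply integral_congr_ae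
      apply Filter.Eventually.of_forall
      intro t
      beta_reduce
      rw [hφ' l h n t, one_mul]
    · apply integral_congr_ae
      apply Filter.Eventually.of_forall
      intro t
      beta_reduce
      rw [hφ l h n t]
  have hself1 : ∀ (l : ℕ) (h : l ∈ Λ) (n : Fin (N l)),
      (star (v l n) ⬝ᵥ v l n).re = ∫ t, ‖φ l n t‖ ^ 2 := by
    intro l h n
    have h8 := G_self (fun _ => (1 : ℝ)) ψ (fun i j => int_one (hψ i) (hψ j)) (v l n)
    rw [G_one ψ ho, Matrix.one_mulVec] at h8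
    rw [h8, Complex.ofReal_re]
    apply integral_congr_ae
    apply Filter.Eventually.of_forall
    intro t
    beta_reduce
    rw [hφ l h n t, one_mul]
  have hLHS : (∑ l ∈ Λ, (g l : ℝ) * ∑ n,
      ((∫ t, Real.exp (2 * t) * V t * ‖φ l n t‖ ^ 2) - (∫ t, ‖φ' l n t‖ ^ 2) -
        ((l : ℝ) + ((d : ℝ) - 2) / 2) ^ 2 * ∫ t, ‖φ l n t‖ ^ 2)) =
      ∑ l ∈ Λ, (g l : ℝ) * (-(∑ a, (star (v l a) ⬝ᵥ ((K - X) *ᵥ v l a)).re) -
        ((l : ℝ) + ((d : ℝ) - 2) / 2) ^ 2 * ∑ a, (star (v l a) ⬝ᵥ v l a).re) := by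
    apply Finset.sum_congr rfl
    intro l hl
    congr 1
    rw [← Finset.sum_neg_distrib, Finset.mul_sum, ← Finset.sum_sub_distrib]
    apply Finset.sum_congr rfl
    intro n _
    rw [hself l hl n, hself1 l hl n]
    ring
  rw [hLHS]
  refine hLA'.trans ?_
  -- the right hand side
  have hform : ∀ τ : ℝ, IsForm ψ ψ' (fun t => Real.exp (2 * t) * (V t - τ))
      ((K - X) + (τ : ℂ) • M) := by
    intro τ i j
    have h1 : ∫ t, (((Real.exp (2 * t) * (V t - τ) : ℝ)) : ℂ) * (star (ψ i t) * ψ j t) =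
        X i j - (τ : ℂ) * M i j := by
      rw [hXdef, hMdef]
      change _ = (∫ t, (((fun t : ℝ => Real.exp (2 * t) * V t) t : ℝ) : ℂ) *
        (star (ψ i t) * ψ j t)) - (τ : ℂ) *
        ∫ t, (((fun t : ℝ => Real.exp (2 * t)) t : ℝ) : ℂ) * (star (ψ i t) * ψ j t)
      rw [← integral_const_mul, ← integral_sub (int_V (hψ i) (hψ j) V hV hV0 C hC)
        ((int_exp (hψ i) (hψ j)).const_mul _)]
      apply integral_congr_ae
      apply Filter.Eventually.of_forall
      intro t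
      beta_reduce
      push_cast
      ring
    have h2 : K i j = ∫ t, star (ψ' i t) * ψ' j t := by
      rw [hKdef]
      change ∫ t, (((1 : ℝ)) : ℂ) * (star (ψ' i t) * ψ' j t) = _
      simp only [Complex.ofReal_one, one_mul]
    rw [h1, ← h2, Matrix.add_apply, Matrix.sub_apply, Matrix.smul_apply, smul_eq_mul]
    ring
  have hbound : ∀ τ ∈ Ioi (0 : ℝ),
      ∑ i, ENNReal.ofReal ((max (-(hH τ).eigenvalues i) 0) ^ (((d : ℝ) - 1) / 2)) ≤
      ENNReal.ofReal (LL d) * ∫⁻ t, ENNReal.ofReal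
        ((max (Real.exp (2 * t) * (V t - τ)) 0) ^ ((d : ℝ) / 2)) := by
    intro τ hτ
    have hτ' : 0 < τ := hτ
    have hWm : Measurable (fun t => Real.exp (2 * t) * (V t - τ)) :=
      Measurable.mul (by fun_prop) (hV.sub_const τ)
    have h1 := h32 m ψ ψ' hψ ho (fun t => Real.exp (2 * t) * (V t - τ)) hWm
      ⟨C + τ, by
        intro t
        rw [abs_mul, abs_of_pos (Real.exp_pos _), mul_comm]
        apply mul_le_mul_of_nonneg_right _ (Real.exp_pos _).le
        rw [abs_le]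
        constructor
        · linarith [hV0 t, hC t]
        · linarith [hC t]⟩ ((K - X) + (τ : ℂ) • M) (hH τ) (hform τ)
    exact hAL d hd m (fun i => -(hH τ).eigenvalues i)
      (fun t => Real.exp (2 * t) * (V t - τ)) hWm h1
  have hLL : 0 ≤ LL d := by
    unfold LL
    positivity
  calc ENNReal.ofReal (2 / ((d - 1).factorial : ℝ)) * ∫⁻ τ in Ioi (0 : ℝ),
        ∑ i, ENNReal.ofReal ((max (-(hH τ).eigenvalues i) 0) ^ (((d : ℝ) - 1) / 2))
      ≤ ENNReal.ofReal (2 / ((d - 1).factorial : ℝ)) * ∫⁻ τ in Ioi (0 : ℝ),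
        ENNReal.ofReal (LL d) * ∫⁻ t, ENNReal.ofReal
          ((max (Real.exp (2 * t) * (V t - τ)) 0) ^ ((d : ℝ) / 2)) := by
        exact mul_le_mul' le_rfl (setLIntegral_mono' measurableSet_Ioi hbound)
    _ = ENNReal.ofReal (2 / ((d - 1).factorial : ℝ) * LL d * (2 / ((d : ℝ) + 2))) *
      ∫⁻ t, ENNReal.ofReal (Real.exp (d * t) * V t ^ (1 + (d : ℝ) / 2)) := by
        rw [lintegral_const_mul' _ _ ENNReal.ofReal_ne_top, hT d hd V hV hV0,
          ENNReal.ofReal_mul (by positivity), ENNReal.ofReal_mul (by positivity)]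
        ring

end

end Pool.Agent.N537.RS.DU
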