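import Pool.Agent.N537.RS.Log
import Pool.Agent.N537.CS.Mix

/-!
# Project RS: the kinetic inequality for all closed shell systems
-/

set_option autoImplicit false

open MeasureTheory Set Filter Topology

namespace Pool.Agent.N537.RS.FI

open Pool.Agent.R117.RL Pool.Agent.N537.CS

theorem shell_card {d g l : ℕ} (hd : 0 < d) {P : Fin g → E d → ℝ} (hS : Shell l P) : 0 < g := by
  rcases Nat.eq_zero_or_pos g with h | h
  · subst h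
    exfalso
    have h1 := hS.square (EuclideanSpace.single ⟨0, hd⟩ 1)
    simp at h1
  · exact h

theorem final (hK : S_KIN) (hC : S_CST) (hL : S_LOG) {d : ℕ} (hd : 6 ≤ d) (Λ : Finset ℕ)
    (g : ℕ → ℕ) (hg : ∀ l ∈ Λ, g l ≤ hdim d l) (N : ℕ → ℕ) (P : ∀ l, Fin (g l) → E d → ℝ)
    (u : ∀ l, Fin (N l) → Fin (g l) → E d → ℂ) (h : Mixed Λ g N P u) :
    Integrable (fun x => (∑ l ∈ Λ, ∑ n, ∑ j, ‖u l n j x‖ ^ 2) ^ (1 + 2 / (d : ℝ))) ∧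
    Kcl d * (∫ x, (∑ l ∈ Λ, ∑ n, ∑ j, ‖u l n j x‖ ^ 2) ^ (1 + 2 / (d : ℝ))) ≤
      ∑ l ∈ Λ, ∑ n, ∑ j, ∫ x, grad2 (u l n j) x := by
  obtain ⟨k, rfl⟩ : ∃ k, d = k + 1 := ⟨d - 1, by omega⟩
  have hk : 5 ≤ k := by omega
  have hk' : (5 : ℝ) ≤ k := by exact_mod_cast hk
  have hsg := sg_pos (Nat.succ_pos k)
  set s := sg (k + 1) with hs
  have hs0 : 0 < s := hsg
  have hcast : ((k + 1 : ℕ) : ℝ) = (k : ℝ) + 1 := by push_cast; ring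
  have hex : ∀ l, ∃ φ φ' : Fin (N l) → ℝ → ℂ, l ∈ Λ → (∀ n, Fn (φ n) (φ' n)) ∧
    (∀ a b, ∫ t, (Real.exp (2 * t) : ℂ) * (star (φ a t) * φ b t) =
      if a = b then (1 : ℂ) else 0) ∧
    (∀ x : E (k + 1), x ≠ 0 → ∑ n, ∑ j, ‖u l n j x‖ ^ 2 =
      (g l : ℝ) / sg (k + 1) / ‖x‖ ^ (k - 1) * ∑ n, ‖φ n (Real.log ‖x‖)‖ ^ 2) ∧
    (g l : ℝ) * ∑ n, ((∫ t, ‖φ' n t‖ ^ 2) +
      ((l : ℝ) + (((k + 1 : ℕ) : ℝ) - 2) / 2) ^ 2 * ∫ t, ‖φ n t‖ ^ 2) ≤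
      ∑ n, ∑ j, ∫ x, grad2 (u l n j) x := by
    intro l
    by_cases hl : l ∈ Λ
    · obtain ⟨φ, φ', h1⟩ := hL k (g l) l (N l) hk (shell_card (Nat.succ_pos k) (h.shell l hl))
        (P l) (h.shell l hl) (u l) (h.system l hl)
      exact ⟨φ, φ', fun _ => h1⟩
    · exact ⟨fun _ _ => 0, fun _ _ => 0, fun h => absurd h hl⟩
  choose φ φ' hφ using hex
  have hsys : Sys Λ N φ φ' := ⟨fun l hl n => (hφ l hl).1 n, fun l hl => (hφ l hl).2.1⟩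
  obtain ⟨hI, hle⟩ := hK (k + 1) hd Λ g N hg φ φ' hsys
  obtain ⟨-, hcst⟩ := hC (k + 1) hd
  set D : ℝ → ℝ := fun t => ∑ l ∈ Λ, (g l : ℝ) * ∑ n, ‖φ l n t‖ ^ 2 with hD
  have hD0 : ∀ t, 0 ≤ D t := fun t => Finset.sum_nonneg fun l _ =>
    mul_nonneg (Nat.cast_nonneg _) (Finset.sum_nonneg fun n _ => sq_nonneg _)
  set p : ℝ := 1 + 2 / ((k + 1 : ℕ) : ℝ) with hp
  have hp0 : 0 < p := by rw [hp]; positivity
  -- the density
  set hfun : ℝ → ℝ := fun y => (D (Real.log y) / s / y ^ (k - 1)) ^ p with hhfun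
  have hρ : ∀ x : E (k + 1), x ≠ 0 →
      (∑ l ∈ Λ, ∑ n, ∑ j, ‖u l n j x‖ ^ 2) ^ p = hfun ‖x‖ := by
    intro x hx
    rw [hhfun]
    simp only
    congr 1
    rw [hD]
    simp only
    rw [Finset.sum_div, Finset.sum_div]
    refine Finset.sum_congr rfl fun l hl => ?_
    rw [(hφ l hl).2.2.1 x hx]
    ring
  have hne : ∀ᵐ x : E (k + 1), x ≠ 0 := by
    rw [ae_iff]
    simp
  have hae : (fun x : E (k + 1) => (∑ l ∈ Λ, ∑ n, ∑ j, ‖u l n j x‖ ^ 2) ^ p) =ᵐ[volume]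
      fun x => hfun ‖x‖ := by
    filter_upwards [hne] with x hx using hρ x hx
  have hexp : ∀ t : ℝ, Real.exp (((k : ℝ) + 1) * t) • hfun (Real.exp t) =
      (s⁻¹) ^ p * (Real.exp (4 * t / ((k + 1 : ℕ) : ℝ)) * D t ^ p) := by
    intro t
    rw [hhfun]
    simp only
    rw [Real.log_exp, smul_eq_mul, div_eq_mul_inv (D t) s, mul_comm (D t),
      Real.div_rpow (mul_nonneg (inv_nonneg.2 hs0.le) (hD0 t)) (by positivity),
      Real.mul_rpow (inv_nonneg.2 hs0.le) (hD0 t), ← Real.exp_nat_mul, ← Real.exp_mul,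
      div_eq_mul_inv, ← Real.exp_neg]
    have e : Real.exp (((k : ℝ) + 1) * t) * Real.exp (-(((k - 1 : ℕ) : ℝ) * t * p)) =
        Real.exp (4 * t / ((k + 1 : ℕ) : ℝ)) := by
      rw [← Real.exp_add]
      congr 1
      rw [Nat.cast_sub (by omega), hp, hcast]
      push_cast
      field_simp
      ring
    rw [← e]
    ring
  have hIx : Integrable (fun x : E (k + 1) => hfun ‖x‖) := by
    rw [LO.log_integrable]
    refine (hI.const_mul ((s⁻¹) ^ p)).congr (Eventually.of_forall fun t => ?_)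
    exact (hexp t).symm
  refine ⟨hIx.congr hae.symm, ?_⟩
  rw [integral_congr_ae hae, LO.log_integral]
  rw [integral_congr_ae (Eventually.of_forall hexp), integral_const_mul, smul_eq_mul, hcst]
  set J := ∫ t, Real.exp (4 * t / ((k + 1 : ℕ) : ℝ)) * D t ^ p with hJ
  have e1 : s ^ (2 / ((k + 1 : ℕ) : ℝ)) * (s * (s⁻¹) ^ p) = 1 := by
    rw [Real.inv_rpow hs0.le, hp, Real.rpow_add hs0, Real.rpow_one]
    have := (Real.rpow_pos_of_pos hs0 (2 / ((k + 1 : ℕ) : ℝ))).ne'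
    field_simp
  rw [← hs]
  have e2 : s ^ (2 / ((k + 1 : ℕ) : ℝ)) * (((k + 1 : ℕ) : ℝ) / (((k + 1 : ℕ) : ℝ) + 2) *
      (2 / ((k + 1 - 1).factorial : ℝ) * LL (k + 1)) ^ (-(2 / ((k + 1 : ℕ) : ℝ)))) *
      (s * ((s⁻¹) ^ p * J)) = (s ^ (2 / ((k + 1 : ℕ) : ℝ)) * (s * (s⁻¹) ^ p)) *
      (((k + 1 : ℕ) : ℝ) / (((k + 1 : ℕ) : ℝ) + 2) *
      (2 / ((k + 1 - 1).factorial : ℝ) * LL (k + 1)) ^ (-(2 / ((k + 1 : ℕ) : ℝ))) * J) := by
    ring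
  rw [e2, e1, one_mul]
  exact hle.trans (Finset.sum_le_sum fun l hl => (hφ l hl).2.2.2)

end Pool.Agent.N537.RS.FI
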