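import Pool.Agent.N537.RS.Stm

/-! # RS/GS: Gram-Schmidt orthogonalisation for admissible functions on the line -/

set_option autoImplicit false

open MeasureTheory Set Filter Topology

namespace Pool.Agent.N537.RS.GS

theorem int_add (w : ℝ → ℝ) (hw : Continuous w) (hw0 : ∀ t, 0 ≤ w t) (f g : ℝ → ℂ)
    (hf : Continuous f) (hg : Continuous g) (h1 : Integrable (fun t => w t * ‖f t‖ ^ 2))
    (h2 : Integrable (fun t => w t * ‖g t‖ ^ 2)) :
    Integrable (fun t => w t * ‖f t + g t‖ ^ 2) := by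
  refine Integrable.mono' ((h1.const_mul 2).add (h2.const_mul 2))
    (Continuous.aestronglyMeasurable (by fun_prop)) (Eventually.of_forall fun t => ?_)
  have h0 := hw0 t
  rw [Real.norm_of_nonneg (by positivity)]
  show w t * ‖f t + g t‖ ^ 2 ≤ 2 * (w t * ‖f t‖ ^ 2) + 2 * (w t * ‖g t‖ ^ 2)
  have h3 : ‖f t + g t‖ ≤ ‖f t‖ + ‖g t‖ := norm_add_le _ _
  have h4 : ‖f t + g t‖ ^ 2 ≤ 2 * ‖f t‖ ^ 2 + 2 * ‖g t‖ ^ 2 := by
    have h5 : ‖f t + g t‖ ^ 2 ≤ (‖f t‖ + ‖g t‖) ^ 2 := pow_le_pow_left₀ (norm_nonneg _) h3 2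
    nlinarith [sq_nonneg (‖f t‖ - ‖g t‖)]
  calc w t * ‖f t + g t‖ ^ 2 ≤ w t * (2 * ‖f t‖ ^ 2 + 2 * ‖g t‖ ^ 2) :=
        mul_le_mul_of_nonneg_left h4 h0
    _ = 2 * (w t * ‖f t‖ ^ 2) + 2 * (w t * ‖g t‖ ^ 2) := by ring

theorem int_mul (w : ℝ → ℝ) (f : ℝ → ℂ) (c : ℂ) (h1 : Integrable (fun t => w t * ‖f t‖ ^ 2)) :
    Integrable (fun t => w t * ‖c * f t‖ ^ 2) := by
  have h2 := h1.const_mul (‖c‖ ^ 2)
  have e : (fun t => w t * ‖c * f t‖ ^ 2) = fun t => ‖c‖ ^ 2 * (w t * ‖f t‖ ^ 2) := by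
    funext t
    rw [norm_mul]
    ring
  rw [e]
  exact h2

theorem Fn_cont {f f' : ℝ → ℂ} (h : Fn f f') : Continuous f :=
  continuous_iff_continuousAt.2 fun t => (h.deriv t).continuousAt

theorem Fn_add {f f' g g' : ℝ → ℂ} (hf : Fn f f') (hg : Fn g g') :
    Fn (fun t => f t + g t) (fun t => f' t + g' t) where
  deriv t := (hf.deriv t).add (hg.deriv t)
  cont := hf.cont.add hg.cont
  i0 := by
    have h := int_add (fun _ => 1) continuous_const (fun _ => zero_le_one) f g (Fn_cont hf)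
      (Fn_cont hg) (by simpa using hf.i0) (by simpa using hg.i0)
    simpa using h
  i1 := by
    have h := int_add (fun _ => 1) continuous_const (fun _ => zero_le_one) f' g' hf.cont
      hg.cont (by simpa using hf.i1) (by simpa using hg.i1)
    simpa using h
  i2 := int_add (fun t => Real.exp (2 * t)) (by fun_prop) (fun t => (Real.exp_pos _).le) f g
    (Fn_cont hf) (Fn_cont hg) hf.i2 hg.i2

theorem Fn_mul {f f' : ℝ → ℂ} (hf : Fn f f') (c : ℂ) :
    Fn (fun t => c * f t) (fun t => c * f' t) where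
  deriv t := (hf.deriv t).const_mul c
  cont := continuous_const.mul hf.cont
  i0 := by
    have h := int_mul (fun _ => 1) f c (by simpa using hf.i0)
    simpa using h
  i1 := by
    have h := int_mul (fun _ => 1) f' c (by simpa using hf.i1)
    simpa using h
  i2 := int_mul (fun t => Real.exp (2 * t)) f c hf.i2

theorem Fn_zero : Fn (fun _ => 0) (fun _ => 0) where
  deriv t := hasDerivAt_const t 0
  cont := continuous_const
  i0 := by simp
  i1 := by simp
  i2 := by simp

theorem Fn_sum {ι : Type} (s : Finset ι) (ψ ψ' : ι → ℝ → ℂ) (c : ι → ℂ)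
    (h : ∀ j, Fn (ψ j) (ψ' j)) :
    Fn (fun t => ∑ j ∈ s, c j * ψ j t) (fun t => ∑ j ∈ s, c j * ψ' j t) := by
  classical
  induction s using Finset.induction_on with
  | empty => simpa using Fn_zero
  | insert a s ha ih =>
    have h1 := Fn_add (Fn_mul (h a) (c a)) ih
    simp only [Finset.sum_insert ha]
    exact h1

theorem int_prod {f f' g g' : ℝ → ℂ} (hf : Fn f f') (hg : Fn g g') :
    Integrable (fun t => star (f t) * g t) := by
  have hf1 := Fn_cont hf
  have hg1 := Fn_cont hg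
  refine Integrable.mono' (hf.i0.add hg.i0)
    (Continuous.aestronglyMeasurable (by fun_prop)) (Eventually.of_forall fun t => ?_)
  rw [norm_mul, norm_star]
  show ‖f t‖ * ‖g t‖ ≤ ‖f t‖ ^ 2 + ‖g t‖ ^ 2
  nlinarith [sq_nonneg (‖f t‖ - ‖g t‖), sq_nonneg (‖f t‖), sq_nonneg (‖g t‖)]

theorem int_conj (f g : ℝ → ℂ) :
    ∫ t, star (f t) * g t = star (∫ t, star (g t) * f t) := by
  have h1 : ∀ t, star (f t) * g t = star (star (g t) * f t) := by
    intro t
    rw [star_mul', star_star, mul_comm]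
  simp only [h1]
  exact integral_conj (f := fun t => star (g t) * f t) (μ := (volume : Measure ℝ)) (𝕜 := ℂ)

theorem self_prod (z : ℂ) : star z * z = ((‖z‖ ^ 2 : ℝ) : ℂ) := by
  rw [← Complex.normSq_eq_norm_sq, mul_comm]
  exact Complex.mul_conj _

theorem gs {ι : Type} [DecidableEq ι] (φ φ' : ι → ℝ → ℂ) (hφ : ∀ i, Fn (φ i) (φ' i))
    (s : Finset ι) :
    ∃ (m : ℕ) (ψ ψ' : Fin m → ℝ → ℂ) (c : ι → Fin m → ℂ), (∀ j, Fn (ψ j) (ψ' j)) ∧ Orth ψ ∧
      ∀ i ∈ s, ∀ t, φ i t = ∑ j, c i j * ψ j t ∧ φ' i t = ∑ j, c i j * ψ' j t := by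
  induction s using Finset.induction_on with
  | empty =>
    exact ⟨0, fun j => j.elim0, fun j => j.elim0, fun _ j => j.elim0, fun j => j.elim0,
      fun i => i.elim0, fun i hi => absurd hi (Finset.notMem_empty i)⟩
  | insert a s ha ih =>
    obtain ⟨m, ψ, ψ', c, hψ, ho, hc⟩ := ih
    have hS := Fn_sum Finset.univ ψ ψ' (fun j => -∫ t, star (ψ j t) * φ a t) hψ
    have hr := Fn_add (hφ a) hS
    obtain ⟨c0, hc0⟩ : ∃ c0 : Fin m → ℂ, c0 = fun j => ∫ t, star (ψ j t) * φ a t := ⟨_, rfl⟩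
    obtain ⟨r, hrd⟩ : ∃ r : ℝ → ℂ, r = fun t =>
      φ a t + ∑ j, (-∫ t, star (ψ j t) * φ a t) * ψ j t := ⟨_, rfl⟩
    obtain ⟨r', hrd'⟩ : ∃ r' : ℝ → ℂ, r' = fun t =>
      φ' a t + ∑ j, (-∫ t, star (ψ j t) * φ a t) * ψ' j t := ⟨_, rfl⟩
    rw [← hrd, ← hrd'] at hr
    have hφr : ∀ t, φ a t = r t + ∑ j, c0 j * ψ j t := by
      intro t
      rw [hrd, hc0]
      simp only [neg_mul, Finset.sum_neg_distrib]
      ring
    have hφr' : ∀ t, φ' a t = r' t + ∑ j, c0 j * ψ' j t := by
      intro t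
      rw [hrd', hc0]
      simp only [neg_mul, Finset.sum_neg_distrib]
      ring
    have horth : ∀ j, ∫ t, star (ψ j t) * r t = 0 := by
      intro j
      have e1 : ∀ t, star (ψ j t) * r t =
          star (ψ j t) * φ a t - ∑ k, c0 k * (star (ψ j t) * ψ k t) := by
        intro t
        rw [hφr t, mul_add, Finset.mul_sum]
        have : ∀ k, star (ψ j t) * (c0 k * ψ k t) = c0 k * (star (ψ j t) * ψ k t) := by
          intro k; ring
        simp only [this]
        ring
      simp only [e1]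
      rw [integral_sub (int_prod (hψ j) (hφ a))
        (integrable_finset_sum _ fun k _ => (int_prod (hψ j) (hψ k)).const_mul _),
        integral_finset_sum _ fun k _ => (int_prod (hψ j) (hψ k)).const_mul _]
      simp only [integral_const_mul, ho j, mul_ite, mul_one, mul_zero]
      rw [Finset.sum_ite_eq Finset.univ j, if_pos (Finset.mem_univ j), hc0]
      exact sub_self _
    have hM0 : 0 ≤ ∫ t, ‖r t‖ ^ 2 := integral_nonneg fun t => by positivity
    rcases hM0.eq_or_lt with hM | hM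
    · -- the new function is a combination of the old ones
      have h1 : (fun t => ‖r t‖ ^ 2) =ᵐ[volume] 0 :=
        (integral_eq_zero_iff_of_nonneg (fun t => by positivity) hr.i0).1 hM.symm
      have h2 : r =ᵐ[volume] fun _ => 0 := by
        filter_upwards [h1] with t ht
        have : ‖r t‖ ^ 2 = 0 := ht
        simpa using this
      have h3 : r = fun _ => 0 := (Continuous.ae_eq_iff_eq volume (Fn_cont hr) continuous_const).1 h2
      have h4 : ∀ t, r' t = 0 := by
        intro t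
        have h5 := hr.deriv t
        rw [h3] at h5
        exact h5.unique (hasDerivAt_const t 0)
      refine ⟨m, ψ, ψ', fun i => if i = a then c0 else c i, hψ, ho, ?_⟩
      intro i hi t
      by_cases hia : i = a
      · subst hia
        simp only [if_true]
        refine ⟨?_, ?_⟩
        · rw [hφr t, h3, zero_add]
        · rw [hφr' t, h4, zero_add]
      · simp only [if_neg hia]
        exact hc i ((Finset.mem_insert.1 hi).resolve_left hia) t
    · -- a new function
      obtain ⟨M, hMd⟩ : ∃ M : ℝ, M = ∫ t, ‖r t‖ ^ 2 := ⟨_, rfl⟩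
      rw [← hMd] at hM
      have hsM : (√M) ≠ 0 := (Real.sqrt_pos.2 hM).ne'
      have hsMc : ((√M : ℝ) : ℂ) ≠ 0 := by exact_mod_cast hsM
      have hv := Fn_mul hr (((√M : ℝ) : ℂ)⁻¹)
      obtain ⟨v, hvd⟩ : ∃ v : ℝ → ℂ, v = fun t => (((√M : ℝ) : ℂ)⁻¹) * r t := ⟨_, rfl⟩
      obtain ⟨v', hvd'⟩ : ∃ v' : ℝ → ℂ, v' = fun t => (((√M : ℝ) : ℂ)⁻¹) * r' t := ⟨_, rfl⟩
      rw [← hvd, ← hvd'] at hv
      have hv1 : ∀ j, ∫ t, star (ψ j t) * v t = 0 := by
        intro j
        have e1 : ∀ t, star (ψ j t) * v t = (((√M : ℝ) : ℂ)⁻¹) * (star (ψ j t) * r t) := by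
          intro t
          rw [hvd]
          ring
        simp only [e1]
        rw [integral_const_mul, horth j, mul_zero]
      have hv2 : ∀ j, ∫ t, star (v t) * ψ j t = 0 := by
        intro j
        rw [int_conj, hv1 j, star_zero]
      have hv3 : ∫ t, star (v t) * v t = 1 := by
        have e1 : ∀ t, star (v t) * v t = ((M⁻¹ * ‖r t‖ ^ 2 : ℝ) : ℂ) := by
          intro t
          rw [self_prod, hvd]
          congr 1
          rw [norm_mul, norm_inv, Complex.norm_real, Real.norm_eq_abs, mul_pow, inv_pow, sq_abs,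
            Real.sq_sqrt hM.le]
        simp only [e1]
        rw [integral_complex_ofReal, integral_const_mul, ← hMd, inv_mul_cancel₀ hM.ne']
        simp
      refine ⟨m + 1, Fin.snoc (α := fun _ => ℝ → ℂ) ψ v, Fin.snoc (α := fun _ => ℝ → ℂ) ψ' v',
        fun i => if i = a then Fin.snoc (α := fun _ => ℂ) c0 ((√M : ℝ) : ℂ)
          else Fin.snoc (α := fun _ => ℂ) (c i) 0, ?_, ?_, ?_⟩
      · intro j
        refine Fin.lastCases ?_ (fun j => ?_) j
        · rw [Fin.snoc_last, Fin.snoc_last]; exact hv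
        · rw [Fin.snoc_castSucc, Fin.snoc_castSucc]; exact hψ j
      · intro i j
        refine Fin.lastCases ?_ (fun i => ?_) i
        · refine Fin.lastCases ?_ (fun j => ?_) j
          · simp only [Fin.snoc_last, if_true]
            exact hv3
          · simp only [Fin.snoc_last, Fin.snoc_castSucc]
            rw [if_neg (Fin.castSucc_lt_last j).ne']
            exact hv2 j
        · refine Fin.lastCases ?_ (fun j => ?_) j
          · simp only [Fin.snoc_last, Fin.snoc_castSucc]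
            rw [if_neg (Fin.castSucc_lt_last i).ne]
            exact hv1 i
          · simp only [Fin.snoc_castSucc, Fin.castSucc_inj]
            exact ho i j
      · intro i hi t
        by_cases hia : i = a
        · subst hia
          simp only [if_true, Fin.sum_univ_castSucc, Fin.snoc_castSucc, Fin.snoc_last]
          have e2 : ((√M : ℝ) : ℂ) * v t = r t := by
            rw [hvd]
            show ((√M : ℝ) : ℂ) * ((((√M : ℝ) : ℂ)⁻¹) * r t) = r t
            rw [← mul_assoc, mul_inv_cancel₀ hsMc, one_mul]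
          have e3 : ((√M : ℝ) : ℂ) * v' t = r' t := by
            rw [hvd']
            show ((√M : ℝ) : ℂ) * ((((√M : ℝ) : ℂ)⁻¹) * r' t) = r' t
            rw [← mul_assoc, mul_inv_cancel₀ hsMc, one_mul]
          rw [e2, e3]
          refine ⟨?_, ?_⟩
          · rw [hφr t, add_comm]
          · rw [hφr' t, add_comm]
        · simp only [if_neg hia, Fin.sum_univ_castSucc, Fin.snoc_castSucc, Fin.snoc_last, zero_mul,
            add_zero]
          exact hc i ((Finset.mem_insert.1 hi).resolve_left hia) t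

theorem t_GS : S_GS := by
  classical
  intro ι _ φ φ' hφ
  obtain ⟨m, ψ, ψ', c, h1, h2, h3⟩ := gs φ φ' hφ Finset.univ
  exact ⟨m, ψ, ψ', c, h1, h2, fun i t => h3 i (Finset.mem_univ i) t⟩

end Pool.Agent.N537.RS.GS
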