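import Pool.Agent.N537.RS.Har
import Pool.Agent.Helper477.Sph.HarmInv

/-!
# Project RS, leaf HDIM: the dimension of the space of the harmonic polynomials (helper710)
-/

set_option autoImplicit false

namespace Pool.Agent.N537.RS

namespace HD

open MvPolynomial Pool.Agent.Helper477.HarmInv

lemma Lap_eq (d : ℕ) : Lap d = D d := rfl

/-- basis of monomials -/
noncomputable def basisHomog (N l : ℕ) :
    Module.Basis {d : Fin N →₀ ℕ | d.degree = l} ℝ (homogeneousSubmodule (Fin N) ℝ l) :=
  (basisRestrictSupport ℝ {d : Fin N →₀ ℕ | d.degree = l}).map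
    (LinearEquiv.ofEq _ _ (homogeneousSubmodule_eq_finsupp_supported (R := ℝ) (Fin N) l).symm)

/-- multi-indices of degree `l` -/
noncomputable def equivHomog (N l : ℕ) : Sym (Fin N) l ≃ {d : Fin N →₀ ℕ | d.degree = l} :=
  (Sym.equivNatSum (Fin N) l).trans (Equiv.subtypeEquivRight fun _ => Iff.rfl)

theorem finrank_homog (N l : ℕ) :
    Module.finrank ℝ (homogeneousSubmodule (Fin N) ℝ l) = Nat.multichoose N l := by
  rw [Module.finrank_eq_nat_card_basis (basisHomog N l), ← Nat.card_congr (equivHomog N l),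
    Nat.card_eq_fintype_card, Sym.card_sym_eq_multichoose, Fintype.card_fin]

theorem finrank_homog' (e l : ℕ) :
    Module.finrank ℝ (homogeneousSubmodule (Fin (e + 3)) ℝ l) = (l + e + 2).choose (e + 2) := by
  rw [finrank_homog, Nat.multichoose_eq]
  have h1 : e + 3 + l - 1 = l + e + 2 := by omega
  rw [h1]
  exact Nat.choose_symm_of_eq_add (by omega)

theorem hdim_eq (e l : ℕ) :
    hdim (e + 3) l = (l + e + 2).choose (e + 2) - (l + e).choose (e + 2) := by
  unfold hdim
  have h1 : l + (e + 3) - 1 = l + e + 2 := by omega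
  have h2 : e + 3 - 1 = e + 2 := by omega
  have h3 : l + (e + 3) - 3 = l + e := by omega
  rw [h1, h2, h3]

theorem choose_lt (e l : ℕ) : (l + e).choose (e + 2) < (l + e + 2).choose (e + 2) := by
  have h1 : (l + e + 2).choose (e + 2) = (l + e + 1).choose (e + 1) + (l + e + 1).choose (e + 2) :=
    Nat.choose_succ_succ _ _
  have h2 : (l + e).choose (e + 2) ≤ (l + e + 1).choose (e + 2) :=
    Nat.choose_le_choose _ (by omega)
  have h3 : 0 < (l + e + 1).choose (e + 1) := Nat.choose_pos (by omega)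
  omega

theorem t_HDIM : S_HDIM := by
  intro d hd l
  obtain ⟨e, rfl⟩ : ∃ e, d = e + 3 := ⟨d - 3, by omega⟩
  have hfin := finite_homogeneous (n := e + 3) l
  refine ⟨?_, ?_, ?_⟩
  · unfold Hpoly
    exact Submodule.finiteDimensional_of_le inf_le_left
  · have hS : ∀ k, Module.finrank ℝ ↥(homogeneousSubmodule (Fin (e + 3)) ℝ k ⊓
        LinearMap.ker (D (e + 3)) ⊓ (⊤ : Submodule ℝ (MvPolynomial (Fin (e + 3)) ℝ))) =
        Module.finrank ℝ (Hpoly (e + 3) k) := by
      intro k
      rw [inf_top_eq]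
      rfl
    have hT : ∀ k, Module.finrank ℝ ↥(homogeneousSubmodule (Fin (e + 3)) ℝ k ⊓
        (⊤ : Submodule ℝ (MvPolynomial (Fin (e + 3)) ℝ))) = (k + e + 2).choose (e + 2) := by
      intro k
      rw [inf_top_eq, finrank_homog']
    rw [hdim_eq, ← hS]
    by_cases hl : l < 2
    · rw [finrank_harmonic_low _ _ hl, hT, Nat.choose_eq_zero_of_lt (by omega : l + e < e + 2),
        Nat.sub_zero]
    · obtain ⟨m, rfl⟩ : ∃ m, l = m + 2 := ⟨l - 2, by omega⟩
      have h1 := finrank_harmonic (n := e + 3) (by omega)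
        (⊤ : Submodule ℝ (MvPolynomial (Fin (e + 3)) ℝ)) (fun _ _ => Submodule.mem_top)
        (fun _ _ => Submodule.mem_top) m
      rw [hT, hT] at h1
      have h2 : m + 2 + e = m + e + 2 := by omega
      rw [h2] at h1 ⊢
      omega
  · rw [hdim_eq]
    have := choose_lt e l
    omega

end HD

end Pool.Agent.N537.RS
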