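import Pool.Agent.N537.RS.Har

/-!
# Project RS (helper537), part HROT: rotations act on the harmonic polynomials
-/

set_option autoImplicit false

open MeasureTheory

namespace Pool.Agent.N537.RS

namespace HR

open MvPolynomial

noncomputable section

section alg

variable {d : ℕ} (a : Fin d → Fin d → ℝ)

/-- the linear form `∑_j a_ij x_j` -/
def lf (i : Fin d) : MvPolynomial (Fin d) ℝ := ∑ j, C (a i j) * X j

/-- the linear substitution `x_i ↦ ∑_j a_ij x_j` -/
def sub : MvPolynomial (Fin d) ℝ →ₐ[ℝ] MvPolynomial (Fin d) ℝ := aeval (lf a)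

theorem sub_X (i : Fin d) : sub a (X i) = lf a i := by
  unfold sub
  rw [aeval_X]

theorem sub_C (c : ℝ) : sub a (C c) = C c := by
  unfold sub
  rw [algHom_C]
  rfl

theorem eval_sub (x : Fin d → ℝ) (p : MvPolynomial (Fin d) ℝ) :
    eval x (sub a p) = eval (fun i => ∑ j, a i j * x j) p := by
  induction p using MvPolynomial.induction_on with
  | C c => rw [sub_C, eval_C, eval_C]
  | add p q hp hq => rw [map_add, map_add, map_add, hp, hq]
  | mul_X p i hp =>
    rw [map_mul, map_mul, map_mul, hp, sub_X, eval_X]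
    unfold lf
    rw [map_sum]
    simp only [map_mul, eval_C, eval_X]

theorem pderiv_lf (i j : Fin d) : pderiv j (lf a i) = C (a i j) := by
  unfold lf
  rw [map_sum, Finset.sum_eq_single j]
  · rw [pderiv_C_mul, pderiv_X_self, mul_one]
  · intro k _ hk
    rw [pderiv_C_mul, pderiv_X_of_ne hk, mul_zero]
  · intro h
    exact absurd (Finset.mem_univ _) h

theorem chain (j : Fin d) (p : MvPolynomial (Fin d) ℝ) :
    pderiv j (sub a p) = ∑ i, C (a i j) * sub a (pderiv i p) := by
  induction p using MvPolynomial.induction_on with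
  | C c =>
    rw [sub_C, pderiv_C]
    symm
    apply Finset.sum_eq_zero
    intro i _
    rw [pderiv_C, map_zero, mul_zero]
  | add p q hp hq =>
    rw [map_add, map_add, hp, hq, ← Finset.sum_add_distrib]
    refine Finset.sum_congr rfl fun i _ => ?_
    rw [map_add, map_add, mul_add]
  | mul_X p n hp =>
    rw [map_mul, sub_X, Derivation.leibniz, hp, pderiv_lf]
    have h1 : ∀ i, C (a i j) * sub a (pderiv i (p * X n)) =
        lf a n * (C (a i j) * sub a (pderiv i p)) +
          sub a p * (C (a i j) * sub a (pderiv i (X n))) := by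
      intro i
      rw [Derivation.leibniz, map_add, smul_eq_mul, smul_eq_mul, map_mul, map_mul, sub_X]
      ring
    rw [Finset.sum_congr rfl fun i _ => h1 i, Finset.sum_add_distrib, ← Finset.mul_sum,
      ← Finset.mul_sum, smul_eq_mul, smul_eq_mul, add_comm]
    congr 2
    rw [Finset.sum_eq_single n]
    · rw [pderiv_X_self, map_one, mul_one]
    · intro k _ hk
      rw [pderiv_X_of_ne hk.symm, map_zero, mul_zero]
    · intro h
      exact absurd (Finset.mem_univ _) h

theorem lap_sub (ha : ∀ i k, ∑ j, a i j * a k j = if i = k then 1 else 0)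
    (p : MvPolynomial (Fin d) ℝ) : Lap d (sub a p) = sub a (Lap d p) := by
  have h0 : ∀ p : MvPolynomial (Fin d) ℝ, Lap d p = ∑ i, pderiv i (pderiv i p) := by
    intro p
    unfold Lap
    rw [LinearMap.sum_apply]
    rfl
  rw [h0, h0, map_sum]
  have h1 : ∀ j, pderiv j (pderiv j (sub a p)) =
      ∑ i, ∑ k, C (a i j * a k j) * sub a (pderiv k (pderiv i p)) := by
    intro j
    rw [chain, map_sum]
    refine Finset.sum_congr rfl fun i _ => ?_
    rw [pderiv_C_mul, chain, Finset.mul_sum]
    refine Finset.sum_congr rfl fun k _ => ?_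
    rw [← mul_assoc, ← map_mul]
  rw [Finset.sum_congr rfl fun j _ => h1 j, Finset.sum_comm]
  refine Finset.sum_congr rfl fun i _ => ?_
  rw [Finset.sum_comm]
  have h2 : ∀ k, ∑ j, C (a i j * a k j) * sub a (pderiv k (pderiv i p)) =
      (if i = k then 1 else 0) * sub a (pderiv k (pderiv i p)) := by
    intro k
    rw [← Finset.sum_mul, ← map_sum, ha]
    split_ifs
    · rw [map_one]
    · rw [map_zero]
  rw [Finset.sum_congr rfl fun k _ => h2 k]
  simp only [ite_mul, one_mul, zero_mul, Finset.sum_ite_eq, Finset.mem_univ, if_true]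

theorem hom_sub {l : ℕ} {p : MvPolynomial (Fin d) ℝ} (hp : p.IsHomogeneous l) :
    (sub a p).IsHomogeneous l := by
  have h := hp.aeval (lf a) (n := 1) fun i => by
    unfold lf
    refine IsHomogeneous.sum _ _ _ fun j _ => ?_
    have := (isHomogeneous_C (Fin d) (a i j)).mul (isHomogeneous_X ℝ j)
    rwa [zero_add] at this
  rw [one_mul] at h
  exact h

end alg

open Pool.Agent.R117.RL

theorem t_HROT : S_HROT := by
  intro d l A p hp
  let a : Fin d → Fin d → ℝ := fun i j => (A (EuclideanSpace.single j (1 : ℝ))) i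
  have hs : ∀ i j, (A.symm (EuclideanSpace.single i (1 : ℝ))) j = a i j := by
    intro i j
    have h1 : inner ℝ (EuclideanSpace.single j (1 : ℝ)) (A.symm (EuclideanSpace.single i (1 : ℝ)))
        = inner ℝ (A (EuclideanSpace.single j (1 : ℝ))) (EuclideanSpace.single i (1 : ℝ)) := by
      rw [← A.inner_map_map, A.apply_symm_apply]
    simp only [EuclideanSpace.inner_single_left, EuclideanSpace.inner_single_right, map_one,
      one_mul, conj_trivial] at h1
    exact h1
  have ha : ∀ i k, ∑ j, a i j * a k j = if i = k then 1 else 0 := by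
    intro i k
    have h1 : inner ℝ (A.symm (EuclideanSpace.single i (1 : ℝ)))
        (A.symm (EuclideanSpace.single k (1 : ℝ))) =
        inner ℝ (EuclideanSpace.single i (1 : ℝ)) (EuclideanSpace.single k (1 : ℝ)) :=
      A.symm.inner_map_map _ _
    have h2 : inner ℝ (A.symm (EuclideanSpace.single i (1 : ℝ)))
        (A.symm (EuclideanSpace.single k (1 : ℝ))) = ∑ j, a i j * a k j := by
      rw [PiLp.inner_apply]
      refine Finset.sum_congr rfl fun j _ => ?_
      rw [hs, hs, RCLike.inner_apply, conj_trivial, mul_comm]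
    rw [← h2, h1, EuclideanSpace.inner_single_left, map_one, one_mul,
      EuclideanSpace.single_apply]
  have hx : ∀ (x : E d) (i : Fin d), (A x) i = ∑ j, a i j * x j := by
    intro x i
    have h1 : inner ℝ (A.symm (EuclideanSpace.single i (1 : ℝ))) x =
        inner ℝ (EuclideanSpace.single i (1 : ℝ)) (A x) := by
      rw [← A.inner_map_map, A.apply_symm_apply]
    rw [EuclideanSpace.inner_single_left, map_one, one_mul, PiLp.inner_apply] at h1
    rw [← h1]
    refine Finset.sum_congr rfl fun j _ => ?_
    rw [hs, RCLike.inner_apply, conj_trivial, mul_comm]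
  obtain ⟨h1, h2⟩ := hp
  refine ⟨sub a p, ⟨?_, ?_⟩, ?_⟩
  · exact hom_sub a h1
  · change Lap d (sub a p) = 0
    rw [lap_sub a ha, show Lap d p = 0 from h2, map_zero]
  · intro x
    rw [eval_sub]
    congr 2
    funext i
    exact (hx x i).symm

end

end HR

end Pool.Agent.N537.RS
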