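import Pool.Agent.N537.RS.Har

/-!
# Project RS, leaf HSH: full multiplets for every angular momentum
-/

set_option autoImplicit false

open MeasureTheory MvPolynomial Pool.Agent.R117.RL

namespace Pool.Agent.N537.RS

namespace HS

/-! ### an inner product on a finite dimensional space -/

theorem gen {H : Type} [AddCommGroup H] [Module ℝ H] [FiniteDimensional ℝ H] (B : H → H → ℝ)
    (hs : ∀ x y, B y x = B x y) (hadd : ∀ x y z, B (x + y) z = B x z + B y z)
    (hsm : ∀ (r : ℝ) x y, B (r • x) y = r * B x y) (hn : ∀ x, 0 ≤ B x x)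
    (hd : ∀ x, B x x = 0 → x = 0) (hpos : 0 < Module.finrank ℝ H) :
    ∃ e : Fin (Module.finrank ℝ H) → H, (∀ i j, B (e i) (e j) = if i = j then 1 else 0) ∧
      ∀ f : Fin (Module.finrank ℝ H) → H, (∀ i j, B (f i) (f j) = if i = j then 1 else 0) →
      ∀ L : H →ₗ[ℝ] ℝ, ∑ j, L (f j) ^ 2 = ∑ j, L (e j) ^ 2 := by
  let core : InnerProductSpace.Core ℝ H :=
    { inner := B
      conj_inner_symm := fun x y => hs x y
      re_inner_nonneg := fun x => hn x
      add_left := hadd
      smul_left := fun x y r => hsm r x y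
      definite := hd }
  let i1 : NormedAddCommGroup H := @InnerProductSpace.Core.toNormedAddCommGroup ℝ H _ _ _ core
  let i2 : InnerProductSpace ℝ H := InnerProductSpace.ofCore core.toCore
  have hin : ∀ x y : H, inner ℝ x y = B x y := fun x y => rfl
  have hne : Nonempty (Fin (Module.finrank ℝ H)) := ⟨⟨0, hpos⟩⟩
  refine ⟨stdOrthonormalBasis ℝ H, ?_, ?_⟩
  · intro i j
    rw [← hin]
    exact (orthonormal_iff_ite.1 (stdOrthonormalBasis ℝ H).orthonormal) i j
  · intro f hf L
    have hfo : Orthonormal ℝ f := by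
      rw [orthonormal_iff_ite]
      intro i j
      rw [hin]
      exact hf i j
    let b := (basisOfOrthonormalOfCardEqFinrank hfo (Fintype.card_fin _)).toOrthonormalBasis
      (by rw [coe_basisOfOrthonormalOfCardEqFinrank]; exact hfo)
    have hb : ∀ i, b i = f i := by
      intro i
      simp [b]
    have h1 := b.norm_dual (LinearMap.toContinuousLinearMap L)
    have h2 := (stdOrthonormalBasis ℝ H).norm_dual (LinearMap.toContinuousLinearMap L)
    rw [h1] at h2
    simp only [LinearMap.coe_toContinuousLinearMap', hb] at h2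
    exact h2

/-! ### polynomial functions -/

variable {d : ℕ}

noncomputable def evl (p : MvPolynomial (Fin d) ℝ) (x : E d) : ℝ :=
  MvPolynomial.eval (fun i => x i) p

theorem evl_add (p q : MvPolynomial (Fin d) ℝ) (x : E d) :
    evl (p + q) x = evl p x + evl q x := map_add _ _ _

theorem evl_mul (p q : MvPolynomial (Fin d) ℝ) (x : E d) :
    evl (p * q) x = evl p x * evl q x := map_mul _ _ _

theorem evl_smul (c : ℝ) (p : MvPolynomial (Fin d) ℝ) (x : E d) :
    evl (c • p) x = c * evl p x := MvPolynomial.smul_eval _ _ _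

theorem evl_pow (p : MvPolynomial (Fin d) ℝ) (n : ℕ) (x : E d) :
    evl (p ^ n) x = evl p x ^ n := map_pow _ _ _

theorem evl_sum {ι : Type} (s : Finset ι) (p : ι → MvPolynomial (Fin d) ℝ) (x : E d) :
    evl (∑ j ∈ s, p j) x = ∑ j ∈ s, evl (p j) x := map_sum _ _ _

theorem evl_ext {p q : MvPolynomial (Fin d) ℝ} (h : ∀ x : E d, evl p x = evl q x) : p = q :=
  MvPolynomial.funext fun y => h (WithLp.toLp 2 y)

theorem evl_contDiff (p : MvPolynomial (Fin d) ℝ) : ContDiff ℝ 1 (evl p : E d → ℝ) := by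
  induction p using MvPolynomial.induction_on with
  | C a =>
    have : (evl (C a) : E d → ℝ) = fun _ => a := by
      funext x
      simp [evl]
    rw [this]
    exact contDiff_const
  | add p q hp hq =>
    have : (evl (p + q) : E d → ℝ) = fun x => evl p x + evl q x := funext fun x => evl_add p q x
    rw [this]
    exact hp.add hq
  | mul_X p n hp =>
    have : (evl (p * X n) : E d → ℝ) =
        fun x => evl p x * (EuclideanSpace.proj n : E d →L[ℝ] ℝ) x := by
      funext x
      simp [evl]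
    rw [this]
    exact hp.mul (EuclideanSpace.proj n : E d →L[ℝ] ℝ).contDiff

theorem evl_fd (p : MvPolynomial (Fin d) ℝ) (x : E d) : HasFDerivAt (evl p)
    (∑ i, evl (pderiv i p) x • (EuclideanSpace.proj i : E d →L[ℝ] ℝ)) x := by
  induction p using MvPolynomial.induction_on with
  | C a =>
    have h1 : (evl (C a) : E d → ℝ) = fun _ => a := by
      funext x
      simp [evl]
    have h2 : ∑ i, evl (pderiv i (C a)) x • (EuclideanSpace.proj i : E d →L[ℝ] ℝ) = 0 := by
      apply Finset.sum_eq_zero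
      intro i _
      simp [evl]
    rw [h1, h2]
    exact hasFDerivAt_const a x
  | add p q hp hq =>
    have h1 : (evl (p + q) : E d → ℝ) = fun x => evl p x + evl q x := funext fun x => evl_add p q x
    have h2 : ∑ i, evl (pderiv i (p + q)) x • (EuclideanSpace.proj i : E d →L[ℝ] ℝ) =
        ∑ i, evl (pderiv i p) x • (EuclideanSpace.proj i : E d →L[ℝ] ℝ) +
          ∑ i, evl (pderiv i q) x • (EuclideanSpace.proj i : E d →L[ℝ] ℝ) := by
      rw [← Finset.sum_add_distrib]
      refine Finset.sum_congr rfl fun i _ => ?_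
      rw [map_add, evl_add, add_smul]
    rw [h1, h2]
    exact hp.add hq
  | mul_X p n hp =>
    have h1 : (evl (p * X n) : E d → ℝ) =
        fun x => evl p x * (EuclideanSpace.proj n : E d →L[ℝ] ℝ) x := by
      funext x
      simp [evl]
    have h2 : ∑ i, evl (pderiv i (p * X n)) x • (EuclideanSpace.proj i : E d →L[ℝ] ℝ) =
        evl p x • (EuclideanSpace.proj n : E d →L[ℝ] ℝ) +
          (EuclideanSpace.proj n : E d →L[ℝ] ℝ) x •
            ∑ i, evl (pderiv i p) x • (EuclideanSpace.proj i : E d →L[ℝ] ℝ) := by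
      have h3 : ∀ i, evl (pderiv i (p * X n)) x • (EuclideanSpace.proj i : E d →L[ℝ] ℝ) =
          (if i = n then evl p x • (EuclideanSpace.proj n : E d →L[ℝ] ℝ) else 0) +
          (EuclideanSpace.proj n : E d →L[ℝ] ℝ) x •
            (evl (pderiv i p) x • (EuclideanSpace.proj i : E d →L[ℝ] ℝ)) := by
        intro i
        rw [pderiv_mul, evl_add, evl_mul, evl_mul]
        have h4 : evl (X n : MvPolynomial (Fin d) ℝ) x =
            (EuclideanSpace.proj n : E d →L[ℝ] ℝ) x := by simp [evl]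
        rw [h4]
        by_cases hin : i = n
        · subst hin
          rw [if_pos rfl, pderiv_X_self]
          have h5 : evl (1 : MvPolynomial (Fin d) ℝ) x = 1 := by simp [evl]
          rw [h5, mul_one, add_smul, add_comm, mul_comm, mul_smul]
        · rw [if_neg hin, pderiv_X_of_ne (fun h => hin h.symm)]
          have h5 : evl (0 : MvPolynomial (Fin d) ℝ) x = 0 := by simp [evl]
          rw [h5, mul_zero, add_zero, zero_add, mul_comm, mul_smul]
      simp only [h3]
      rw [Finset.sum_add_distrib, Finset.sum_ite_eq' Finset.univ n, if_pos (Finset.mem_univ _),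
        Finset.smul_sum]
    rw [h1, h2]
    exact hp.mul (EuclideanSpace.proj n : E d →L[ℝ] ℝ).hasFDerivAt

theorem evl_single (p : MvPolynomial (Fin d) ℝ) (x : E d) (i : Fin d) :
    fderiv ℝ (evl p) x (EuclideanSpace.single i 1) = evl (pderiv i p) x := by
  rw [(evl_fd p x).fderiv, ContinuousLinearMap.sum_apply, Finset.sum_eq_single i]
  · simp
  · intro j _ hj
    simp [hj]
  · intro h
    exact absurd (Finset.mem_univ i) h

theorem evl_euler {p : MvPolynomial (Fin d) ℝ} {l : ℕ} (hp : p.IsHomogeneous l) (x : E d) :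
    fderiv ℝ (evl p) x x = l * evl p x := by
  rw [(evl_fd p x).fderiv, ContinuousLinearMap.sum_apply]
  have h1 := congrArg (fun q => evl q x) hp.sum_X_mul_pderiv
  simp only [evl_sum, evl_mul] at h1
  have h2 : evl (l • p) x = l * evl p x := by
    rw [nsmul_eq_mul, evl_mul]
    simp [evl]
  rw [h2] at h1
  rw [← h1]
  refine Finset.sum_congr rfl fun i _ => ?_
  have h4 : evl (X i : MvPolynomial (Fin d) ℝ) x = x i := by simp [evl]
  rw [h4, ContinuousLinearMap.smul_apply, smul_eq_mul, mul_comm]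
  rfl

theorem evl_scale {p : MvPolynomial (Fin d) ℝ} {l : ℕ} (hp : p.IsHomogeneous l) (c : ℝ)
    (x : E d) : evl p (c • x) = c ^ l * evl p x := by
  unfold evl
  rw [eval_eq', eval_eq', Finset.mul_sum]
  refine Finset.sum_congr rfl fun m hm => ?_
  have hdeg : ∑ i, m i = l := by
    have h1 := hp (mem_support_iff.1 hm)
    rw [Finsupp.weight_apply, Finsupp.sum_fintype _ _ (fun i => by simp)] at h1
    simpa using h1
  have h2 : ∏ i, (c • x) i ^ m i = c ^ l * ∏ i, x i ^ m i := by
    rw [← hdeg, ← Finset.prod_pow_eq_pow_sum, ← Finset.prod_mul_distrib]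
    refine Finset.prod_congr rfl fun i _ => ?_
    rw [← mul_pow]
    rfl
  rw [h2]
  ring

/-! ### the inner product -/

noncomputable def BB (p q : MvPolynomial (Fin d) ℝ) : ℝ :=
  ∫ x in Metric.closedBall (0 : E d) 1, evl p x * evl q x

theorem BB_int (p q : MvPolynomial (Fin d) ℝ) :
    IntegrableOn (fun x : E d => evl p x * evl q x) (Metric.closedBall (0 : E d) 1) :=
  ((evl_contDiff p).continuous.mul (evl_contDiff q).continuous).continuousOn.integrableOn_compact
    (isCompact_closedBall 0 1)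

theorem BB_definite {l : ℕ} {p : MvPolynomial (Fin d) ℝ} (hp : p.IsHomogeneous l)
    (h : BB p p = 0) : p = 0 := by
  have h1 : (fun x : E d => evl p x * evl p x) =ᵐ[volume.restrict (Metric.closedBall (0 : E d) 1)]
      0 := by
    refine (setIntegral_eq_zero_iff_of_nonneg_ae (ae_of_all _ fun x => mul_self_nonneg _)
      (BB_int p p)).1 h
  have h2 : (fun x : E d => evl p x * evl p x) =ᵐ[volume.restrict (Metric.ball (0 : E d) 1)]
      0 := ae_restrict_of_ae_restrict_of_subset Metric.ball_subset_closedBall h1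
  have h3 := Measure.eqOn_open_of_ae_eq h2 Metric.isOpen_ball
    ((evl_contDiff p).continuous.mul (evl_contDiff p).continuous).continuousOn
    continuousOn_const
  have h4 : ∀ y ∈ Metric.ball (0 : E d) 1, evl p y = 0 := fun y hy => mul_self_eq_zero.1 (h3 hy)
  refine evl_ext fun x => ?_
  have h0 : evl (0 : MvPolynomial (Fin d) ℝ) x = 0 := by simp [evl]
  rw [h0]
  have hc : (0 : ℝ) < ‖x‖ + 1 := by positivity
  have h5 : x = (‖x‖ + 1) • ((‖x‖ + 1)⁻¹ • x) := by
    rw [smul_smul, mul_inv_cancel₀ hc.ne', one_smul]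
  rw [h5, evl_scale hp, h4, mul_zero]
  rw [mem_ball_zero_iff, norm_smul, norm_inv, Real.norm_of_nonneg hc.le, inv_mul_lt_iff₀ hc]
  linarith

theorem BB_rot (A : E d ≃ₗᵢ[ℝ] E d) {p q p' q' : MvPolynomial (Fin d) ℝ}
    (h : ∀ x, evl p' x = evl p (A x)) (h' : ∀ x, evl q' x = evl q (A x)) :
    BB p' q' = BB p q := by
  have h1 := A.measurePreserving.setIntegral_preimage_emb
    A.toHomeomorph.measurableEmbedding (fun x => evl p x * evl q x) (Metric.closedBall (0 : E d) 1)
  have h2 : A ⁻¹' Metric.closedBall (0 : E d) 1 = Metric.closedBall (0 : E d) 1 := by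
    ext x
    simp
  rw [h2] at h1
  unfold BB
  rw [← h1]
  simp only [h, h']

/-! ### the gradient identity -/

theorem Lap_apply (p : MvPolynomial (Fin d) ℝ) : Lap d p = ∑ i, pderiv i (pderiv i p) := by
  unfold Lap
  rw [LinearMap.sum_apply]
  rfl

theorem Lap_sq (p : MvPolynomial (Fin d) ℝ) :
    Lap d (p ^ 2) = 2 * ∑ i, pderiv i p ^ 2 + 2 * p * Lap d p := by
  rw [Lap_apply, Lap_apply, Finset.mul_sum, Finset.mul_sum, ← Finset.sum_add_distrib]
  refine Finset.sum_congr rfl fun i _ => ?_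
  rw [pow_two, pderiv_mul, map_add, pderiv_mul, pderiv_mul]
  ring

/-- the sum of the squares of the variables -/
noncomputable def RR (d : ℕ) : MvPolynomial (Fin d) ℝ := ∑ i, X i ^ 2

theorem pderiv_RR (i : Fin d) : pderiv i (RR d) = 2 * X i := by
  unfold RR
  rw [map_sum, Finset.sum_eq_single i]
  · rw [pow_two, pderiv_mul, pderiv_X_self]
    ring
  · intro j _ hj
    rw [pow_two, pderiv_mul, pderiv_X_of_ne hj]
    ring
  · intro h
    exact absurd (Finset.mem_univ i) h

theorem RR_hom (m : ℕ) : (RR d ^ m).IsHomogeneous (2 * m) := by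
  have h1 : (RR d).IsHomogeneous 2 := by
    unfold RR
    refine IsHomogeneous.sum _ _ _ fun i _ => ?_
    exact (isHomogeneous_X ℝ i).pow 2
  exact h1.pow m

theorem Lap_RR (m : ℕ) : Lap d (RR d ^ (m + 1)) =
    C (2 * ((m : ℝ) + 1) * (2 * m + d)) * RR d ^ m := by
  have h1 : ∀ i : Fin d, pderiv i (RR d ^ (m + 1)) =
      C (2 * ((m : ℝ) + 1)) * (RR d ^ m * X i) := by
    intro i
    have h3 : (C (2 * ((m : ℝ) + 1)) : MvPolynomial (Fin d) ℝ) = 2 * ((m : MvPolynomial (Fin d) ℝ) + 1) := by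
      rw [C_mul, C_add, C_1, map_natCast]
      rfl
    rw [h3, Derivation.leibniz_pow, pderiv_RR, Nat.add_sub_cancel, smul_eq_mul, nsmul_eq_mul]
    push_cast
    ring
  have h2 : ∀ i : Fin d, pderiv i (pderiv i (RR d ^ (m + 1))) =
      C (2 * ((m : ℝ) + 1)) * (X i * pderiv i (RR d ^ m)) +
        C (2 * ((m : ℝ) + 1)) * RR d ^ m := by
    intro i
    rw [h1, pderiv_C_mul, pderiv_mul, pderiv_X_self]
    ring
  rw [Lap_apply]
  simp only [h2]
  rw [Finset.sum_add_distrib, ← Finset.mul_sum, (RR_hom m).sum_X_mul_pderiv, Finset.sum_const,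
    Finset.card_univ, Fintype.card_fin, nsmul_eq_mul, nsmul_eq_mul]
  have h4 : (((2 * m : ℕ)) : MvPolynomial (Fin d) ℝ) = C (2 * (m : ℝ)) := by
    rw [← map_natCast (C : ℝ →+* MvPolynomial (Fin d) ℝ)]
    push_cast
    rfl
  have h5 : ((d : ℕ) : MvPolynomial (Fin d) ℝ) = C (d : ℝ) := by
    rw [← map_natCast (C : ℝ →+* MvPolynomial (Fin d) ℝ)]
  rw [h4, h5, C_mul (a := 2 * ((m : ℝ) + 1)) (a' := 2 * (m : ℝ) + d), C_add]
  ring

theorem evl_RR (x : E d) : evl (RR d) x = ‖x‖ ^ 2 := by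
  unfold RR
  rw [evl_sum, EuclideanSpace.norm_sq_eq]
  refine Finset.sum_congr rfl fun i _ => ?_
  rw [evl_pow, Real.norm_eq_abs, sq_abs]
  simp [evl]

theorem grad {n l : ℕ} (p : Fin n → MvPolynomial (Fin d) ℝ) (hL : ∀ j, Lap d (p j) = 0)
    (hsq : ∀ x : E d, ∑ j, evl (p j) x ^ 2 = ‖x‖ ^ (2 * l)) (x : E d) :
    ∑ j, ∑ i, evl (pderiv i (p j)) x ^ 2 = l * (2 * l + d - 2) * ‖x‖ ^ (2 * l - 2) := by
  have h1 : ∑ j, p j ^ 2 = RR d ^ l := by
    refine evl_ext fun x => ?_
    rw [evl_sum, evl_pow, evl_RR, ← pow_mul, ← hsq]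
    refine Finset.sum_congr rfl fun j _ => ?_
    rw [evl_pow]
  have h2 := congrArg (fun q => evl (Lap d q) x) h1
  simp only [map_sum, Lap_sq, hL, mul_zero, add_zero] at h2
  have h3 : evl (∑ j, 2 * ∑ i, pderiv i (p j) ^ 2) x =
      2 * ∑ j, ∑ i, evl (pderiv i (p j)) x ^ 2 := by
    rw [evl_sum, Finset.mul_sum]
    refine Finset.sum_congr rfl fun j _ => ?_
    rw [evl_mul, evl_sum]
    have h4 : evl (2 : MvPolynomial (Fin d) ℝ) x = 2 := by simp [evl]
    rw [h4]
    congr 1
    refine Finset.sum_congr rfl fun i _ => ?_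
    rw [evl_pow]
  rw [h3] at h2
  cases l with
  | zero =>
    have h5 : Lap d (RR d ^ 0) = 0 := by
      rw [Lap_apply]
      apply Finset.sum_eq_zero
      intro i _
      simp
    rw [h5] at h2
    have h6 : evl (0 : MvPolynomial (Fin d) ℝ) x = 0 := by simp [evl]
    rw [h6] at h2
    push_cast
    linarith
  | succ m =>
    rw [Lap_RR, evl_mul, evl_pow, evl_RR, ← pow_mul] at h2
    have h6 : evl (C (2 * ((m : ℝ) + 1) * (2 * m + d)) : MvPolynomial (Fin d) ℝ) x =
        2 * ((m : ℝ) + 1) * (2 * m + d) := MvPolynomial.eval_C _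
    rw [h6] at h2
    have h7 : 2 * (m + 1) - 2 = 2 * m := by omega
    rw [h7]
    push_cast
    linarith

end HS

open HS

theorem t_HSH (h1 : S_HDIM) (h2 : S_HROT) : S_HSH := by
  intro d hd l
  obtain ⟨hfd, hfr, hpos⟩ := h1 d hd l
  rw [← hfr] at hpos ⊢
  have hhom : ∀ p : Hpoly d l, (p : MvPolynomial (Fin d) ℝ).IsHomogeneous l := fun p =>
    (MvPolynomial.mem_homogeneousSubmodule _ _).1 p.2.1
  have hlap : ∀ p : Hpoly d l, Lap d (p : MvPolynomial (Fin d) ℝ) = 0 := fun p =>
    LinearMap.mem_ker.1 p.2.2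
  obtain ⟨e, he, hK⟩ := gen (H := Hpoly d l) (fun p q => BB (p : MvPolynomial (Fin d) ℝ) q)
    (fun p q => by
      unfold BB
      simp only [mul_comm])
    (fun p q r => by
      unfold BB
      rw [← integral_add (BB_int _ _) (BB_int _ _)]
      congr 1
      funext x
      have : evl ((p + q : Hpoly d l) : MvPolynomial (Fin d) ℝ) x =
        evl (p : MvPolynomial (Fin d) ℝ) x + evl (q : MvPolynomial (Fin d) ℝ) x := evl_add _ _ x
      rw [this, add_mul])
    (fun c p q => by
      unfold BB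
      rw [← integral_const_mul]
      congr 1
      funext x
      have : evl ((c • p : Hpoly d l) : MvPolynomial (Fin d) ℝ) x =
        c * evl (p : MvPolynomial (Fin d) ℝ) x := evl_smul _ _ x
      rw [this, mul_assoc])
    (fun p => by
      unfold BB
      exact integral_nonneg fun x => mul_self_nonneg _)
    (fun p hp => Subtype.ext (BB_definite (hhom p) hp)) hpos
  let Lx : E d → Hpoly d l →ₗ[ℝ] ℝ := fun x =>
    { toFun := fun p => evl (p : MvPolynomial (Fin d) ℝ) x
      map_add' := fun p q => evl_add _ _ x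
      map_smul' := fun c p => evl_smul _ _ x }
  obtain ⟨K, hKd⟩ : ∃ K : E d → ℝ, ∀ x, K x = ∑ j, evl (e j : MvPolynomial (Fin d) ℝ) x ^ 2 :=
    ⟨_, fun _ => rfl⟩
  have hrot : ∀ (A : E d ≃ₗᵢ[ℝ] E d) (x : E d), K (A x) = K x := by
    intro A x
    have hex : ∀ j, ∃ q : Hpoly d l, ∀ x : E d, evl (q : MvPolynomial (Fin d) ℝ) x =
        evl (e j : MvPolynomial (Fin d) ℝ) (A x) := by
      intro j
      obtain ⟨q, hq, hq2⟩ := h2 d l A (e j) (e j).2
      exact ⟨⟨q, hq⟩, hq2⟩
    choose f hf using hex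
    have h3 := hK f (fun i j => by
      rw [← he i j]
      exact BB_rot A (hf i) (hf j)) (Lx x)
    have h4 : ∑ j, evl (f j : MvPolynomial (Fin d) ℝ) x ^ 2 =
        ∑ j, evl (e j : MvPolynomial (Fin d) ℝ) x ^ 2 := h3
    rw [hKd, hKd, ← h4]
    refine Finset.sum_congr rfl fun j _ => ?_
    rw [hf]
  have hrad : ∀ x y : E d, ‖x‖ = ‖y‖ → K x = K y := by
    intro x y hxy
    have h3 := hrot (Submodule.reflection (ℝ ∙ (x - y))ᗮ) x
    rw [Submodule.reflection_sub hxy] at h3
    exact h3.symm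
  have hsc : ∀ (c : ℝ) (x : E d), K (c • x) = c ^ (2 * l) * K x := by
    intro c x
    rw [hKd, hKd, Finset.mul_sum]
    refine Finset.sum_congr rfl fun j _ => ?_
    rw [evl_scale (hhom _)]
    ring
  obtain ⟨u₀, hu₀⟩ : ∃ u : E d, ‖u‖ = 1 :=
    ⟨EuclideanSpace.single ⟨0, by omega⟩ 1, by simp⟩
  obtain ⟨c, hc⟩ : ∃ c, c = K u₀ := ⟨_, rfl⟩
  have hKx : ∀ x, K x = c * ‖x‖ ^ (2 * l) := by
    intro x
    obtain ⟨u, hu1, hu2⟩ : ∃ u : E d, ‖u‖ = 1 ∧ x = ‖x‖ • u := by
      by_cases hx : x = 0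
      · exact ⟨u₀, hu₀, by rw [hx, norm_zero, zero_smul]⟩
      · refine ⟨‖x‖⁻¹ • x, ?_, ?_⟩
        · rw [norm_smul, norm_inv, norm_norm, inv_mul_cancel₀ (norm_ne_zero_iff.2 hx)]
        · rw [smul_smul, mul_inv_cancel₀ (norm_ne_zero_iff.2 hx), one_smul]
    have h3 : K x = K (‖x‖ • u) := by rw [← hu2]
    rw [h3, hsc, hc, hrad u u₀ (hu1.trans hu₀.symm), mul_comm]
  have hc0 : 0 < c := by
    by_contra hcon
    push Not at hcon
    have h3 : ∀ x, K x ≤ 0 := by
      intro x
      rw [hKx]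
      exact mul_nonpos_of_nonpos_of_nonneg hcon (by positivity)
    have h4 : (e ⟨0, hpos⟩ : MvPolynomial (Fin d) ℝ) = 0 := by
      refine evl_ext fun x => ?_
      have h5 : evl (0 : MvPolynomial (Fin d) ℝ) x = 0 := by simp [evl]
      rw [h5]
      have h6 : evl (e ⟨0, hpos⟩ : MvPolynomial (Fin d) ℝ) x ^ 2 ≤ K x := by
        rw [hKd]
        exact Finset.single_le_sum (f := fun j => evl (e j : MvPolynomial (Fin d) ℝ) x ^ 2)
          (fun j _ => sq_nonneg _) (Finset.mem_univ (⟨0, hpos⟩ : Fin _))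
      exact pow_eq_zero_iff two_ne_zero |>.1 (le_antisymm (h6.trans (h3 x)) (sq_nonneg _))
    have h7 := he ⟨0, hpos⟩ ⟨0, hpos⟩
    rw [if_pos rfl] at h7
    have h8 : BB (e ⟨0, hpos⟩ : MvPolynomial (Fin d) ℝ) (e ⟨0, hpos⟩ : MvPolynomial (Fin d) ℝ) =
        0 := by
      rw [h4]
      unfold BB
      simp [evl]
    have h9 : (1 : ℝ) = 0 := h7.symm.trans h8
    exact one_ne_zero h9
  have hsc0 : 0 < √c := Real.sqrt_pos.2 hc0
  obtain ⟨p, hp⟩ : ∃ p : Fin (Module.finrank ℝ (Hpoly d l)) → Hpoly d l,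
      ∀ j, p j = (√c)⁻¹ • e j := ⟨_, fun _ => rfl⟩
  have hpe : ∀ j x, evl (p j : MvPolynomial (Fin d) ℝ) x =
      (√c)⁻¹ * evl (e j : MvPolynomial (Fin d) ℝ) x := by
    intro j x
    rw [hp]
    exact evl_smul _ _ x
  have hsq : ∀ x : E d, ∑ j, evl (p j : MvPolynomial (Fin d) ℝ) x ^ 2 = ‖x‖ ^ (2 * l) := by
    intro x
    have h3 : ∑ j, evl (p j : MvPolynomial (Fin d) ℝ) x ^ 2 = c⁻¹ * K x := by
      rw [hKd, Finset.mul_sum]
      refine Finset.sum_congr rfl fun j _ => ?_
      rw [hpe, mul_pow, inv_pow, Real.sq_sqrt hc0.le]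
    rw [h3, hKx, ← mul_assoc, inv_mul_cancel₀ hc0.ne', one_mul]
  refine ⟨fun j => evl (p j : MvPolynomial (Fin d) ℝ), ?_, ?_, hsq, ?_⟩
  · intro j
    exact evl_contDiff _
  · intro j x
    exact evl_euler (hhom _) x
  · intro x
    simp only [evl_single]
    exact grad (fun j => (p j : MvPolynomial (Fin d) ℝ)) (fun j => hlap _) hsq x

end Pool.Agent.N537.RS
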