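import Pool.Agent.N537.RS.Stm

/-!
# Project RS (helper537): existence of full multiplets for every angular momentum, statements
-/

set_option autoImplicit false

open MeasureTheory

namespace Pool.Agent.N537.RS

noncomputable section

/-- the Laplacian of polynomials -/
def Lap (d : ℕ) : MvPolynomial (Fin d) ℝ →ₗ[ℝ] MvPolynomial (Fin d) ℝ :=
  ∑ i, (MvPolynomial.pderiv (R := ℝ) i).toLinearMap ∘ₗ (MvPolynomial.pderiv (R := ℝ) i).toLinearMap

/-- harmonic homogeneous polynomials of degree `l` -/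
def Hpoly (d l : ℕ) : Submodule ℝ (MvPolynomial (Fin d) ℝ) :=
  MvPolynomial.homogeneousSubmodule (Fin d) ℝ l ⊓ LinearMap.ker (Lap d)

/-- RS/HDIM: the dimension of the space of the spherical harmonics -/
def S_HDIM : Prop := ∀ d : ℕ, 3 ≤ d → ∀ l : ℕ, FiniteDimensional ℝ (Hpoly d l) ∧
  Module.finrank ℝ (Hpoly d l) = hdim d l ∧ 0 < hdim d l

open Pool.Agent.R117.RL in
/-- RS/HROT: rotations act on the harmonic polynomials -/
def S_HROT : Prop := ∀ (d l : ℕ) (A : E d ≃ₗᵢ[ℝ] E d), ∀ p ∈ Hpoly d l, ∃ q ∈ Hpoly d l,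
  ∀ x : E d, MvPolynomial.eval (fun i => x i) q = MvPolynomial.eval (fun i => (A x) i) p

open Pool.Agent.R117.RL in
/-- RS/HSH: full multiplets -/
def S_HSH : Prop := ∀ d : ℕ, 3 ≤ d → ∀ l : ℕ, ∃ P : Fin (hdim d l) → E d → ℝ, Shell l P

end

end Pool.Agent.N537.RS
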