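import Pool.Agent.N537.RS.Stm

/-!
# RS/HARDY (helper695): from the energy in the logarithmic variable to admissible functions

`|f' - a f|² = |f'|² + a² |f|² - a (|f|²)'`, and `|f|²` is small at arbitrarily large times.
-/

set_option autoImplicit false

open MeasureTheory Set Filter Topology

namespace Pool.Agent.N537.RS

namespace HA

/-- the derivative of `‖f‖²` -/
lemma hasDerivAt_nsq {f f' : ℝ → ℂ} {t : ℝ} (h : HasDerivAt f (f' t) t) :
    HasDerivAt (fun s => ‖f s‖ ^ 2) (2 * ((f t).re * (f' t).re + (f t).im * (f' t).im)) t := by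
  have h1 : HasDerivAt (fun s => (f s).re) (f' t).re t :=
    (Complex.reCLM.hasFDerivAt.comp_hasDerivAt t h)
  have h2 : HasDerivAt (fun s => (f s).im) (f' t).im t :=
    (Complex.imCLM.hasFDerivAt.comp_hasDerivAt t h)
  have h3 := (h1.mul h1).add (h2.mul h2)
  have e : (fun s => ‖f s‖ ^ 2) = fun s => (f s).re * (f s).re + (f s).im * (f s).im := by
    funext s
    rw [← Complex.normSq_eq_norm_sq, Complex.normSq_apply]
  rw [e]
  refine h3.congr_deriv ?_
  ring

/-- the algebraic identity -/
lemma alg (a μ : ℝ) (z w : ℂ) :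
    ‖w‖ ^ 2 + (a ^ 2 + μ) * ‖z‖ ^ 2 =
      (‖w - (a : ℂ) * z‖ ^ 2 + μ * ‖z‖ ^ 2) + a * (2 * (z.re * w.re + z.im * w.im)) := by
  simp only [← Complex.normSq_eq_norm_sq, Complex.normSq_apply]
  simp only [Complex.sub_re, Complex.sub_im, Complex.mul_re, Complex.mul_im, Complex.ofReal_re,
    Complex.ofReal_im]
  ring

/-- arbitrarily large times at which `N` is small -/
lemma small {N : ℝ → ℝ} (hi : Integrable (fun t => Real.exp (2 * t) * N t))
    (_hN : Continuous N) {ε : ℝ} (hε : 0 < ε) (T : ℝ) : ∃ y, T ≤ y ∧ N y ≤ ε := by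
  by_contra hcon
  push Not at hcon
  have h1 : IntegrableOn (fun t => Real.exp (2 * t) * N t) (Ioi T) := hi.integrableOn
  have h2 : IntegrableOn (fun _ : ℝ => Real.exp (2 * T) * ε) (Ioi T) := by
    refine Integrable.mono' h1 (by fun_prop) ?_
    refine (ae_restrict_mem measurableSet_Ioi).mono fun t ht => ?_
    have ht' : T < t := ht
    have h3 : Real.exp (2 * T) ≤ Real.exp (2 * t) := Real.exp_le_exp.2 (by linarith)
    have h4 := (hcon t ht'.le).le
    rw [Real.norm_of_nonneg (by positivity)]
    exact mul_le_mul h3 h4 hε.le (Real.exp_pos _).le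
  have h5 := (integrableOn_const_iff (μ := volume) (s := Ioi T)
    (C := Real.exp (2 * T) * ε)).1 h2
  rcases h5 with h5 | h5
  · have h6 : 0 < Real.exp (2 * T) * ε := by positivity
    exact h6.ne' (enorm_eq_zero.1 h5)
  · rw [Real.volume_Ioi] at h5
    exact lt_irrefl _ h5

end HA

open HA in
/-- RS/HARDY -/
theorem t_HARDY : S_HARDY := by
  intro a μ ha hμ f f' hd hc' hi2 hE
  have hc : Continuous f := continuous_iff_continuousAt.2 fun t => (hd t).continuousAt
  have hNc : Continuous fun t => ‖f t‖ ^ 2 := by fun_prop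
  set D : ℝ → ℝ := fun t => 2 * ((f t).re * (f' t).re + (f t).im * (f' t).im) with hD
  have hDc : Continuous D := by
    have h1 : Continuous fun t => (f t).re := Complex.continuous_re.comp hc
    have h2 : Continuous fun t => (f t).im := Complex.continuous_im.comp hc
    have h3 : Continuous fun t => (f' t).re := Complex.continuous_re.comp hc'
    have h4 : Continuous fun t => (f' t).im := Complex.continuous_im.comp hc'
    exact continuous_const.mul ((h1.mul h3).add (h2.mul h4))
  set h : ℝ → ℝ := fun t => ‖f' t - (a : ℂ) * f t‖ ^ 2 + μ * ‖f t‖ ^ 2 with hh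
  have hhc : Continuous h := by
    have : Continuous fun t => f' t - (a : ℂ) * f t := hc'.sub (continuous_const.mul hc)
    exact (this.norm.pow 2).add (continuous_const.mul hNc)
  have hh0 : ∀ t, 0 ≤ h t := fun t => by
    simp only [hh]; positivity
  set g : ℝ → ℝ := fun t => ‖f' t‖ ^ 2 + (a ^ 2 + μ) * ‖f t‖ ^ 2 with hg
  have hgc : Continuous g := (hc'.norm.pow 2).add (continuous_const.mul hNc)
  have hg0 : ∀ t, 0 ≤ g t := fun t => by
    simp only [hg]; positivity
  have hgh : ∀ t, g t = h t + a * D t := fun t => alg a μ (f t) (f' t)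
  set E : ℝ := ∫ t, h t with hEdef
  -- the basic identity
  have key : ∀ x y, x ≤ y → ∫ t in x..y, g t ≤ E + a * ‖f y‖ ^ 2 := by
    intro x y hxy
    have e1 : ∫ t in x..y, g t = (∫ t in x..y, h t) + a * ∫ t in x..y, D t := by
      have haD : Continuous fun t => a * D t := continuous_const.mul hDc
      rw [← intervalIntegral.integral_const_mul, ← intervalIntegral.integral_add
        (hhc.intervalIntegrable x y) (haD.intervalIntegrable x y)]
      exact intervalIntegral.integral_congr fun t _ => hgh t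
    have e2 : ∫ t in x..y, D t = ‖f y‖ ^ 2 - ‖f x‖ ^ 2 :=
      intervalIntegral.integral_eq_sub_of_hasDerivAt
        (fun t _ => hasDerivAt_nsq (hd t)) (hDc.intervalIntegrable _ _)
    have e3 : ∫ t in x..y, h t ≤ E := by
      rw [intervalIntegral.integral_of_le hxy]
      exact setIntegral_le_integral hE (Eventually.of_forall hh0)
    rw [e1, e2]
    have : 0 ≤ a * ‖f x‖ ^ 2 := by positivity
    nlinarith
  have bound : ∀ x y, x ≤ y → ∫ t in x..y, g t ≤ E := by
    intro x y hxy
    refine le_of_forall_pos_le_add fun ε hε => ?_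
    obtain ⟨z, hz, hzs⟩ := small hi2 hNc (ε := ε / a) (by positivity) y
    have h1 : ∫ t in x..y, g t ≤ ∫ t in x..z, g t := by
      have := intervalIntegral.integral_add_adjacent_intervals
        (hgc.intervalIntegrable (μ := volume) x y) (hgc.intervalIntegrable (μ := volume) y z)
      have h2 : 0 ≤ ∫ t in y..z, g t :=
        intervalIntegral.integral_nonneg hz fun t _ => hg0 t
      linarith
    have h3 := key x z (hxy.trans hz)
    have h4 : a * ‖f z‖ ^ 2 ≤ ε := by
      have := mul_le_mul_of_nonneg_left hzs ha.le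
      rwa [mul_div_cancel₀ _ ha.ne'] at this
    linarith
  have hgi : Integrable g := by
    refine integrable_of_intervalIntegral_norm_bounded (l := atTop) (a := fun n : ℕ => -(n : ℝ))
      (b := fun n : ℕ => (n : ℝ)) E (fun n => ?_) ?_ ?_ ?_
    · exact (hgc.integrableOn_Icc).mono_set Ioc_subset_Icc_self
    · exact tendsto_neg_atTop_atBot.comp tendsto_natCast_atTop_atTop
    · exact tendsto_natCast_atTop_atTop
    · refine Eventually.of_forall fun n => ?_
      have hn : -(n : ℝ) ≤ n := by
        have : (0 : ℝ) ≤ n := Nat.cast_nonneg n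
        linarith
      refine le_trans (le_of_eq ?_) (bound (-(n : ℝ)) n hn)
      exact intervalIntegral.integral_congr fun t _ => Real.norm_of_nonneg (hg0 t)
  have hgE : ∫ t, g t ≤ E := by
    have ht := intervalIntegral_tendsto_integral (l := atTop) (a := fun n : ℕ => -(n : ℝ))
      (b := fun n : ℕ => (n : ℝ)) hgi (tendsto_neg_atTop_atBot.comp tendsto_natCast_atTop_atTop)
      tendsto_natCast_atTop_atTop
    refine le_of_tendsto ht (Eventually.of_forall fun n => ?_)
    have hn : -(n : ℝ) ≤ n := by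
      have : (0 : ℝ) ≤ n := Nat.cast_nonneg n
      linarith
    exact bound (-(n : ℝ)) n hn
  have hi1 : Integrable fun t => ‖f' t‖ ^ 2 := by
    refine Integrable.mono' hgi (hc'.norm.pow 2).aestronglyMeasurable
      (Eventually.of_forall fun t => ?_)
    rw [Real.norm_of_nonneg (by positivity)]
    simp only [hg]
    have : 0 ≤ (a ^ 2 + μ) * ‖f t‖ ^ 2 := by positivity
    linarith
  have hi0 : Integrable fun t => ‖f t‖ ^ 2 := by
    refine Integrable.mono' (hgi.const_mul (a ^ 2)⁻¹) hNc.aestronglyMeasurable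
      (Eventually.of_forall fun t => ?_)
    rw [Real.norm_of_nonneg (by positivity)]
    rw [inv_mul_eq_div, le_div_iff₀ (by positivity)]
    simp only [hg]
    have h1 : 0 ≤ μ * ‖f t‖ ^ 2 := by positivity
    have h2 : 0 ≤ ‖f' t‖ ^ 2 := by positivity
    nlinarith
  refine ⟨⟨hd, hc', hi0, hi1, hi2⟩, ?_⟩
  have e : ∫ t, g t = (∫ t, ‖f' t‖ ^ 2) + (a ^ 2 + μ) * ∫ t, ‖f t‖ ^ 2 := by
    rw [← integral_const_mul, ← integral_add hi1 (hi0.const_mul _)]
  rw [← e]
  exact hgE

end Pool.Agent.N537.RS
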