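import Pool.Agent.N537.RS.Stm

/-!
# RS/INERT: a subspace on which the form is less than `-lam` has dimension at most `cnt`
-/

set_option autoImplicit false

open Matrix
open scoped ComplexOrder

namespace Pool.Agent.N537.RS.IN

theorem quad {m : ℕ} {H : Matrix (Fin m) (Fin m) ℂ} (h : H.IsHermitian) (v : Fin m → ℂ) :
    star v ⬝ᵥ (H *ᵥ v) = ∑ i, (h.eigenvalues i : ℂ) *
      (star ((star (h.eigenvectorUnitary : Matrix (Fin m) (Fin m) ℂ) *ᵥ v) i) *
        (star (h.eigenvectorUnitary : Matrix (Fin m) (Fin m) ℂ) *ᵥ v) i) := by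
  set U : Matrix (Fin m) (Fin m) ℂ := (h.eigenvectorUnitary : Matrix (Fin m) (Fin m) ℂ) with hU
  have hs : H = U * diagonal (fun i => (h.eigenvalues i : ℂ)) * star U := by
    conv_lhs => rw [h.spectral_theorem, Unitary.conjStarAlgAut_apply]
    rfl
  conv_lhs => rw [hs]
  rw [← mulVec_mulVec, ← mulVec_mulVec, dotProduct_mulVec]
  have e : star v ᵥ* U = star (star U *ᵥ v) := by
    rw [star_mulVec, star_eq_conjTranspose, conjTranspose_conjTranspose]
  rw [e]
  simp only [dotProduct, mulVec_diagonal, Pi.star_apply]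
  refine Finset.sum_congr rfl fun i _ => ?_
  ring

theorem nrm {m : ℕ} {H : Matrix (Fin m) (Fin m) ℂ} (h : H.IsHermitian) (v : Fin m → ℂ) :
    star v ⬝ᵥ v = ∑ i, (star ((star (h.eigenvectorUnitary : Matrix (Fin m) (Fin m) ℂ) *ᵥ v) i) *
        (star (h.eigenvectorUnitary : Matrix (Fin m) (Fin m) ℂ) *ᵥ v) i) := by
  set U : Matrix (Fin m) (Fin m) ℂ := (h.eigenvectorUnitary : Matrix (Fin m) (Fin m) ℂ) with hU
  have hs : (1 : Matrix (Fin m) (Fin m) ℂ) = U * star U := by
    rw [hU]; exact (Unitary.coe_mul_star_self _).symm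
  have e : star v ᵥ* U = star (star U *ᵥ v) := by
    rw [star_mulVec, star_eq_conjTranspose, conjTranspose_conjTranspose]
  calc star v ⬝ᵥ v = star v ⬝ᵥ ((1 : Matrix (Fin m) (Fin m) ℂ) *ᵥ v) := by rw [one_mulVec]
    _ = star v ⬝ᵥ (U *ᵥ (star U *ᵥ v)) := by rw [hs, mulVec_mulVec]
    _ = _ := by
      rw [dotProduct_mulVec, e]
      simp only [dotProduct, Pi.star_apply]

theorem core {m : ℕ} {H : Matrix (Fin m) (Fin m) ℂ} (h : H.IsHermitian) (lam : ℝ)
    (W : Submodule ℂ (Fin m → ℂ))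
    (hW : ∀ v ∈ W, v ≠ 0 → (star v ⬝ᵥ (H *ᵥ v)).re < -lam * (star v ⬝ᵥ v).re) :
    Module.finrank ℂ W ≤ (Finset.univ.filter fun i => h.eigenvalues i < -lam).card := by
  classical
  set U : Matrix (Fin m) (Fin m) ℂ := (h.eigenvectorUnitary : Matrix (Fin m) (Fin m) ℂ) with hU
  set S := Finset.univ.filter fun i => h.eigenvalues i < -lam with hS
  let L : W →ₗ[ℂ] (S → ℂ) :=
    { toFun := fun v i => (star U *ᵥ (v : Fin m → ℂ)) i
      map_add' := fun v w => by
        funext i
        simp [mulVec_add]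
      map_smul' := fun c v => by
        funext i
        simp [mulVec_smul] }
  have hinj : Function.Injective L := by
    rw [← LinearMap.ker_eq_bot, LinearMap.ker_eq_bot']
    intro v hv
    by_contra hne
    have hv0 : (v : Fin m → ℂ) ≠ 0 := fun h0 => hne (Subtype.ext h0)
    have h1 := hW v v.2 hv0
    rw [quad h, nrm h, Complex.re_sum, Complex.re_sum, Finset.mul_sum] at h1
    refine absurd h1 (not_lt.2 (Finset.sum_le_sum fun i _ => ?_))
    have h2 : (star ((star U *ᵥ (v : Fin m → ℂ)) i) * (star U *ᵥ (v : Fin m → ℂ)) i) =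
        ((Complex.normSq ((star U *ᵥ (v : Fin m → ℂ)) i) : ℝ) : ℂ) := by
      rw [Complex.normSq_eq_conj_mul_self]
      rfl
    rw [← hU, h2, ← Complex.ofReal_mul, Complex.ofReal_re, Complex.ofReal_re]
    by_cases hi : h.eigenvalues i < -lam
    · have h3 : (star U *ᵥ (v : Fin m → ℂ)) i = 0 := by
        have := congrFun hv ⟨i, by rw [hS]; simp [hi]⟩
        exact this
      rw [h3]
      simp
    · exact mul_le_mul_of_nonneg_right (not_lt.1 hi) (Complex.normSq_nonneg _)
  have h4 := LinearMap.finrank_le_finrank_of_injective hinj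
  rw [Module.finrank_fintype_fun_eq_card] at h4
  simpa using h4

theorem t_INERT : S_INERT := by
  intro m A M hA hM lam τ W hW
  have hH : (A + (τ : ℂ) • M).IsHermitian := by
    refine hA.add ?_
    unfold Matrix.IsHermitian
    rw [conjTranspose_smul, hM.eq, Complex.star_def, Complex.conj_ofReal]
  unfold cnt
  rw [dif_pos hH]
  refine (core hH lam W hW).trans (le_of_eq ?_)
  congr 1

end Pool.Agent.N537.RS.IN
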