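import Pool.Agent.N537.RS.Stm

set_option autoImplicit false

open MeasureTheory Set Filter Topology Matrix
open scoped ComplexOrder

namespace Pool.Agent.N537.RS

namespace IT

theorem quad {m k : ℕ} (W : Matrix (Fin m) (Fin k) ℂ) (X : Matrix (Fin m) (Fin m) ℂ)
    (c : Fin k → ℂ) :
    star (W *ᵥ c) ⬝ᵥ (X *ᵥ (W *ᵥ c)) = star c ⬝ᵥ ((Wᴴ * X * W) *ᵥ c) := by
  rw [Matrix.star_mulVec, ← Matrix.dotProduct_mulVec, Matrix.mulVec_mulVec, Matrix.mulVec_mulVec,
    Matrix.mul_assoc]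

theorem diagq {k : ℕ} (q : Fin k → ℝ) (c : Fin k → ℂ) :
    (star c ⬝ᵥ ((Matrix.diagonal fun n => (q n : ℂ)) *ᵥ c)).re = ∑ n, q n * ‖c n‖ ^ 2 := by
  rw [dotProduct, Complex.re_sum]
  refine Finset.sum_congr rfl fun n _ => ?_
  rw [Matrix.mulVec_diagonal, Pi.star_apply]
  have h1 : star (c n) * ((q n : ℂ) * c n) = ((q n * ‖c n‖ ^ 2 : ℝ) : ℂ) := by
    have h2 : star (c n) * c n = ((‖c n‖ ^ 2 : ℝ) : ℂ) := by
      rw [Complex.star_def, Complex.conj_mul']
      push_cast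
      rfl
    calc star (c n) * ((q n : ℂ) * c n) = (q n : ℂ) * (star (c n) * c n) := by ring
      _ = _ := by rw [h2]; push_cast; ring
  rw [h1, Complex.ofReal_re]

theorem vol (x : ℝ) :
    ∫⁻ τ in Ioi (0 : ℝ), (Iio x).indicator (fun _ => (1 : ENNReal)) τ = ENNReal.ofReal x := by
  rw [lintegral_indicator measurableSet_Iio, setLIntegral_const, one_mul,
    Measure.restrict_apply measurableSet_Iio, inter_comm, Ioi_inter_Iio, Real.volume_Ioo, sub_zero]

theorem ofReal_sum_le {k : ℕ} (f : Fin k → ℝ) :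
    ENNReal.ofReal (∑ n, f n) ≤ ∑ n, ENNReal.ofReal (f n) :=
  Finset.le_sum_of_subadditive ENNReal.ofReal ENNReal.ofReal_zero.le (fun _ _ => ENNReal.ofReal_add_le)
    _ _

/-- extension by zero -/
noncomputable def ext {k : ℕ} (p : Fin k → Prop) [DecidablePred p] :
    ({n // p n} → ℂ) →ₗ[ℂ] (Fin k → ℂ) where
  toFun c n := if h : p n then c ⟨n, h⟩ else 0
  map_add' x y := by
    funext n
    by_cases h : p n
    · simp [h]
    · simp [h]
  map_smul' r x := by
    funext n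
    by_cases h : p n
    · simp [h]
    · simp [h]

theorem ext_out {k : ℕ} (p : Fin k → Prop) [DecidablePred p] (c : {n // p n} → ℂ) (n : Fin k)
    (h : ¬ p n) : ext p c n = 0 := by
  simp [ext, h]

theorem ext_in {k : ℕ} (p : Fin k → Prop) [DecidablePred p] (c : {n // p n} → ℂ) (n : {n // p n}) :
    ext p c n = c n := by
  have := n.2
  simp [ext, this]

theorem card_le (hI : S_INERT) {m k : ℕ} (A M : Matrix (Fin m) (Fin m) ℂ) (hA : A.IsHermitian)
    (hM : M.IsHermitian) (lam τ : ℝ) (W : Matrix (Fin m) (Fin k) ℂ) (q : Fin k → ℝ)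
    (hWM : Wᴴ * M * W = 1)
    (hWB : Wᴴ * (A + (lam : ℂ) • (1 : Matrix (Fin m) (Fin m) ℂ)) * W =
      Matrix.diagonal fun n => (q n : ℂ)) :
    (Finset.univ.filter fun n => q n < -τ).card ≤ cnt A M lam τ := by
  classical
  set L : ({n // q n < -τ} → ℂ) →ₗ[ℂ] (Fin m → ℂ) := W.mulVecLin ∘ₗ ext (fun n => q n < -τ) with hL
  have hLa : ∀ c, L c = W *ᵥ (ext (fun n => q n < -τ) c) := fun c => by
    rw [hL, LinearMap.comp_apply, Matrix.mulVecLin_apply]
  have hinj : Function.Injective L := by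
    rw [← LinearMap.ker_eq_bot, LinearMap.ker_eq_bot']
    intro c hc
    rw [hLa] at hc
    have h1 : (Wᴴ * M * W) *ᵥ (ext (fun n => q n < -τ) c) = 0 := by
      rw [← Matrix.mulVec_mulVec, hc, Matrix.mulVec_zero]
    rw [hWM, Matrix.one_mulVec] at h1
    funext n
    have h2 := congrFun h1 n.1
    rw [ext_in] at h2
    exact h2
  have hfin : Module.finrank ℂ (LinearMap.range L) =
      (Finset.univ.filter fun n => q n < -τ).card := by
    rw [LinearMap.finrank_range_of_inj hinj, Module.finrank_fintype_fun_eq_card,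
      Fintype.card_subtype]
  rw [← hfin]
  refine hI m A M hA hM lam τ _ ?_
  rintro w ⟨c, rfl⟩ hw
  have hcne : c ≠ 0 := by
    rintro rfl
    exact hw (map_zero L)
  set e := ext (fun n => q n < -τ) c with he
  rw [hLa, ← he]
  have hB : (star (W *ᵥ e) ⬝ᵥ ((A + (lam : ℂ) • (1 : Matrix (Fin m) (Fin m) ℂ)) *ᵥ (W *ᵥ e))).re
      = ∑ n, q n * ‖e n‖ ^ 2 := by
    rw [quad, hWB, diagq]
  have hMM : (star (W *ᵥ e) ⬝ᵥ (M *ᵥ (W *ᵥ e))).re = ∑ n, ‖e n‖ ^ 2 := by
    rw [quad, hWM]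
    have h := diagq (fun _ => (1 : ℝ)) e
    simp only [one_mul, Complex.ofReal_one] at h
    rw [← h, Matrix.diagonal_one]
  have hkey : (star (W *ᵥ e) ⬝ᵥ ((A + (τ : ℂ) • M) *ᵥ (W *ᵥ e))).re
      + lam * (star (W *ᵥ e) ⬝ᵥ (W *ᵥ e)).re = ∑ n, (q n + τ) * ‖e n‖ ^ 2 := by
    have h3 : (star (W *ᵥ e) ⬝ᵥ ((A + (lam : ℂ) • (1 : Matrix (Fin m) (Fin m) ℂ)) *ᵥ (W *ᵥ e))).re
        = (star (W *ᵥ e) ⬝ᵥ (A *ᵥ (W *ᵥ e))).re + lam * (star (W *ᵥ e) ⬝ᵥ (W *ᵥ e)).re := by
      rw [Matrix.add_mulVec, dotProduct_add, Complex.add_re, Matrix.smul_mulVec, dotProduct_smul,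
        Matrix.one_mulVec, smul_eq_mul, Complex.re_ofReal_mul]
    have h4 : (star (W *ᵥ e) ⬝ᵥ ((A + (τ : ℂ) • M) *ᵥ (W *ᵥ e))).re
        = (star (W *ᵥ e) ⬝ᵥ (A *ᵥ (W *ᵥ e))).re + τ * (star (W *ᵥ e) ⬝ᵥ (M *ᵥ (W *ᵥ e))).re := by
      rw [Matrix.add_mulVec, dotProduct_add, Complex.add_re, Matrix.smul_mulVec, dotProduct_smul,
        smul_eq_mul, Complex.re_ofReal_mul]
    rw [h4, hMM]
    rw [h3] at hB
    have h5 : ∑ n, (q n + τ) * ‖e n‖ ^ 2 = ∑ n, q n * ‖e n‖ ^ 2 + τ * ∑ n, ‖e n‖ ^ 2 := by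
      rw [Finset.mul_sum, ← Finset.sum_add_distrib]
      exact Finset.sum_congr rfl fun n _ => by ring
    rw [h5]
    linarith
  have hneg : ∑ n, (q n + τ) * ‖e n‖ ^ 2 < 0 := by
    obtain ⟨n₀, hn₀⟩ : ∃ n, c n ≠ 0 := by
      by_contra hcon
      push Not at hcon
      exact hcne (funext hcon)
    have h6 : ∀ n, (q n + τ) * ‖e n‖ ^ 2 ≤ 0 := by
      intro n
      by_cases hn : q n < -τ
      · exact mul_nonpos_of_nonpos_of_nonneg (by linarith) (sq_nonneg _)
      · rw [he, ext_out _ _ _ hn, norm_zero]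
        simp
    have h7 : (q n₀.1 + τ) * ‖e n₀.1‖ ^ 2 < 0 := by
      have h8 : e n₀.1 = c n₀ := ext_in _ _ _
      rw [h8]
      have h9 : 0 < ‖c n₀‖ ^ 2 := by positivity
      have h10 : q n₀.1 + τ < 0 := by linarith [n₀.2]
      exact mul_neg_of_neg_of_pos h10 h9
    exact Finset.sum_neg' (fun n _ => h6 n) ⟨n₀.1, Finset.mem_univ _, h7⟩
  have h11 : -lam * (star (W *ᵥ e) ⬝ᵥ (W *ᵥ e)).re
      = -(lam * (star (W *ᵥ e) ⬝ᵥ (W *ᵥ e)).re) := by ring
  rw [h11]
  linarith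

theorem exW {m N : ℕ} (A M : Matrix (Fin m) (Fin m) ℂ) (hA : A.IsHermitian)
    (v : Fin N → Fin m → ℂ)
    (hv : ∀ a b, star (v a) ⬝ᵥ (M *ᵥ v b) = if a = b then (1 : ℂ) else 0) (lam : ℝ) :
    ∃ (W : Matrix (Fin m) (Fin N) ℂ) (q : Fin N → ℝ), Wᴴ * M * W = 1 ∧
      (Wᴴ * (A + (lam : ℂ) • (1 : Matrix (Fin m) (Fin m) ℂ)) * W =
        Matrix.diagonal fun n => (q n : ℂ)) ∧
      (∑ a, (star (v a) ⬝ᵥ (A *ᵥ v a)).re) + lam * ∑ a, (star (v a) ⬝ᵥ v a).re = ∑ n, q n := by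
  classical
  set V : Matrix (Fin m) (Fin N) ℂ := Matrix.of fun i a => v a i with hV
  have hent : ∀ (X : Matrix (Fin m) (Fin m) ℂ) a b,
      (Vᴴ * X * V) a b = star (v a) ⬝ᵥ (X *ᵥ v b) := by
    intro X a b
    rw [Matrix.mul_assoc, Matrix.mul_apply]
    rw [dotProduct]
    refine Finset.sum_congr rfl fun i _ => ?_
    rw [Matrix.conjTranspose_apply, Pi.star_apply, hV, Matrix.of_apply]
    congr 1
  have hVM : Vᴴ * M * V = 1 := by
    ext a b
    rw [hent, hv, Matrix.one_apply]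
  set B := A + (lam : ℂ) • (1 : Matrix (Fin m) (Fin m) ℂ) with hBdef
  have hB : B.IsHermitian := by
    refine hA.add ?_
    rw [Matrix.IsHermitian, Matrix.conjTranspose_smul, Matrix.conjTranspose_one]
    congr 1
    exact Complex.conj_ofReal lam
  have hR : (Vᴴ * B * V).IsHermitian := Matrix.isHermitian_conjTranspose_mul_mul V hB
  set R := Vᴴ * B * V with hRdef
  set U : Matrix (Fin N) (Fin N) ℂ := (hR.eigenvectorUnitary : Matrix (Fin N) (Fin N) ℂ) with hU
  have hUU : Uᴴ * U = 1 := by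
    have := hR.eigenvectorUnitary.2
    rw [Matrix.mem_unitaryGroup_iff'] at this
    exact this
  have hspec : Uᴴ * R * U = Matrix.diagonal fun n => (hR.eigenvalues n : ℂ) := by
    have h := hR.spectral_theorem
    rw [Unitary.conjStarAlgAut_apply] at h
    have h2 : R = U * (Matrix.diagonal fun n => (hR.eigenvalues n : ℂ)) * Uᴴ := h
    calc Uᴴ * R * U = Uᴴ * (U * (Matrix.diagonal fun n => (hR.eigenvalues n : ℂ)) * Uᴴ) * U := by
          rw [← h2]
      _ = (Uᴴ * U) * (Matrix.diagonal fun n => (hR.eigenvalues n : ℂ)) * (Uᴴ * U) := by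
          simp only [Matrix.mul_assoc]
      _ = _ := by rw [hUU, Matrix.one_mul, Matrix.mul_one]
  have hcong : ∀ X : Matrix (Fin m) (Fin m) ℂ, (V * U)ᴴ * X * (V * U) = Uᴴ * (Vᴴ * X * V) * U := by
    intro X
    rw [Matrix.conjTranspose_mul]
    simp only [Matrix.mul_assoc]
  refine ⟨V * U, hR.eigenvalues, ?_, ?_, ?_⟩
  · rw [hcong, hVM, Matrix.mul_one, hUU]
  · rw [hcong, ← hRdef, hspec]
  · have htr := hR.trace_eq_sum_eigenvalues
    have h1 : R.trace.re = ∑ n, hR.eigenvalues n := by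
      rw [htr, ← Complex.ofReal_re (∑ n, hR.eigenvalues n)]
      push_cast
      rfl
    rw [← h1, Matrix.trace, Complex.re_sum, Finset.mul_sum, ← Finset.sum_add_distrib]
    refine Finset.sum_congr rfl fun a _ => ?_
    rw [Matrix.diag_apply, hRdef, hent, hBdef, Matrix.add_mulVec, dotProduct_add, Complex.add_re,
      Matrix.smul_mulVec, dotProduct_smul, Matrix.one_mulVec, smul_eq_mul, Complex.re_ofReal_mul]

theorem t_INT (h : S_INERT) : S_INT := by
  classical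
  intro m A M hA hM N v hv lam
  obtain ⟨W, q, hWM, hWB, hq⟩ := exW A M hA v hv lam
  have h1 : -(∑ a, (star (v a) ⬝ᵥ (A *ᵥ v a)).re) - lam * ∑ a, (star (v a) ⬝ᵥ v a).re
      = ∑ n, (-q n) := by
    rw [Finset.sum_neg_distrib, ← hq]
    ring
  rw [h1]
  calc ENNReal.ofReal (∑ n, (-q n)) ≤ ∑ n, ENNReal.ofReal (-q n) := ofReal_sum_le _
    _ = ∑ n, ∫⁻ τ in Ioi (0 : ℝ), (Iio (-q n)).indicator (fun _ => (1 : ENNReal)) τ :=
        Finset.sum_congr rfl fun n _ => (vol _).symm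
    _ = ∫⁻ τ in Ioi (0 : ℝ), ∑ n, (Iio (-q n)).indicator (fun _ => (1 : ENNReal)) τ := by
        rw [lintegral_finsetSum]
        exact fun n _ => measurable_const.indicator measurableSet_Iio
    _ ≤ ∫⁻ τ in Ioi (0 : ℝ), (cnt A M lam τ : ENNReal) := by
        refine lintegral_mono fun τ => ?_
        have h2 := card_le h A M hA hM.isHermitian lam τ W q hWM hWB
        have h3 : ∑ n, (Iio (-q n)).indicator (fun _ => (1 : ENNReal)) τ
            = ((Finset.univ.filter fun n => q n < -τ).card : ENNReal) := by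
          rw [Finset.card_filter]
          push_cast
          refine Finset.sum_congr rfl fun n _ => ?_
          by_cases hn : q n < -τ
          · have h4 : τ ∈ Iio (-q n) := by
              show τ < -q n
              linarith
            rw [indicator_of_mem h4, if_pos hn]
          · have h4 : τ ∉ Iio (-q n) := by
              intro h5
              apply hn
              have h6 : τ < -q n := h5
              linarith
            rw [indicator_of_notMem h4, if_neg hn]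
        show ∑ n, (Iio (-q n)).indicator (fun _ => (1 : ENNReal)) τ ≤ (cnt A M lam τ : ENNReal)
        rw [h3]
        exact_mod_cast h2

end IT

end Pool.Agent.N537.RS
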