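import Pool.Agent.N537.RS.Stm

/-!
# RS/KIN (helper537's project, part by helper67): from the dual to the kinetic inequality
-/

set_option autoImplicit false

open MeasureTheory Set Filter Topology

namespace Pool.Agent.N537.RS

namespace KI

noncomputable section

/-- the density -/
def Df (Λ : Finset ℕ) (g N : ℕ → ℕ) (φ : ∀ l, Fin (N l) → ℝ → ℂ) (t : ℝ) : ℝ :=
  ∑ l ∈ Λ, (g l : ℝ) * ∑ n, ‖φ l n t‖ ^ 2

lemma Df_nonneg (Λ : Finset ℕ) (g N : ℕ → ℕ) (φ : ∀ l, Fin (N l) → ℝ → ℂ) (t : ℝ) :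
    0 ≤ Df Λ g N φ t := by
  unfold Df; positivity

lemma Df_cont {Λ : Finset ℕ} {g N : ℕ → ℕ} {φ φ' : ∀ l, Fin (N l) → ℝ → ℂ}
    (h : Sys Λ N φ φ') : Continuous (Df Λ g N φ) := by
  unfold Df
  refine continuous_finset_sum _ fun l hl => ?_
  refine continuous_const.mul (continuous_finset_sum _ fun n _ => ?_)
  have : Continuous (φ l n) := by
    rw [continuous_iff_continuousAt]
    exact fun t => ((h.fn l hl n).deriv t).continuousAt
  fun_prop

/-- the trial potential (before the cut-off) -/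
def WW (d : ℕ) (B : ℝ) (D : ℝ → ℝ) (t : ℝ) : ℝ :=
  (Real.exp (-((d : ℝ) - 2) * t) * D t / B) ^ (2 / (d : ℝ))

lemma ww_cont {d : ℕ} {B : ℝ} {D : ℝ → ℝ} (hD : Continuous D) : Continuous (WW d B D) := by
  unfold WW
  refine Continuous.rpow_const (by fun_prop) fun t => Or.inr (by positivity)

lemma ww_nonneg {d : ℕ} {B : ℝ} {D : ℝ → ℝ} (hB : 0 < B) (hD : ∀ t, 0 ≤ D t) (t : ℝ) :
    0 ≤ WW d B D t := by
  unfold WW
  have := hD t
  positivity

lemma ww_id1 {d : ℕ} {B : ℝ} {D : ℝ → ℝ} (hd : 6 ≤ d) (hB : 0 < B) (hD : ∀ t, 0 ≤ D t) (t : ℝ) :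
    Real.exp (2 * t) * WW d B D t * D t =
      B ^ (-(2 / (d : ℝ))) * (Real.exp (4 * t / d) * D t ^ (1 + 2 / (d : ℝ))) := by
  have hd' : (6 : ℝ) ≤ d := by exact_mod_cast hd
  have hd0 : (0 : ℝ) < d := by linarith
  rcases (hD t).eq_or_lt with h0 | h0
  · rw [← h0, Real.zero_rpow (by positivity)]; simp
  · unfold WW
    rw [Real.div_rpow (by positivity) hB.le, Real.mul_rpow (by positivity) h0.le,
      ← Real.exp_mul, Real.rpow_add h0, Real.rpow_one, Real.rpow_neg hB.le]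
    have e : Real.exp (4 * t / d) =
        Real.exp (2 * t) * Real.exp (-((d : ℝ) - 2) * t * (2 / d)) := by
      rw [← Real.exp_add]
      congr 1
      field_simp
      ring
    rw [e]
    field_simp

lemma ww_id2 {d : ℕ} {B : ℝ} {D : ℝ → ℝ} (hd : 6 ≤ d) (hB : 0 < B) (hD : ∀ t, 0 ≤ D t) (t : ℝ) :
    Real.exp (d * t) * WW d B D t ^ (1 + (d : ℝ) / 2) =
      B⁻¹ * (Real.exp (2 * t) * WW d B D t * D t) := by
  have hd' : (6 : ℝ) ≤ d := by exact_mod_cast hd
  have hd0 : (0 : ℝ) < d := by linarith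
  rw [Real.rpow_add' (ww_nonneg hB hD t) (by positivity), Real.rpow_one]
  have h2 : WW d B D t ^ ((d : ℝ) / 2) = Real.exp (-((d : ℝ) - 2) * t) * D t / B := by
    unfold WW
    have := hD t
    rw [← Real.rpow_mul (by positivity)]
    have : 2 / (d : ℝ) * (d / 2) = 1 := by field_simp
    rw [this, Real.rpow_one]
  rw [h2]
  have e : Real.exp (2 * t) = Real.exp (d * t) * Real.exp (-((d : ℝ) - 2) * t) := by
    rw [← Real.exp_add]
    congr 1
    ring
  rw [e]
  field_simp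

/-- the inequality on an interval -/
lemma key (h : S_DUAL) {d : ℕ} (hd : 6 ≤ d) (hB : 0 < 2 / ((d - 1).factorial : ℝ) * LL d)
    {Λ : Finset ℕ} {g N : ℕ → ℕ} (hg : ∀ l ∈ Λ, g l ≤ hdim d l)
    {φ φ' : ∀ l, Fin (N l) → ℝ → ℂ} (hs : Sys Λ N φ φ') (T : ℝ) :
    (d : ℝ) / (d + 2) * (2 / ((d - 1).factorial : ℝ) * LL d) ^ (-(2 / (d : ℝ))) *
      (∫ t in Icc (-T) T, Real.exp (4 * t / d) * Df Λ g N φ t ^ (1 + 2 / (d : ℝ))) ≤
    ∑ l ∈ Λ, (g l : ℝ) * ∑ n,
      ((∫ t, ‖φ' l n t‖ ^ 2) + ((l : ℝ) + ((d : ℝ) - 2) / 2) ^ 2 * ∫ t, ‖φ l n t‖ ^ 2) := by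
  have hd' : (6 : ℝ) ≤ d := by exact_mod_cast hd
  have hd0 : (0 : ℝ) < d := by linarith
  set B : ℝ := 2 / ((d - 1).factorial : ℝ) * LL d with hBdef
  set D : ℝ → ℝ := Df Λ g N φ with hDdef
  have hDc : Continuous D := Df_cont hs
  have hDn : ∀ t, 0 ≤ D t := Df_nonneg Λ g N φ
  have hWc : Continuous (WW d B D) := ww_cont hDc
  have hWn : ∀ t, 0 ≤ WW d B D t := ww_nonneg hB hDn
  set V : ℝ → ℝ := (Icc (-T) T).indicator (WW d B D) with hV
  have hVm : Measurable V := hWc.measurable.indicator measurableSet_Icc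
  have hVn : ∀ t, 0 ≤ V t := fun t => indicator_nonneg (fun s _ => hWn s) t
  have hVb : ∃ C : ℝ, ∀ t, V t ≤ C := by
    obtain ⟨C, hC⟩ := (isCompact_Icc (a := -T) (b := T)).exists_bound_of_continuousOn
      hWc.continuousOn
    refine ⟨max C 0, fun t => ?_⟩
    by_cases ht : t ∈ Icc (-T) T
    · rw [hV, indicator_of_mem ht]
      exact (le_abs_self _).trans ((hC t ht).trans (le_max_left _ _))
    · rw [hV, indicator_of_notMem ht]
      exact le_max_right _ _
  have hmain := h d hd Λ g N hg φ φ' hs V hVm hVn hVb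
  -- the integrals on the left
  have hφc : ∀ l ∈ Λ, ∀ n, Continuous (φ l n) := by
    intro l hl n
    rw [continuous_iff_continuousAt]
    exact fun t => ((hs.fn l hl n).deriv t).continuousAt
  have hind : ∀ l n, (∫ t, Real.exp (2 * t) * V t * ‖φ l n t‖ ^ 2) =
      ∫ t in Icc (-T) T, Real.exp (2 * t) * WW d B D t * ‖φ l n t‖ ^ 2 := by
    intro l n
    rw [← integral_indicator measurableSet_Icc]
    congr 1
    ext t
    by_cases ht : t ∈ Icc (-T) T
    · rw [hV, indicator_of_mem ht, indicator_of_mem ht]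
    · rw [hV, indicator_of_notMem ht, indicator_of_notMem ht]; simp
  have hint : ∀ l ∈ Λ, ∀ n, IntegrableOn
      (fun t => Real.exp (2 * t) * WW d B D t * ‖φ l n t‖ ^ 2) (Icc (-T) T) := by
    intro l hl n
    have := hφc l hl n
    exact Continuous.integrableOn_Icc (by fun_prop)
  set F : ℝ → ℝ := fun t => Real.exp (4 * t / d) * D t ^ (1 + 2 / (d : ℝ)) with hF
  have hFc : Continuous F := by
    refine Continuous.mul (by fun_prop) (hDc.rpow_const fun t => Or.inr (by positivity))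
  have hFn : ∀ t, 0 ≤ F t := fun t => by
    have := hDn t
    simp only [hF]; positivity
  set I : ℝ := ∫ t in Icc (-T) T, F t with hI
  have hI0 : 0 ≤ I := integral_nonneg fun t => hFn t
  have hsum : (∑ l ∈ Λ, (g l : ℝ) * ∑ n, ∫ t, Real.exp (2 * t) * V t * ‖φ l n t‖ ^ 2) =
      B ^ (-(2 / (d : ℝ))) * I := by
    have e1 : (∑ l ∈ Λ, (g l : ℝ) * ∑ n, ∫ t, Real.exp (2 * t) * V t * ‖φ l n t‖ ^ 2) =
        ∫ t in Icc (-T) T, Real.exp (2 * t) * WW d B D t * D t := by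
      have e2 : ∀ t, Real.exp (2 * t) * WW d B D t * D t =
          ∑ l ∈ Λ, (g l : ℝ) * ∑ n, Real.exp (2 * t) * WW d B D t * ‖φ l n t‖ ^ 2 := by
        intro t
        simp only [hDdef, Df, Finset.mul_sum]
        refine Finset.sum_congr rfl fun l _ => Finset.sum_congr rfl fun n _ => ?_
        ring
      simp only [e2]
      rw [integral_finset_sum]
      · refine Finset.sum_congr rfl fun l hl => ?_
        rw [integral_const_mul, integral_finset_sum]
        · congr 1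
          exact Finset.sum_congr rfl fun n _ => hind l n
        · exact fun n _ => hint l hl n
      · intro l hl
        exact (integrable_finset_sum _ fun n _ => hint l hl n).const_mul _
    rw [e1, hI, ← integral_const_mul]
    congr 1
    ext t
    exact ww_id1 hd hB hDn t
  have hlint : ∫⁻ t, ENNReal.ofReal (Real.exp (d * t) * V t ^ (1 + (d : ℝ) / 2)) =
      ENNReal.ofReal (B⁻¹ * (B ^ (-(2 / (d : ℝ))) * I)) := by
    have e1 : ∀ t, ENNReal.ofReal (Real.exp (d * t) * V t ^ (1 + (d : ℝ) / 2)) =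
        (Icc (-T) T).indicator (fun t => ENNReal.ofReal (B⁻¹ * (B ^ (-(2 / (d : ℝ))) * F t))) t := by
      intro t
      by_cases ht : t ∈ Icc (-T) T
      · rw [hV, indicator_of_mem ht, indicator_of_mem ht, ww_id2 hd hB hDn t,
          ww_id1 hd hB hDn t]
      · rw [hV, indicator_of_notMem ht, indicator_of_notMem ht,
          Real.zero_rpow (by positivity)]
        simp
    simp only [e1]
    rw [lintegral_indicator measurableSet_Icc, ← ofReal_integral_eq_lintegral_ofReal]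
    · rw [integral_const_mul, integral_const_mul]
    · exact Continuous.integrableOn_Icc (by fun_prop)
    · refine Eventually.of_forall fun t => ?_
      have := hFn t
      show 0 ≤ B⁻¹ * (B ^ (-(2 / (d : ℝ))) * F t)
      positivity
  rw [hlint, ← ENNReal.ofReal_mul (by positivity)] at hmain
  have hle := (ENNReal.ofReal_le_ofReal_iff (by positivity)).1 hmain
  have hsplit : (∑ l ∈ Λ, (g l : ℝ) * ∑ n,
      ((∫ t, Real.exp (2 * t) * V t * ‖φ l n t‖ ^ 2) - (∫ t, ‖φ' l n t‖ ^ 2) -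
        ((l : ℝ) + ((d : ℝ) - 2) / 2) ^ 2 * ∫ t, ‖φ l n t‖ ^ 2)) =
      (∑ l ∈ Λ, (g l : ℝ) * ∑ n, ∫ t, Real.exp (2 * t) * V t * ‖φ l n t‖ ^ 2) -
      ∑ l ∈ Λ, (g l : ℝ) * ∑ n,
      ((∫ t, ‖φ' l n t‖ ^ 2) + ((l : ℝ) + ((d : ℝ) - 2) / 2) ^ 2 * ∫ t, ‖φ l n t‖ ^ 2) := by
    rw [← Finset.sum_sub_distrib]
    refine Finset.sum_congr rfl fun l _ => ?_
    rw [← mul_sub, ← Finset.sum_sub_distrib]
    congr 1
    refine Finset.sum_congr rfl fun n _ => ?_
    ring
  rw [hsplit, hsum] at hle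
  have e3 : B * (2 / ((d : ℝ) + 2)) * (B⁻¹ * (B ^ (-(2 / (d : ℝ))) * I)) =
      2 / ((d : ℝ) + 2) * (B ^ (-(2 / (d : ℝ))) * I) := by
    field_simp
  rw [e3] at hle
  have e4 : (d : ℝ) / (d + 2) * B ^ (-(2 / (d : ℝ))) * I =
      B ^ (-(2 / (d : ℝ))) * I - 2 / ((d : ℝ) + 2) * (B ^ (-(2 / (d : ℝ))) * I) := by
    field_simp
    ring
  rw [e4]
  linarith

end

/-- RS/KIN -/
theorem t_KIN (h : S_DUAL) (hc : S_CST) : S_KIN := by
  intro d hd Λ g N hg φ φ' hs
  have hd' : (6 : ℝ) ≤ d := by exact_mod_cast hd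
  have hd0 : (0 : ℝ) < d := by linarith
  have hLL : 0 < LL d := (hc d hd).1
  have hB : 0 < 2 / ((d - 1).factorial : ℝ) * LL d := by positivity
  set K : ℝ := (d : ℝ) / (d + 2) * (2 / ((d - 1).factorial : ℝ) * LL d) ^ (-(2 / (d : ℝ)))
    with hK
  have hK0 : 0 < K := by positivity
  set E : ℝ := ∑ l ∈ Λ, (g l : ℝ) * ∑ n,
      ((∫ t, ‖φ' l n t‖ ^ 2) + ((l : ℝ) + ((d : ℝ) - 2) / 2) ^ 2 * ∫ t, ‖φ l n t‖ ^ 2) with hE
  set F : ℝ → ℝ := fun t => Real.exp (4 * t / d) *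
    (∑ l ∈ Λ, (g l : ℝ) * ∑ n, ‖φ l n t‖ ^ 2) ^ (1 + 2 / (d : ℝ)) with hF
  have hkey : ∀ T : ℝ, K * ∫ t in Icc (-T) T, F t ≤ E := fun T => key h hd hB hg hs T
  have hDc : Continuous (Df Λ g N φ) := Df_cont hs
  have hFc : Continuous F := by
    have : F = fun t => Real.exp (4 * t / d) * Df Λ g N φ t ^ (1 + 2 / (d : ℝ)) := rfl
    rw [this]
    refine Continuous.mul (by fun_prop) (hDc.rpow_const fun t => Or.inr (by positivity))
  have hFn : ∀ t, 0 ≤ F t := fun t => by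
    simp only [hF]; positivity
  have hcov : AECover volume atTop (fun n : ℕ => Icc (-(n : ℝ)) (n : ℝ)) := by
    refine aecover_Icc ?_ ?_
    · exact tendsto_neg_atTop_atBot.comp tendsto_natCast_atTop_atTop
    · exact tendsto_natCast_atTop_atTop
  have hbd : ∀ n : ℕ, ∫ t in Icc (-(n : ℝ)) (n : ℝ), F t ≤ E / K := fun n => by
    rw [le_div_iff₀ hK0, mul_comm]
    exact hkey n
  have hInt : Integrable F := by
    refine hcov.integrable_of_integral_norm_bounded (E / K)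
      (fun n => hFc.integrableOn_Icc) (Eventually.of_forall fun n => ?_)
    have : ∀ t, ‖F t‖ = F t := fun t => by rw [Real.norm_eq_abs, abs_of_nonneg (hFn t)]
    simp only [this]
    exact hbd n
  refine ⟨hInt, ?_⟩
  have hlim := hcov.integral_tendsto_of_countably_generated hInt
  have := le_of_tendsto' (hlim.const_mul K) (fun n : ℕ => hkey n)
  exact this

end KI

end Pool.Agent.N537.RS
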