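import Pool.Agent.N537.RS.Stm

/-!
# Project RS (helper537): leaf LA (the inequality for matrices), by helper693
-/

set_option autoImplicit false

open MeasureTheory Set Filter Topology Matrix
open scoped ComplexOrder

namespace Pool.Agent.N537.RS

namespace LA

theorem ofReal_sum_le {ι : Type} (s : Finset ι) (f : ι → ℝ) :
    ENNReal.ofReal (∑ i ∈ s, f i) ≤ ∑ i ∈ s, ENNReal.ofReal (f i) := by
  classical
  induction s using Finset.induction_on with
  | empty => simp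
  | insert a s ha ih =>
    rw [Finset.sum_insert ha, Finset.sum_insert ha]
    exact ENNReal.ofReal_add_le.trans (add_le_add le_rfl ih)

theorem ofReal_integral_le {μ : Measure ℝ} {f : ℝ → ℝ} (hf : Integrable f μ) :
    ENNReal.ofReal (∫ x, f x ∂μ) ≤ ∫⁻ x, ENNReal.ofReal (f x) ∂μ := by
  have h1 : Integrable (fun x => max (f x) 0) μ := hf.pos_part
  have h2 : ∫ x, f x ∂μ ≤ ∫ x, max (f x) 0 ∂μ := integral_mono hf h1 fun x => le_max_left _ _
  refine (ENNReal.ofReal_le_ofReal h2).trans ?_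
  rw [ofReal_integral_eq_lintegral_ofReal h1 (ae_of_all _ fun x => le_max_right _ _)]
  refine lintegral_mono fun x => ?_
  rcases le_total (f x) 0 with h | h
  · simp [max_eq_right h]
  · simp [max_eq_left h]

theorem re_nn {m : ℕ} (v : Fin m → ℂ) : 0 ≤ (star v ⬝ᵥ v).re := by
  simp only [dotProduct, Complex.re_sum]
  refine Finset.sum_nonneg fun i _ => ?_
  have h1 : star v i * v i = (Complex.normSq (v i) : ℂ) := by
    rw [Pi.star_apply, Complex.star_def, mul_comm, Complex.mul_conj]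
  rw [h1, Complex.ofReal_re]
  exact Complex.normSq_nonneg _

open Classical in
theorem cnt_cast {m : ℕ} {A M : Matrix (Fin m) (Fin m) ℂ}
    (hH : ∀ τ : ℝ, (A + (τ : ℂ) • M).IsHermitian) (lam τ : ℝ) :
    (cnt A M lam τ : ENNReal) = ∑ i, (if (hH τ).eigenvalues i < -lam then 1 else 0) := by
  unfold cnt
  rw [dif_pos (hH τ), Finset.card_filter]
  push_cast
  rfl

open Classical in
theorem one (d : ℕ) (hd : 6 ≤ d) (y : ℝ) :
    ∫⁻ x in Ioi (0 : ℝ), (if y < -(x ^ (2 / ((d : ℝ) - 1))) then 1 else 0 : ENNReal) ≤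
      ENNReal.ofReal ((max (-y) 0) ^ (((d : ℝ) - 1) / 2)) := by
  have hd' : (0 : ℝ) < (d : ℝ) - 1 := by
    have : (6 : ℝ) ≤ d := by exact_mod_cast hd
    linarith
  set Y : ℝ := (max (-y) 0) ^ (((d : ℝ) - 1) / 2) with hY
  have key : ∀ x ∈ Ioi (0 : ℝ), (if y < -(x ^ (2 / ((d : ℝ) - 1))) then 1 else 0 : ENNReal) ≤
      (Ioo 0 Y).indicator 1 x := by
    intro x hx
    have hx0 : 0 < x := hx
    split_ifs with h
    · have h1 : x ^ (2 / ((d : ℝ) - 1)) < -y := by linarith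
      have h0 : 0 < x ^ (2 / ((d : ℝ) - 1)) := Real.rpow_pos_of_pos hx0 _
      have h2 : x < Y := by
        have h3 : x = (x ^ (2 / ((d : ℝ) - 1))) ^ (((d : ℝ) - 1) / 2) := by
          rw [← Real.rpow_mul hx0.le]
          have : 2 / ((d : ℝ) - 1) * (((d : ℝ) - 1) / 2) = 1 := by field_simp
          rw [this, Real.rpow_one]
        rw [hY, max_eq_left (h0.trans h1).le]
        conv_lhs => rw [h3]
        exact Real.rpow_lt_rpow h0.le h1 (by positivity)
      rw [indicator_of_mem (show x ∈ Ioo 0 Y from ⟨hx0, h2⟩)]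
      exact le_rfl
    · exact zero_le
  calc ∫⁻ x in Ioi (0 : ℝ), (if y < -(x ^ (2 / ((d : ℝ) - 1))) then 1 else 0 : ENNReal)
      ≤ ∫⁻ x in Ioi (0 : ℝ), (Ioo 0 Y).indicator 1 x := setLIntegral_mono' measurableSet_Ioi key
    _ ≤ ∫⁻ x, (Ioo 0 Y).indicator 1 x := setLIntegral_le_lintegral _ _
    _ = volume (Ioo 0 Y) := lintegral_indicator_one measurableSet_Ioo
    _ = ENNReal.ofReal Y := by rw [Real.volume_Ioo, sub_zero]

theorem inner (d : ℕ) (hd : 6 ≤ d) {m : ℕ} {A M : Matrix (Fin m) (Fin m) ℂ}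
    (hH : ∀ τ : ℝ, (A + (τ : ℂ) • M).IsHermitian) (τ : ℝ) :
    ∫⁻ x in Ioi (0 : ℝ), (cnt A M (x ^ (2 / ((d : ℝ) - 1))) τ : ENNReal) ≤
      ∑ i, ENNReal.ofReal ((max (-(hH τ).eigenvalues i) 0) ^ (((d : ℝ) - 1) / 2)) := by
  classical
  have h1 : ∀ x : ℝ, (cnt A M (x ^ (2 / ((d : ℝ) - 1))) τ : ENNReal) =
      ∑ i, (if (hH τ).eigenvalues i < -(x ^ (2 / ((d : ℝ) - 1))) then 1 else 0) := by
    intro x
    rw [cnt_cast hH]
  simp only [h1]
  rw [lintegral_finsetSum]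
  · refine Finset.sum_le_sum fun i _ => ?_
    have := one d hd ((hH τ).eigenvalues i)
    convert this using 3
  · intro i _
    refine Measurable.ite ?_ measurable_const measurable_const
    exact measurableSet_lt measurable_const ((measurable_id.pow_const _).neg)

/-- one cell -/
theorem cell (d : ℕ) (hd : 6 ≤ d) (h3 : S_CELL) (l g : ℕ) (hg : g ≤ hdim d l) (a b : ℝ)
    (hb : 0 ≤ b) (S : ℝ → ENNReal) (hS : ∀ lam : ℝ, ENNReal.ofReal (-a - lam * b) ≤ S lam) :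
    ENNReal.ofReal ((g : ℝ) * (-a - ((l : ℝ) + ((d : ℝ) - 2) / 2) ^ 2 * b)) ≤
      ENNReal.ofReal (2 / ((d - 1).factorial : ℝ)) *
        ∫⁻ x in Ioc (PP d l) (PP d (l + 1)), S (x ^ (2 / ((d : ℝ) - 1))) := by
  have hd' : (0 : ℝ) < (d : ℝ) - 1 := by
    have : (6 : ℝ) ≤ d := by exact_mod_cast hd
    linarith
  obtain ⟨-, hc⟩ := h3 d hd
  obtain ⟨c1, c2, c3⟩ := hc l
  set P := PP d l
  set P' := PP d (l + 1)
  set ν : ℝ := (l : ℝ) + ((d : ℝ) - 2) / 2
  set e : ℝ := 2 / ((d : ℝ) - 1)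
  have he : 0 ≤ e := by positivity
  have hF : (0 : ℝ) < ((d - 1).factorial : ℝ) := by exact_mod_cast Nat.factorial_pos _
  rcases le_or_gt (-a - ν ^ 2 * b) 0 with hE | hE
  · have : (g : ℝ) * (-a - ν ^ 2 * b) ≤ 0 := mul_nonpos_of_nonneg_of_nonpos (Nat.cast_nonneg _) hE
    rw [ENNReal.ofReal_of_nonpos this]
    exact zero_le
  have hcont : Continuous fun x : ℝ => x ^ e := continuous_id.rpow_const fun x => Or.inr he
  have hcont2 : Continuous fun x : ℝ => -a - x ^ e * b :=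
    continuous_const.sub (hcont.mul continuous_const)
  have hint : ∫ x in Ioc P P', (-a - x ^ e * b) = -a * (P' - P) - b * ∫ x in P..P', x ^ e := by
    have hi2 : IntervalIntegrable (fun x : ℝ => x ^ e * b) volume P P' :=
      (hcont.mul continuous_const).intervalIntegrable _ _
    rw [← intervalIntegral.integral_of_le c2, intervalIntegral.integral_sub
      (intervalIntegrable_const) hi2,
      intervalIntegral.integral_mul_const, intervalIntegral.integral_const, smul_eq_mul]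
    ring
  have h4 : (P' - P) * (-a - ν ^ 2 * b) ≤ ∫ x in Ioc P P', (-a - x ^ e * b) := by
    rw [hint]
    have := mul_le_mul_of_nonneg_left c3 hb
    linarith
  have h5 : (g : ℝ) * (-a - ν ^ 2 * b) ≤
      2 / ((d - 1).factorial : ℝ) * ((P' - P) * (-a - ν ^ 2 * b)) := by
    have hg' : (g : ℝ) ≤ hdim d l := by exact_mod_cast hg
    have h6 : (hdim d l : ℝ) = 2 / ((d - 1).factorial : ℝ) * (P' - P) := by
      field_simp
      linarith
    rw [← mul_assoc, ← h6]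
    exact mul_le_mul_of_nonneg_right hg' hE.le
  have h7 : ENNReal.ofReal (∫ x in Ioc P P', (-a - x ^ e * b)) ≤
      ∫⁻ x in Ioc P P', S (x ^ e) := by
    refine (ofReal_integral_le ?_).trans (lintegral_mono fun x => hS _)
    exact (hcont2.integrableOn_Ioc)
  calc ENNReal.ofReal ((g : ℝ) * (-a - ν ^ 2 * b))
      ≤ ENNReal.ofReal (2 / ((d - 1).factorial : ℝ) * ((P' - P) * (-a - ν ^ 2 * b))) :=
        ENNReal.ofReal_le_ofReal h5
    _ = ENNReal.ofReal (2 / ((d - 1).factorial : ℝ)) *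
        ENNReal.ofReal ((P' - P) * (-a - ν ^ 2 * b)) := ENNReal.ofReal_mul (by positivity)
    _ ≤ ENNReal.ofReal (2 / ((d - 1).factorial : ℝ)) *
        ∫⁻ x in Ioc P P', S (x ^ e) :=
        mul_le_mul_right ((ENNReal.ofReal_le_ofReal h4).trans h7) _

theorem t_LA (h1 : S_INT) (h2 : S_MEAS) (h3 : S_CELL) : S_LA := by
  intro d hd m A M hA hM Λ g N hg v hv hH
  set e : ℝ := 2 / ((d : ℝ) - 1) with he
  set S : ℝ → ENNReal := fun lam => ∫⁻ τ in Ioi (0 : ℝ), (cnt A M lam τ : ENNReal) with hS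
  have hmono : Monotone (PP d) := monotone_nat_of_le_succ fun l => ((h3 d hd).2 l).2.1
  have h0 : PP d 0 = 0 := (h3 d hd).1
  have hstep : ∀ l ∈ Λ, ENNReal.ofReal ((g l : ℝ) * (-(∑ a, (star (v l a) ⬝ᵥ (A *ᵥ v l a)).re) -
      ((l : ℝ) + ((d : ℝ) - 2) / 2) ^ 2 * ∑ a, (star (v l a) ⬝ᵥ v l a).re)) ≤
      ENNReal.ofReal (2 / ((d - 1).factorial : ℝ)) *
        ∫⁻ x in Ioc (PP d l) (PP d (l + 1)), S (x ^ e) := by
    intro l hl
    exact cell d hd h3 l (g l) (hg l hl) _ _ (Finset.sum_nonneg fun a _ => re_nn _) S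
      (fun lam => h1 m A M hA hM (N l) (v l) (hv l hl) lam)
  have hdisj : Set.PairwiseDisjoint (↑Λ : Set ℕ) fun l => Ioc (PP d l) (PP d (l + 1)) := by
    intro l _ l' _ hne
    exact hmono.pairwise_disjoint_on_Ioc_succ hne
  have hsub : (⋃ l ∈ Λ, Ioc (PP d l) (PP d (l + 1))) ⊆ Ioi (0 : ℝ) := by
    refine iUnion₂_subset fun l _ x hx => ?_
    have : PP d 0 ≤ PP d l := hmono (Nat.zero_le l)
    rw [h0] at this
    exact lt_of_le_of_lt this hx.1
  have hmeas : Measurable fun p : ℝ × ℝ => (cnt A M (p.1 ^ e) p.2 : ENNReal) := by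
    have q1 := h2 m A M hA hM.1
    have q2 : Measurable fun p : ℝ × ℝ => (p.1 ^ e, p.2) :=
      (measurable_fst.pow_const e).prodMk measurable_snd
    have q3 : Measurable fun n : ℕ => (n : ENNReal) := measurable_of_countable _
    exact q3.comp (q1.comp q2)
  calc ENNReal.ofReal (∑ l ∈ Λ, (g l : ℝ) * (-(∑ a, (star (v l a) ⬝ᵥ (A *ᵥ v l a)).re) -
      ((l : ℝ) + ((d : ℝ) - 2) / 2) ^ 2 * ∑ a, (star (v l a) ⬝ᵥ v l a).re))
      ≤ ∑ l ∈ Λ, ENNReal.ofReal ((g l : ℝ) * (-(∑ a, (star (v l a) ⬝ᵥ (A *ᵥ v l a)).re) -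
      ((l : ℝ) + ((d : ℝ) - 2) / 2) ^ 2 * ∑ a, (star (v l a) ⬝ᵥ v l a).re)) := ofReal_sum_le _ _
    _ ≤ ∑ l ∈ Λ, ENNReal.ofReal (2 / ((d - 1).factorial : ℝ)) *
        ∫⁻ x in Ioc (PP d l) (PP d (l + 1)), S (x ^ e) := Finset.sum_le_sum hstep
    _ = ENNReal.ofReal (2 / ((d - 1).factorial : ℝ)) *
        ∫⁻ x in ⋃ l ∈ Λ, Ioc (PP d l) (PP d (l + 1)), S (x ^ e) := by
        rw [← Finset.mul_sum, lintegral_biUnion_finset hdisj fun _ _ => measurableSet_Ioc]
    _ ≤ ENNReal.ofReal (2 / ((d - 1).factorial : ℝ)) *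
        ∫⁻ x in Ioi (0 : ℝ), S (x ^ e) :=
        mul_le_mul_right (lintegral_mono_set hsub) _
    _ = ENNReal.ofReal (2 / ((d - 1).factorial : ℝ)) *
        ∫⁻ τ in Ioi (0 : ℝ), ∫⁻ x in Ioi (0 : ℝ), (cnt A M (x ^ e) τ : ENNReal) := by
        congr 1
        exact lintegral_lintegral_swap (f := fun x τ => (cnt A M (x ^ e) τ : ENNReal))
          hmeas.aemeasurable
    _ ≤ _ := mul_le_mul_right (lintegral_mono fun τ => inner d hd hH τ) _

end LA

end Pool.Agent.N537.RS
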