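import Pool.Agent.N537.RS.Stm

/-! RS/LT32: the sharp Lieb-Thirring inequality with exponent 3/2 for compressions (helper344). -/

set_option autoImplicit false

open MeasureTheory Set Filter Topology Matrix
open scoped ComplexOrder

namespace Pool.Agent.N537.RS.LT

section lin

variable {m : ℕ}

theorem int_lin {f : Fin m → ℝ → ℂ} (hc : ∀ a, Continuous (f a)) {c : ℝ → ℝ} (hcc : Continuous c)
    (hc0 : ∀ t, 0 ≤ c t) (hi : ∀ a, Integrable fun t => c t * ‖f a t‖ ^ 2) (u : Fin m → ℂ) :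
    Integrable fun t => c t * ‖∑ a, u a * f a t‖ ^ 2 := by
  have hb : Integrable fun t => ∑ a, ((m : ℝ) * ‖u a‖ ^ 2) * (c t * ‖f a t‖ ^ 2) :=
    integrable_finsetSum _ fun a _ => (hi a).const_mul _
  refine hb.mono' ?_ (Eventually.of_forall fun t => ?_)
  · exact (hcc.mul ((continuous_finsetSum _ fun a _ =>
      continuous_const.mul (hc a)).norm.pow 2)).aestronglyMeasurable
  · rw [Real.norm_of_nonneg (mul_nonneg (hc0 t) (by positivity))]
    have h1 : ‖∑ a, u a * f a t‖ ≤ ∑ a, ‖u a‖ * ‖f a t‖ := by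
      refine (norm_sum_le _ _).trans (le_of_eq ?_)
      exact Finset.sum_congr rfl fun a _ => norm_mul _ _
    have h2 : ‖∑ a, u a * f a t‖ ^ 2 ≤ (m : ℝ) * ∑ a, (‖u a‖ * ‖f a t‖) ^ 2 := by
      refine (pow_le_pow_left₀ (norm_nonneg _) h1 2).trans ?_
      have := sq_sum_le_card_mul_sum_sq (s := (Finset.univ : Finset (Fin m)))
        (f := fun a => ‖u a‖ * ‖f a t‖)
      rwa [Finset.card_univ, Fintype.card_fin] at this
    calc c t * ‖∑ a, u a * f a t‖ ^ 2 ≤ c t * ((m : ℝ) * ∑ a, (‖u a‖ * ‖f a t‖) ^ 2) :=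
          mul_le_mul_of_nonneg_left h2 (hc0 t)
      _ = _ := by
          rw [Finset.mul_sum, Finset.mul_sum]
          exact Finset.sum_congr rfl fun a _ => by ring

theorem cont_of {f f' : ℝ → ℂ} (h : Fn f f') : Continuous f :=
  continuous_iff_continuousAt.2 fun t => (h.deriv t).continuousAt

theorem fn_lin {ψ ψ' : Fin m → ℝ → ℂ} (hF : ∀ j, Fn (ψ j) (ψ' j)) (u : Fin m → ℂ) :
    Fn (fun t => ∑ a, u a * ψ a t) (fun t => ∑ a, u a * ψ' a t) where
  deriv := fun t => HasDerivAt.fun_sum fun a _ => ((hF a).deriv t).const_mul (u a)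
  cont := continuous_finsetSum _ fun a _ => continuous_const.mul (hF a).cont
  i0 := by
    have := int_lin (fun a => cont_of (hF a)) (c := fun _ => 1) continuous_const
      (fun _ => zero_le_one) (fun a => by simpa using (hF a).i0) u
    simpa using this
  i1 := by
    have := int_lin (fun a => (hF a).cont) (c := fun _ => 1) continuous_const
      (fun _ => zero_le_one) (fun a => by simpa using (hF a).i1) u
    simpa using this
  i2 := int_lin (fun a => cont_of (hF a)) (c := fun t => Real.exp (2 * t)) (by fun_prop)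
      (fun _ => (Real.exp_pos _).le) (fun a => (hF a).i2) u

theorem int_mul {f g : ℝ → ℂ} (hf : Continuous f) (hg : Continuous g) {w : ℝ → ℝ}
    (hw : Measurable w) {c : ℝ → ℝ} (hwc : ∀ t, |w t| ≤ c t)
    (h1 : Integrable fun t => c t * ‖f t‖ ^ 2) (h2 : Integrable fun t => c t * ‖g t‖ ^ 2) :
    Integrable fun t => (w t : ℂ) * (star (f t) * g t) := by
  refine (h1.add h2).mono' ?_ (Eventually.of_forall fun t => ?_)
  · exact (Complex.measurable_ofReal.comp hw).aestronglyMeasurable.mul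
      ((continuous_star.comp hf).mul hg).aestronglyMeasurable
  · rw [norm_mul, norm_mul, norm_star, Complex.norm_real, Real.norm_eq_abs]
    have h3 : ‖f t‖ * ‖g t‖ ≤ ‖f t‖ ^ 2 + ‖g t‖ ^ 2 := by
      nlinarith [sq_nonneg (‖f t‖ - ‖g t‖), sq_nonneg ‖f t‖, sq_nonneg ‖g t‖]
    calc |w t| * (‖f t‖ * ‖g t‖) ≤ c t * (‖f t‖ ^ 2 + ‖g t‖ ^ 2) :=
          mul_le_mul (hwc t) h3 (by positivity) ((abs_nonneg _).trans (hwc t))
      _ = _ := by
          show _ = c t * ‖f t‖ ^ 2 + c t * ‖g t‖ ^ 2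
          ring

theorem expand (f : Fin m → ℝ → ℂ) (w : ℝ → ℂ)
    (h : ∀ a b, Integrable fun t => w t * (star (f a t) * f b t)) (u v : Fin m → ℂ) :
    ∫ t, w t * (star (∑ a, u a * f a t) * ∑ b, v b * f b t) =
      ∑ a, ∑ b, star (u a) * v b * ∫ t, w t * (star (f a t) * f b t) := by
  have h1 : ∀ t, w t * (star (∑ a, u a * f a t) * ∑ b, v b * f b t) =
      ∑ a, ∑ b, star (u a) * v b * (w t * (star (f a t) * f b t)) := by
    intro t
    rw [star_sum, Finset.sum_mul, Finset.mul_sum]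
    refine Finset.sum_congr rfl fun a _ => ?_
    rw [Finset.mul_sum, Finset.mul_sum]
    refine Finset.sum_congr rfl fun b _ => ?_
    rw [star_mul']
    ring
  simp_rw [h1]
  rw [integral_finsetSum _ fun a _ => integrable_finsetSum _ fun b _ => (h a b).const_mul _]
  refine Finset.sum_congr rfl fun a _ => ?_
  rw [integral_finsetSum _ fun b _ => (h a b).const_mul _]
  exact Finset.sum_congr rfl fun b _ => integral_const_mul _ _

theorem re_int (f : ℝ → ℂ) (w : ℝ → ℝ) :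
    ∫ t, (w t : ℂ) * (star (f t) * f t) = ((∫ t, w t * ‖f t‖ ^ 2 : ℝ) : ℂ) := by
  rw [← integral_complex_ofReal]
  refine integral_congr_ae (Eventually.of_forall fun t => ?_)
  simp only
  have h1 : star (f t) * f t = ((‖f t‖ ^ 2 : ℝ) : ℂ) := by
    rw [Complex.star_def, Complex.conj_mul']
    push_cast
    rfl
  rw [h1, Complex.ofReal_mul]

theorem uorth {Q : Matrix (Fin m) (Fin m) ℂ} (hQ : Q.IsHermitian) (i j : Fin m) :
    ∑ a, star ((hQ.eigenvectorUnitary : Matrix (Fin m) (Fin m) ℂ) a i) *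
      (hQ.eigenvectorUnitary : Matrix (Fin m) (Fin m) ℂ) a j = if i = j then 1 else 0 := by
  have h := Unitary.coe_star_mul_self hQ.eigenvectorUnitary
  have h2 := congrFun (congrFun h i) j
  rw [Matrix.mul_apply, Matrix.one_apply] at h2
  exact h2

theorem ueig {Q : Matrix (Fin m) (Fin m) ℂ} (hQ : Q.IsHermitian) (n : Fin m) :
    hQ.eigenvalues n = (∑ a, ∑ b, star ((hQ.eigenvectorUnitary : Matrix (Fin m) (Fin m) ℂ) a n) *
      (hQ.eigenvectorUnitary : Matrix (Fin m) (Fin m) ℂ) b n * Q a b).re := by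
  rw [hQ.eigenvalues_eq]
  change (∑ a, star ((hQ.eigenvectorUnitary : Matrix (Fin m) (Fin m) ℂ) a n) *
    ∑ b, Q a b * (hQ.eigenvectorUnitary : Matrix (Fin m) (Fin m) ℂ) b n).re = _
  congr 1
  refine Finset.sum_congr rfl fun a _ => ?_
  rw [Finset.mul_sum]
  refine Finset.sum_congr rfl fun b _ => ?_
  ring

end lin

theorem t_LT32 (h : S_CAL) : S_LT32 := by
  intro m ψ ψ' hF hO W hW hWC Q hQ hform σ hσ
  obtain ⟨C, hC⟩ := hWC
  set U : Matrix (Fin m) (Fin m) ℂ := (hQ.eigenvectorUnitary : Matrix (Fin m) (Fin m) ℂ) with hU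
  let p : Fin m → ℝ → ℂ := fun n t => ∑ a, U a n * ψ a t
  let p' : Fin m → ℝ → ℂ := fun n t => ∑ a, U a n * ψ' a t
  have hp : ∀ n, Fn (p n) (p' n) := fun n => fn_lin hF (fun a => U a n)
  have hcψ : ∀ a, Continuous (ψ a) := fun a => cont_of (hF a)
  -- integrability of the products
  have I0 : ∀ a b, Integrable fun t => ((fun _ : ℝ => (1 : ℝ)) t : ℂ) * (star (ψ a t) * ψ b t) :=
    fun a b => int_mul (hcψ a) (hcψ b) measurable_const (c := fun _ => 1) (fun _ => by simp)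
      (by simpa using (hF a).i0) (by simpa using (hF b).i0)
  have I1 : ∀ a b, Integrable fun t => ((fun _ : ℝ => (1 : ℝ)) t : ℂ) * (star (ψ' a t) * ψ' b t) :=
    fun a b => int_mul (hF a).cont (hF b).cont measurable_const (c := fun _ => 1)
      (fun _ => by simp) (by simpa using (hF a).i1) (by simpa using (hF b).i1)
  have IW : ∀ f f' g g' : ℝ → ℂ, Fn f f' → Fn g g' →
      Integrable fun t => (W t : ℂ) * (star (f t) * g t) := by
    intro f f' g g' hf hg
    refine int_mul (cont_of hf) (cont_of hg) hW (c := fun t => C * Real.exp (2 * t)) hC ?_ ?_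
    · have := hf.i2.const_mul C
      simpa [mul_assoc] using this
    · have := hg.i2.const_mul C
      simpa [mul_assoc] using this
  -- orthonormality
  have hpO : Orth p := by
    intro i j
    have e1 := expand ψ (fun t => ((fun _ : ℝ => (1 : ℝ)) t : ℂ)) I0 (fun a => U a i)
      (fun b => U b j)
    simp only [Complex.ofReal_one, one_mul] at e1
    show ∫ t, star (∑ a, U a i * ψ a t) * ∑ b, U b j * ψ b t = _
    rw [e1, ← uorth hQ i j]
    refine Finset.sum_congr rfl fun a _ => ?_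
    rw [Finset.sum_eq_single a]
    · rw [hO a a, if_pos rfl, mul_one]
    · intro b _ hb
      rw [hO a b, if_neg (Ne.symm hb), mul_zero]
    · intro ha
      exact absurd (Finset.mem_univ a) ha
  have hnorm : ∀ n, ∫ t, ‖p n t‖ ^ 2 = 1 := by
    intro n
    have e1 := re_int (p n) (fun _ => 1)
    simp only [Complex.ofReal_one, one_mul] at e1
    rw [hpO n n, if_pos rfl] at e1
    exact (Complex.ofReal_injective (by rw [← e1, Complex.ofReal_one]))
  -- the eigenvalues
  have hlam : ∀ n, hQ.eigenvalues n = (∫ t, ‖p' n t‖ ^ 2) - ∫ t, W t * ‖p n t‖ ^ 2 := by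
    intro n
    have e1 := expand ψ' (fun t => ((fun _ : ℝ => (1 : ℝ)) t : ℂ)) I1 (fun a => U a n)
      (fun b => U b n)
    have e2 := expand ψ (fun t => (W t : ℂ)) (fun a b => IW _ _ _ _ (hF a) (hF b))
      (fun a => U a n) (fun b => U b n)
    have e3 := re_int (p' n) (fun _ => 1)
    have e4 := re_int (p n) W
    simp only [Complex.ofReal_one, one_mul] at e1 e3
    have e5 : (∑ a, ∑ b, star (U a n) * U b n * Q a b) =
        (((∫ t, ‖p' n t‖ ^ 2) - ∫ t, W t * ‖p n t‖ ^ 2 : ℝ) : ℂ) := by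
      rw [Complex.ofReal_sub, ← e3, ← e4]
      change _ = (∫ t, star (∑ a, U a n * ψ' a t) * ∑ b, U b n * ψ' b t) -
        ∫ t, (W t : ℂ) * (star (∑ a, U a n * ψ a t) * ∑ b, U b n * ψ b t)
      rw [e1, e2, ← Finset.sum_sub_distrib]
      refine Finset.sum_congr rfl fun a _ => ?_
      rw [← Finset.sum_sub_distrib]
      refine Finset.sum_congr rfl fun b _ => ?_
      rw [hform a b]
      ring
    rw [ueig hQ n, ← hU, e5, Complex.ofReal_re]
  -- the right hand side is finite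
  by_cases hfin : ∫⁻ t, ENNReal.ofReal ((max (W t - σ) 0) ^ 2) = ⊤
  · rw [hfin, ENNReal.mul_top (by
      rw [Ne, ENNReal.ofReal_eq_zero, not_le]
      norm_num)]
    exact le_top
  have hwm : Measurable fun t => (max (W t - σ) 0) ^ 2 :=
    ((hW.sub_const σ).max measurable_const).pow_const 2
  have hwi : Integrable fun t => (max (W t - σ) 0) ^ 2 := by
    refine ⟨hwm.aestronglyMeasurable, ?_⟩
    rw [hasFiniteIntegral_iff_ofReal (Eventually.of_forall fun t => sq_nonneg _)]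
    exact lt_top_iff_ne_top.2 hfin
  -- the weights
  let y : Fin m → ℝ := fun n => max (-hQ.eigenvalues n - σ) 0
  have hy0 : ∀ n, 0 ≤ y n := fun n => le_max_right _ _
  let ν : Fin m → ℝ := fun n => 3 / 2 * Real.sqrt (y n)
  have hν0 : ∀ n, 0 ≤ ν n := fun n => by positivity
  obtain ⟨hρ2, hcal⟩ := h m p p' hp hpO ν hν0
  have hpow : ∀ n, y n ^ (3 / 2 : ℝ) = ν n * (-hQ.eigenvalues n - σ) - 4 / 27 * ν n ^ 3 := by
    intro n
    have h1 : y n ^ (3 / 2 : ℝ) = y n * Real.sqrt (y n) := by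
      rw [Real.sqrt_eq_rpow]
      rcases (hy0 n).eq_or_lt with h0 | h0
      · rw [← h0, zero_mul, Real.zero_rpow (by norm_num)]
      · nth_rw 2 [← Real.rpow_one (y n)]
        rw [← Real.rpow_add h0]
        norm_num
    have h2 : ν n * (-hQ.eigenvalues n - σ) = ν n * y n := by
      by_cases hc : 0 ≤ -hQ.eigenvalues n - σ
      · have : y n = -hQ.eigenvalues n - σ := max_eq_left hc
        rw [this]
      · have : y n = 0 := max_eq_right (not_le.1 hc).le
        have h3 : ν n = 0 := by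
          show 3 / 2 * Real.sqrt (y n) = 0
          rw [this, Real.sqrt_zero, mul_zero]
        rw [h3, zero_mul, zero_mul]
    have h4 : Real.sqrt (y n) ^ 2 = y n := Real.sq_sqrt (hy0 n)
    rw [h1, h2]
    show y n * Real.sqrt (y n) = 3 / 2 * Real.sqrt (y n) * y n - 4 / 27 * (3 / 2 * Real.sqrt (y n)) ^ 3
    have h5 : (3 / 2 * Real.sqrt (y n)) ^ 3 = 27 / 8 * (Real.sqrt (y n) ^ 2 * Real.sqrt (y n)) := by
      ring
    rw [h5, h4]
    ring
  have hiW : ∀ n, Integrable fun t => W t * ‖p n t‖ ^ 2 := by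
    intro n
    have h1 := (IW _ _ _ _ (hp n) (hp n)).re
    refine h1.congr (Eventually.of_forall fun t => ?_)
    have h2 : star (p n t) * p n t = ((‖p n t‖ ^ 2 : ℝ) : ℂ) := by
      rw [Complex.star_def, Complex.conj_mul']
      push_cast
      rfl
    show RCLike.re ((W t : ℂ) * (star (p n t) * p n t)) = W t * ‖p n t‖ ^ 2
    rw [h2, ← Complex.ofReal_mul]
    exact Complex.ofReal_re _
  -- the sum
  have hsumint : ∫ t, (W t - σ) * ∑ n, ν n * ‖p n t‖ ^ 2 =
      ∑ n, ν n * ((∫ t, W t * ‖p n t‖ ^ 2) - σ) := by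
    have h1 : ∀ t, (W t - σ) * ∑ n, ν n * ‖p n t‖ ^ 2 =
        ∑ n, ν n * (W t * ‖p n t‖ ^ 2 - σ * ‖p n t‖ ^ 2) := by
      intro t
      rw [Finset.mul_sum]
      exact Finset.sum_congr rfl fun n _ => by ring
    simp_rw [h1]
    have hi : ∀ n, Integrable fun t => ν n * (W t * ‖p n t‖ ^ 2 - σ * ‖p n t‖ ^ 2) :=
      fun n => ((hiW n).sub ((hp n).i0.const_mul σ)).const_mul (ν n)
    rw [integral_finsetSum _ fun n _ => hi n]
    refine Finset.sum_congr rfl fun n _ => ?_
    rw [integral_const_mul, integral_sub (hiW n) ((hp n).i0.const_mul σ), integral_const_mul,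
      hnorm, mul_one]
  have hint : Integrable fun t => (W t - σ) * ∑ n, ν n * ‖p n t‖ ^ 2 := by
    have h1 : Integrable fun t => ∑ n, ν n * (W t * ‖p n t‖ ^ 2 - σ * ‖p n t‖ ^ 2) :=
      integrable_finsetSum _ fun n _ => ((hiW n).sub ((hp n).i0.const_mul σ)).const_mul (ν n)
    refine h1.congr (Eventually.of_forall fun t => ?_)
    show _ = (W t - σ) * ∑ n, ν n * ‖p n t‖ ^ 2
    rw [Finset.mul_sum]
    exact Finset.sum_congr rfl fun n _ => by ring
  have hpt : ∫ t, (W t - σ) * ∑ n, ν n * ‖p n t‖ ^ 2 ≤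
      3 / 16 * (∫ t, (max (W t - σ) 0) ^ 2) + 4 / 3 * ∫ t, (∑ n, ν n * ‖p n t‖ ^ 2) ^ 2 := by
    rw [← integral_const_mul, ← integral_const_mul,
      ← integral_add (hwi.const_mul _) (hρ2.const_mul _)]
    refine integral_mono hint ((hwi.const_mul _).add (hρ2.const_mul _)) fun t => ?_
    have hρ : 0 ≤ ∑ n, ν n * ‖p n t‖ ^ 2 :=
      Finset.sum_nonneg fun n _ => mul_nonneg (hν0 n) (by positivity)
    have h1 : (W t - σ) * (∑ n, ν n * ‖p n t‖ ^ 2) ≤
        max (W t - σ) 0 * ∑ n, ν n * ‖p n t‖ ^ 2 :=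
      mul_le_mul_of_nonneg_right (le_max_left _ _) hρ
    show (W t - σ) * (∑ n, ν n * ‖p n t‖ ^ 2) ≤
      3 / 16 * (max (W t - σ) 0) ^ 2 + 4 / 3 * (∑ n, ν n * ‖p n t‖ ^ 2) ^ 2
    nlinarith [sq_nonneg (3 * max (W t - σ) 0 - 8 * ∑ n, ν n * ‖p n t‖ ^ 2)]
  have hmain : ∑ n, y n ^ (3 / 2 : ℝ) ≤ 3 / 16 * ∫ t, (max (W t - σ) 0) ^ 2 := by
    have h1 : ∑ n, y n ^ (3 / 2 : ℝ) = (∫ t, (W t - σ) * ∑ n, ν n * ‖p n t‖ ^ 2) -
        (∑ n, ν n * ∫ t, ‖p' n t‖ ^ 2) - 4 / 27 * ∑ n, ν n ^ 3 := by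
      rw [hsumint, Finset.mul_sum, ← Finset.sum_sub_distrib, ← Finset.sum_sub_distrib]
      refine Finset.sum_congr rfl fun n _ => ?_
      rw [hpow, hlam]
      ring
    rw [h1]
    linarith
  calc ∑ i, ENNReal.ofReal ((max (-hQ.eigenvalues i - σ) 0) ^ (3 / 2 : ℝ))
      = ENNReal.ofReal (∑ n, y n ^ (3 / 2 : ℝ)) := by
        rw [ENNReal.ofReal_sum_of_nonneg fun n _ => Real.rpow_nonneg (hy0 n) _]
    _ ≤ ENNReal.ofReal (3 / 16 * ∫ t, (max (W t - σ) 0) ^ 2) := ENNReal.ofReal_le_ofReal hmain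
    _ = ENNReal.ofReal (3 / 16) * ∫⁻ t, ENNReal.ofReal ((max (W t - σ) 0) ^ 2) := by
        rw [ENNReal.ofReal_mul (by norm_num), ofReal_integral_eq_lintegral_ofReal hwi
          (Eventually.of_forall fun t => sq_nonneg _)]

end Pool.Agent.N537.RS.LT
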