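import Pool.Agent.N537.RS.Stm

/-!
# Project RS: the radial functions of a closed shell system in the logarithmic variable
-/

set_option autoImplicit false

open MeasureTheory Set Filter Topology
open scoped InnerProductSpace

namespace Pool.Agent.N537.RS.LO

open Pool.Agent.R117.RL

/-- the change of variables `r = exp t` -/
theorem exp_integral {F : Type} [NormedAddCommGroup F] [NormedSpace ℝ F] (g : ℝ → F) :
    ∫ r in Ioi (0 : ℝ), g r = ∫ t : ℝ, Real.exp t • g (Real.exp t) := by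
  have h := integral_image_eq_integral_abs_deriv_smul (s := univ) (f := Real.exp)
    (f' := Real.exp) MeasurableSet.univ (fun x _ => (Real.hasDerivAt_exp x).hasDerivWithinAt)
    Real.exp_injective.injOn g
  rw [image_univ, Real.range_exp, setIntegral_univ] at h
  rw [h]
  simp only [abs_of_pos (Real.exp_pos _)]

theorem exp_integrable {F : Type} [NormedAddCommGroup F] [NormedSpace ℝ F] {g : ℝ → F} :
    IntegrableOn g (Ioi (0 : ℝ)) ↔ Integrable (fun t : ℝ => Real.exp t • g (Real.exp t)) := by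
  have h := integrableOn_image_iff_integrableOn_abs_deriv_smul (s := univ) (f := Real.exp)
    (f' := Real.exp) MeasurableSet.univ (fun x _ => (Real.hasDerivAt_exp x).hasDerivWithinAt)
    Real.exp_injective.injOn g
  rw [image_univ, Real.range_exp, integrableOn_univ] at h
  rw [h]
  simp only [abs_of_pos (Real.exp_pos _)]

/-- radial integrals in the logarithmic variable -/
theorem log_integral {F : Type} [NormedAddCommGroup F] [NormedSpace ℝ F] {k : ℕ} (h : ℝ → F) :
    ∫ x : E (k + 1), h ‖x‖ =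
      sg (k + 1) • ∫ t : ℝ, Real.exp (((k : ℝ) + 1) * t) • h (Real.exp t) := by
  rw [polar, exp_integral]
  congr 2
  funext t
  rw [smul_smul, ← Real.exp_nat_mul, ← Real.exp_add]
  congr 2
  ring

theorem log_integrable {F : Type} [NormedAddCommGroup F] [NormedSpace ℝ F] {k : ℕ} {h : ℝ → F} :
    Integrable (fun x : E (k + 1) => h ‖x‖) ↔
      Integrable (fun t : ℝ => Real.exp (((k : ℝ) + 1) * t) • h (Real.exp t)) := by
  rw [polar_int, exp_integrable]
  have : (fun t : ℝ => Real.exp t • Real.exp t ^ k • h (Real.exp t)) =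
      fun t : ℝ => Real.exp (((k : ℝ) + 1) * t) • h (Real.exp t) := by
    funext t
    rw [smul_smul, ← Real.exp_nat_mul, ← Real.exp_add]
    congr 2
    ring
  rw [this]

/-- one radial function -/
theorem one (hH : S_HARDY) {k : ℕ} (hk : 5 ≤ k) {lam s : ℝ} (hs : 0 < s) (hl : 0 ≤ lam)
    (F F' : ℝ → ℂ)
    (hF : ∀ r, 0 < r → HasDerivAt F (F' r) r) (hc : ContinuousOn F' (Ioi 0))
    (h2 : Integrable (fun x : E (k + 1) => ‖F ‖x‖‖ ^ 2))
    (hd : Integrable (fun x : E (k + 1) => ‖F' ‖x‖‖ ^ 2 + lam * (‖F ‖x‖‖ ^ 2 / ‖x‖ ^ 2)))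
    (φ φ' : ℝ → ℂ)
    (hφ : ∀ t, φ t = ((√s * Real.exp (((k : ℝ) - 1) / 2 * t) : ℝ) : ℂ) * F (Real.exp t))
    (hφ' : ∀ t, φ' t = ((((k : ℝ) - 1) / 2 : ℝ) : ℂ) * φ t +
      ((√s * Real.exp (((k : ℝ) + 1) / 2 * t) : ℝ) : ℂ) * F' (Real.exp t)) :
    Fn φ φ' ∧ sg (k + 1) * ((∫ t, ‖φ' t‖ ^ 2) +
      ((((k : ℝ) - 1) / 2) ^ 2 + lam) * ∫ t, ‖φ t‖ ^ 2) ≤
      s * ∫ x : E (k + 1), (‖F' ‖x‖‖ ^ 2 + lam * (‖F ‖x‖‖ ^ 2 / ‖x‖ ^ 2)) := by
  have hk' : (5 : ℝ) ≤ k := by exact_mod_cast hk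
  set a : ℝ := ((k : ℝ) - 1) / 2 with ha
  have ha0 : 0 < a := by rw [ha]; linarith
  have hss : √s ^ 2 = s := Real.sq_sqrt hs.le
  have hsg := sg_pos (Nat.succ_pos k)
  have hFe : ∀ t, HasDerivAt (fun t => F (Real.exp t)) (Real.exp t • F' (Real.exp t)) t := by
    intro t
    exact HasDerivAt.scomp t (hF _ (Real.exp_pos t)) (Real.hasDerivAt_exp t)
  have hw : ∀ t, HasDerivAt (fun t : ℝ => √s * Real.exp (a * t)) (√s * (a * Real.exp (a * t))) t := by
    intro t
    have h1 : HasDerivAt (fun t : ℝ => Real.exp (a * t)) (Real.exp (a * t) * (a * 1)) t :=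
      ((hasDerivAt_id t).const_mul a).exp
    have h2 := h1.const_mul √s
    have e : √s * (a * Real.exp (a * t)) = √s * (Real.exp (a * t) * (a * 1)) := by ring
    rw [e]
    exact h2
  have hder : ∀ t, HasDerivAt φ (φ' t) t := by
    intro t
    have h1 := (hw t).smul (hFe t)
    have e1 : φ = (fun t : ℝ => √s * Real.exp (a * t)) • fun t => F (Real.exp t) := by
      funext t
      rw [hφ, Pi.smul_apply', Complex.real_smul]
    have e2 : φ' t = (√s * Real.exp (a * t)) • (Real.exp t • F' (Real.exp t)) +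
        (√s * (a * Real.exp (a * t))) • F (Real.exp t) := by
      rw [hφ', hφ]
      simp only [Complex.real_smul]
      have e3 : Real.exp (((k : ℝ) + 1) / 2 * t) = Real.exp (a * t) * Real.exp t := by
        rw [← Real.exp_add]
        congr 1
        rw [ha]
        ring
      rw [e3]
      push_cast
      ring
    rw [e1, e2]
    exact h1
  have hcF' : Continuous fun t => F' (Real.exp t) :=
    hc.comp_continuous Real.continuous_exp fun t => Real.exp_pos t
  have hcφ : Continuous φ := continuous_iff_continuousAt.2 fun t => (hder t).continuousAt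
  have hcφ' : Continuous φ' := by
    have : φ' = fun t => ((a : ℝ) : ℂ) * φ t +
      ((√s * Real.exp (((k : ℝ) + 1) / 2 * t) : ℝ) : ℂ) * F' (Real.exp t) := funext hφ'
    rw [this]
    refine (continuous_const.mul hcφ).add (Continuous.mul ?_ hcF')
    exact Complex.continuous_ofReal.comp
      (continuous_const.mul (Real.continuous_exp.comp (continuous_const.mul continuous_id)))
  have hn2 : ∀ t, ‖φ t‖ ^ 2 = s * (Real.exp (((k : ℝ) - 1) * t) * ‖F (Real.exp t)‖ ^ 2) := by
    intro t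
    rw [hφ, norm_mul, mul_pow, Complex.norm_real, Real.norm_eq_abs, sq_abs, mul_pow, hss,
      ← Real.exp_nat_mul]
    have : ((2 : ℕ) : ℝ) * (((k : ℝ) - 1) / 2 * t) = ((k : ℝ) - 1) * t := by push_cast; ring
    rw [this]
    ring
  have hnd : ∀ t, ‖φ' t - (a : ℂ) * φ t‖ ^ 2 =
      s * (Real.exp (((k : ℝ) + 1) * t) * ‖F' (Real.exp t)‖ ^ 2) := by
    intro t
    have e : φ' t - (a : ℂ) * φ t =
        ((√s * Real.exp (((k : ℝ) + 1) / 2 * t) : ℝ) : ℂ) * F' (Real.exp t) := by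
      rw [hφ']
      ring
    rw [e, norm_mul, mul_pow, Complex.norm_real, Real.norm_eq_abs, sq_abs, mul_pow, hss,
      ← Real.exp_nat_mul]
    have : ((2 : ℕ) : ℝ) * (((k : ℝ) + 1) / 2 * t) = ((k : ℝ) + 1) * t := by push_cast; ring
    rw [this]
    ring
  have hee : ∀ t : ℝ, Real.exp (((k : ℝ) + 1) * t) = Real.exp (2 * t) *
      Real.exp (((k : ℝ) - 1) * t) := by
    intro t
    rw [← Real.exp_add]
    congr 1
    ring
  have hi2 : Integrable (fun t => Real.exp (2 * t) * ‖φ t‖ ^ 2) := by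
    have h3 := ((log_integrable (h := fun y => ‖F y‖ ^ 2)).1 h2).const_mul s
    refine h3.congr (Eventually.of_forall fun t => ?_)
    simp only [smul_eq_mul]
    rw [hn2, hee]
    ring
  have hen : ∀ t, ‖φ' t - (a : ℂ) * φ t‖ ^ 2 + lam * ‖φ t‖ ^ 2 =
      s * (Real.exp (((k : ℝ) + 1) * t) •
        (‖F' (Real.exp t)‖ ^ 2 + lam * (‖F (Real.exp t)‖ ^ 2 / Real.exp t ^ 2))) := by
    intro t
    rw [hnd, hn2, smul_eq_mul, hee, ← Real.exp_nat_mul]
    have e : Real.exp (2 * t) = Real.exp (((2 : ℕ) : ℝ) * t) := by push_cast; rfl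
    have e0 := (Real.exp_pos (((2 : ℕ) : ℝ) * t)).ne'
    rw [e]
    field_simp
  have hiE : Integrable (fun t => ‖φ' t - (a : ℂ) * φ t‖ ^ 2 + lam * ‖φ t‖ ^ 2) := by
    have h3 := ((log_integrable
      (h := fun y => ‖F' y‖ ^ 2 + lam * (‖F y‖ ^ 2 / y ^ 2))).1 hd).const_mul s
    exact h3.congr (Eventually.of_forall fun t => (hen t).symm)
  obtain ⟨hfn, hle⟩ := hH a lam ha0 hl φ φ' hder hcφ' hi2 hiE
  refine ⟨hfn, ?_⟩
  have h3 := log_integral (k := k) (fun y => ‖F' y‖ ^ 2 + lam * (‖F y‖ ^ 2 / y ^ 2))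
  rw [h3, smul_eq_mul]
  have h4 : ∫ t, (‖φ' t - (a : ℂ) * φ t‖ ^ 2 + lam * ‖φ t‖ ^ 2) =
      s * ∫ t, Real.exp (((k : ℝ) + 1) * t) •
        (‖F' (Real.exp t)‖ ^ 2 + lam * (‖F (Real.exp t)‖ ^ 2 / Real.exp t ^ 2)) := by
    rw [← integral_const_mul]
    exact integral_congr_ae (Eventually.of_forall hen)
  rw [h4] at hle
  have h5 := mul_le_mul_of_nonneg_left hle hsg.le
  refine h5.trans (le_of_eq ?_)
  ring


/-- the gradients of a shell of any angular momentum -/
theorem grad_any {d g l : ℕ} {P : Fin g → E d → ℝ} (hS : Shell l P) {G : ℝ → ℂ} {G' : ℂ}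
    {x : E d} (hx : x ≠ 0) (hG : HasDerivAt G G' ‖x‖) :
    ∑ j, grad2 (fun y => G ‖y‖ * P j y) x =
      ‖(‖x‖ ^ l) • G' + ((l : ℝ) * ‖x‖ ^ (l - 1)) • G ‖x‖‖ ^ 2 +
        (l : ℝ) * ((l : ℝ) + d - 2) * (‖(‖x‖ ^ l) • G ‖x‖‖ ^ 2 / ‖x‖ ^ 2) := by
  rcases l with _ | m
  · have h1 : ∀ j, grad2 (fun y => G ‖y‖ * P j y) x =
        (∑ i, fderiv ℝ (P j) x (EuclideanSpace.single i 1) ^ 2) * ‖G ‖x‖‖ ^ 2 +
          P j x ^ 2 * ‖G'‖ ^ 2 := by
      intro j
      rw [grad_prod hx hG ((hS.smooth j).differentiable one_ne_zero x), hS.euler j x]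
      push_cast
      ring
    rw [Finset.sum_congr rfl fun j _ => h1 j, Finset.sum_add_distrib, ← Finset.sum_mul,
      ← Finset.sum_mul, hS.gradient x, hS.square x]
    simp
  · have h := grad_shell hS hx hG
    rw [h]
    push_cast
    simp only [Nat.add_sub_cancel]

theorem t_LOG (hH : S_HARDY) : S_LOG := by
  intro k g l N hk hg P hS u h
  have hk' : (5 : ℝ) ≤ k := by exact_mod_cast hk
  have hsg := sg_pos (Nat.succ_pos k)
  have hq : (0 : ℝ) < g := by exact_mod_cast hg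
  obtain ⟨G, hG, hform⟩ := h.form
  set lam : ℝ := (l : ℝ) * ((l : ℝ) + k - 1) with hlam
  have hl0 : (0 : ℝ) ≤ l := Nat.cast_nonneg l
  have hl : 0 ≤ lam := mul_nonneg hl0 (by linarith)
  have hGd : ∀ n r, 0 < r → HasDerivAt (G n) (deriv (G n) r) r := fun n r hr =>
    (((hG n).differentiableOn one_ne_zero).differentiableAt (Ioi_mem_nhds hr)).hasDerivAt
  have hGc : ∀ n, ContinuousOn (deriv (G n)) (Ioi 0) := fun n =>
    (hG n).continuousOn_deriv_of_isOpen isOpen_Ioi le_rfl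
  have hGc0 : ∀ n, ContinuousOn (G n) (Ioi 0) := fun n => (hG n).continuousOn
  set F : Fin N → ℝ → ℂ := fun n r => (r ^ l) • G n r with hF
  set F' : Fin N → ℝ → ℂ := fun n r =>
    (r ^ l) • deriv (G n) r + ((l : ℝ) * r ^ (l - 1)) • G n r with hF'
  have hFd : ∀ n r, 0 < r → HasDerivAt (F n) (F' n r) r := fun n r hr =>
    (hasDerivAt_pow l r).smul (hGd n r hr)
  have hFc : ∀ n, ContinuousOn (F' n) (Ioi 0) := fun n =>
    ((continuousOn_id.pow l).smul (hGc n)).add
      ((continuousOn_const.mul (continuousOn_id.pow (l - 1))).smul (hGc0 n))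
  have hsum : ∀ n x, ∑ j, ‖u n j x‖ ^ 2 = ‖F n ‖x‖‖ ^ 2 := by
    intro n x
    have h1 : ∀ j, ‖u n j x‖ ^ 2 = ‖G n ‖x‖‖ ^ 2 * P j x ^ 2 := by
      intro j
      rw [hform, norm_mul, mul_pow, Complex.norm_real, Real.norm_eq_abs, sq_abs]
    rw [Finset.sum_congr rfl fun j _ => h1 j, ← Finset.mul_sum, hS.square x, hF]
    simp only
    rw [norm_smul, mul_pow, Real.norm_eq_abs, sq_abs, ← pow_mul, mul_comm 2 l]
    ring
  have hne : ∀ᵐ x : E (k + 1), x ≠ 0 := by
    rw [ae_iff]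
    simp
  have hgrad : ∀ n, ∀ᵐ x : E (k + 1), ∑ j, grad2 (u n j) x =
      ‖F' n ‖x‖‖ ^ 2 + lam * (‖F n ‖x‖‖ ^ 2 / ‖x‖ ^ 2) := by
    intro n
    filter_upwards [hne] with x hx
    have h1 : ∀ j, u n j = fun y => G n ‖y‖ * (P j y : ℂ) := fun j => funext (hform n j)
    simp only [h1]
    rw [grad_any hS hx (hGd n ‖x‖ (norm_pos_iff.2 hx)), hlam]
    congr 2
    push_cast
    ring
  have hmeas : ∀ n j, AEStronglyMeasurable (u n j) volume := by
    intro n j
    have h1 : ContinuousOn (u n j) {0}ᶜ := by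
      have h2 : u n j = fun y => G n ‖y‖ * (P j y : ℂ) := funext (hform n j)
      rw [h2]
      apply ContinuousOn.mul
      · apply (hGc0 n).comp continuous_norm.continuousOn
        intro x hx
        exact norm_pos_iff.2 hx
      · exact (Complex.continuous_ofReal.comp (hS.smooth j).continuous).continuousOn
    have h2 := h1.aestronglyMeasurable (μ := volume) isOpen_compl_singleton.measurableSet
    rwa [restrict_compl_singleton] at h2
  have hprod : ∀ n n' j, Integrable (fun x => star (u n j x) * u n' j x) := by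
    intro n n' j
    refine Integrable.mono' ((h.square n j).add (h.square n' j)) ?_ ?_
    · exact (continuous_star.comp_aestronglyMeasurable (hmeas n j)).mul (hmeas n' j)
    · refine Eventually.of_forall fun x => ?_
      rw [norm_mul, norm_star]
      simp only [Pi.add_apply]
      nlinarith [sq_nonneg (‖u n j x‖ - ‖u n' j x‖), sq_nonneg ‖u n j x‖, sq_nonneg ‖u n' j x‖]
  have horth : ∀ n n', ∫ x : E (k + 1), star (F n ‖x‖) * F n' ‖x‖ =
      if n = n' then ((g : ℝ) : ℂ) else 0 := by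
    intro n n'
    have h1 : ∀ x : E (k + 1), star (F n ‖x‖) * F n' ‖x‖ = ∑ j, star (u n j x) * u n' j x := by
      intro x
      have h2 : ∀ j, star (u n j x) * u n' j x =
          (P j x ^ 2 : ℝ) • (star (G n ‖x‖) * G n' ‖x‖) := by
        intro j
        rw [hform, hform]
        simp only [Complex.real_smul, star_mul', Complex.star_def, Complex.conj_ofReal]
        push_cast
        ring
      rw [Finset.sum_congr rfl fun j _ => h2 j, ← Finset.sum_smul, hS.square x, hF]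
      simp only [Complex.real_smul, star_mul', Complex.star_def, Complex.conj_ofReal]
      push_cast
      ring
    simp only [h1]
    rw [integral_finsetSum _ fun j _ => hprod n n' j]
    rw [Finset.sum_congr rfl fun j _ => h.orthonormal n n' j j]
    by_cases hnn : n = n'
    · simp [hnn]
    · simp [hnn]
  have h2 : ∀ n, Integrable (fun x : E (k + 1) => ‖F n ‖x‖‖ ^ 2) := by
    intro n
    have h3 : Integrable (fun x => ∑ j, ‖u n j x‖ ^ 2) :=
      integrable_finsetSum _ fun j _ => h.square n j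
    simp only [hsum] at h3
    exact h3
  have hd : ∀ n, Integrable (fun x : E (k + 1) =>
      ‖F' n ‖x‖‖ ^ 2 + lam * (‖F n ‖x‖‖ ^ 2 / ‖x‖ ^ 2)) := by
    intro n
    have h3 : Integrable (fun x => ∑ j, grad2 (u n j) x) :=
      integrable_finsetSum _ fun j _ => h.energy n j
    exact h3.congr (hgrad n)
  set s : ℝ := sg (k + 1) / g with hs
  have hs0 : 0 < s := by positivity
  set φ : Fin N → ℝ → ℂ := fun n t =>
    ((√s * Real.exp (((k : ℝ) - 1) / 2 * t) : ℝ) : ℂ) * F n (Real.exp t) with hφ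
  set φ' : Fin N → ℝ → ℂ := fun n t => ((((k : ℝ) - 1) / 2 : ℝ) : ℂ) * φ n t +
      ((√s * Real.exp (((k : ℝ) + 1) / 2 * t) : ℝ) : ℂ) * F' n (Real.exp t) with hφ'
  have hone := fun n => one hH hk hs0 hl (F n) (F' n) (hFd n) (hFc n) (h2 n) (hd n) (φ n) (φ' n)
    (fun t => rfl) (fun t => rfl)
  refine ⟨φ, φ', fun n => (hone n).1, ?_, ?_, ?_⟩
  · intro a b
    have h3 := log_integral (k := k) (fun y => star (F a y) * F b y)
    rw [horth] at h3
    have h4 : ∀ t : ℝ, (Real.exp (2 * t) : ℂ) * (star (φ a t) * φ b t) =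
        (s : ℂ) * (Real.exp (((k : ℝ) + 1) * t) • (star (F a (Real.exp t)) * F b (Real.exp t))) := by
      intro t
      have e1 : Real.exp (((k : ℝ) + 1) * t) = Real.exp (2 * t) *
          (Real.exp (((k : ℝ) - 1) / 2 * t) * Real.exp (((k : ℝ) - 1) / 2 * t)) := by
        rw [← Real.exp_add, ← Real.exp_add]
        congr 1
        ring
      have e2 : (s : ℂ) = ((√s : ℝ) : ℂ) * ((√s : ℝ) : ℂ) := by
        rw [← Complex.ofReal_mul, Real.mul_self_sqrt hs0.le]
      have e3 : Complex.exp (2 * (t : ℂ)) = ((Real.exp (2 * t) : ℝ) : ℂ) := by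
        push_cast
        rfl
      rw [e1, e2, hφ]
      simp only [Complex.real_smul, star_mul', Complex.star_def, Complex.conj_ofReal]
      push_cast
      ring
    simp only [h4]
    rw [integral_const_mul]
    have hsgc : ((sg (k + 1) : ℝ) : ℂ) ≠ 0 := by exact_mod_cast hsg.ne'
    have hgc : ((g : ℝ) : ℂ) ≠ 0 := by exact_mod_cast hq.ne'
    rw [Complex.real_smul] at h3
    have h5 : (s : ℂ) = ((sg (k + 1) : ℝ) : ℂ) / ((g : ℝ) : ℂ) := by
      rw [hs]
      push_cast
      rfl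
    have h6 : ∫ t : ℝ, Real.exp (((k : ℝ) + 1) * t) • (star (F a (Real.exp t)) * F b (Real.exp t)) =
        (if a = b then ((g : ℝ) : ℂ) else 0) / ((sg (k + 1) : ℝ) : ℂ) := by
      rw [h3]
      field_simp
    rw [h6, h5]
    by_cases hab : a = b
    · rw [if_pos hab, if_pos hab]
      field_simp
    · rw [if_neg hab, if_neg hab]
      simp
  · intro x hx
    have hx0 : 0 < ‖x‖ := norm_pos_iff.2 hx
    have h3 : ∀ n, ‖φ n (Real.log ‖x‖)‖ ^ 2 = s * ‖x‖ ^ (k - 1) * ‖F n ‖x‖‖ ^ 2 := by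
      intro n
      have hss : √s ^ 2 = s := Real.sq_sqrt hs0.le
      have e : Real.exp (((2 : ℕ) : ℝ) * (((k : ℝ) - 1) / 2 * Real.log ‖x‖)) = ‖x‖ ^ (k - 1) := by
        have e1 : ((2 : ℕ) : ℝ) * (((k : ℝ) - 1) / 2 * Real.log ‖x‖) =
            ((k - 1 : ℕ) : ℝ) * Real.log ‖x‖ := by
          rw [Nat.cast_sub (by omega)]
          push_cast
          ring
        rw [e1, Real.exp_nat_mul, Real.exp_log hx0]
      simp only [hφ]
      rw [norm_mul, mul_pow, Complex.norm_real, Real.norm_eq_abs, sq_abs, mul_pow, hss,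
        ← Real.exp_nat_mul, e, Real.exp_log hx0]
    simp only [h3, hsum]
    rw [← Finset.mul_sum, hs]
    have := pow_pos hx0 (k - 1)
    field_simp
  · have e1 : ((l : ℝ) + (((k + 1 : ℕ) : ℝ) - 2) / 2) ^ 2 = (((k : ℝ) - 1) / 2) ^ 2 + lam := by
      rw [hlam]
      push_cast
      ring
    rw [e1, Finset.mul_sum]
    refine Finset.sum_le_sum fun n _ => ?_
    have h3 : ∑ j, ∫ x, grad2 (u n j) x =
        ∫ x : E (k + 1), (‖F' n ‖x‖‖ ^ 2 + lam * (‖F n ‖x‖‖ ^ 2 / ‖x‖ ^ 2)) := by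
      rw [← integral_finsetSum _ fun j _ => h.energy n j]
      exact integral_congr_ae (hgrad n)
    rw [h3]
    have h4 := (hone n).2
    have h5 : 0 < (g : ℝ) / sg (k + 1) := by positivity
    have h6 := mul_le_mul_of_nonneg_left h4 h5.le
    rw [← mul_assoc, ← mul_assoc] at h6
    have e2 : (g : ℝ) / sg (k + 1) * sg (k + 1) = g := by field_simp
    have e3 : (g : ℝ) / sg (k + 1) * s = 1 := by rw [hs]; field_simp
    rw [e2, e3, one_mul] at h6
    exact h6

end Pool.Agent.N537.RS.LO
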