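import Pool.Agent.N537.RS.Inert

/-!
# RS/MEAS: measurability of the eigenvalue count
-/

set_option autoImplicit false

open Matrix Filter Topology
open scoped ComplexOrder

namespace Pool.Agent.N537.RS.ME

theorem sq_sum {m : ℕ} (v : Fin m → ℂ) : (star v ⬝ᵥ v).re = ∑ i, ‖v i‖ ^ 2 := by
  rw [dotProduct, Complex.re_sum]
  refine Finset.sum_congr rfl fun i _ => ?_
  rw [Pi.star_apply, Complex.star_def, Complex.conj_mul', ← Complex.ofReal_pow, Complex.ofReal_re]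

theorem sq_pos {m : ℕ} (v : Fin m → ℂ) (hv : v ≠ 0) : 0 < (star v ⬝ᵥ v).re := by
  rw [sq_sum]
  obtain ⟨i, hi⟩ := Function.ne_iff.1 hv
  refine Finset.sum_pos' (fun _ _ => by positivity) ⟨i, Finset.mem_univ _, ?_⟩
  have : 0 < ‖v i‖ := norm_pos_iff.2 hi
  positivity

theorem bnd {m : ℕ} (M : Matrix (Fin m) (Fin m) ℂ) : ∃ C : ℝ, 0 ≤ C ∧ ∀ v : Fin m → ℂ,
    |(star v ⬝ᵥ (M *ᵥ v)).re| ≤ C * (star v ⬝ᵥ v).re := by
  refine ⟨∑ i, ∑ j, ‖M i j‖, by positivity, fun v => ?_⟩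
  rw [sq_sum]
  set N := ∑ i, ‖v i‖ ^ 2 with hN
  have hle : ∀ i, ‖v i‖ ^ 2 ≤ N := fun i =>
    Finset.single_le_sum (f := fun i => ‖v i‖ ^ 2) (fun _ _ => by positivity) (Finset.mem_univ i)
  calc |(star v ⬝ᵥ (M *ᵥ v)).re| ≤ ‖star v ⬝ᵥ (M *ᵥ v)‖ := Complex.abs_re_le_norm _
    _ ≤ ∑ i, ‖v i‖ * ∑ j, ‖M i j‖ * ‖v j‖ := by
      rw [dotProduct]
      refine (norm_sum_le _ _).trans (Finset.sum_le_sum fun i _ => ?_)
      rw [norm_mul, Pi.star_apply, norm_star, mulVec, dotProduct]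
      refine mul_le_mul_of_nonneg_left ?_ (norm_nonneg _)
      refine (norm_sum_le _ _).trans (Finset.sum_le_sum fun j _ => ?_)
      rw [norm_mul]
    _ ≤ ∑ i, ∑ j, ‖M i j‖ * N := by
      refine Finset.sum_le_sum fun i _ => ?_
      rw [Finset.mul_sum]
      refine Finset.sum_le_sum fun j _ => ?_
      have h1 := hle i
      have h2 := hle j
      have h3 : ‖v i‖ * ‖v j‖ ≤ N := by nlinarith [sq_nonneg (‖v i‖ - ‖v j‖)]
      calc ‖v i‖ * (‖M i j‖ * ‖v j‖) = ‖M i j‖ * (‖v i‖ * ‖v j‖) := by ring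
        _ ≤ ‖M i j‖ * N := mul_le_mul_of_nonneg_left h3 (norm_nonneg _)
    _ = (∑ i, ∑ j, ‖M i j‖) * N := by
      rw [Finset.sum_mul]
      exact Finset.sum_congr rfl fun i _ => (Finset.sum_mul _ _ _).symm

theorem gap {m : ℕ} (e : Fin m → ℝ) (x : ℝ) : ∃ δ > 0, ∀ i, e i < x → e i ≤ x - δ := by
  have h : ∀ᶠ δ in 𝓝[>] (0 : ℝ), ∀ i, e i < x → e i ≤ x - δ := by
    rw [eventually_all]
    intro i
    by_cases hi : e i < x
    · have h1 : ∀ᶠ δ in 𝓝[>] (0 : ℝ), δ < x - e i :=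
        mem_nhdsWithin_of_mem_nhds (Iio_mem_nhds (sub_pos.2 hi))
      filter_upwards [h1] with δ h2 _
      linarith
    · exact Eventually.of_forall fun δ h2 => absurd h2 hi
  obtain ⟨δ, h1, h2⟩ := (h.and self_mem_nhdsWithin).exists
  exact ⟨δ, h2, h1⟩

/-- extension by zero -/
noncomputable def ext {k : ℕ} (p : Fin k → Prop) [DecidablePred p] :
    ({n // p n} → ℂ) →ₗ[ℂ] (Fin k → ℂ) where
  toFun c n := if h : p n then c ⟨n, h⟩ else 0
  map_add' x y := by
    funext n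
    by_cases h : p n
    · simp [h]
    · simp [h]
  map_smul' r x := by
    funext n
    by_cases h : p n
    · simp [h]
    · simp [h]

theorem ext_out {k : ℕ} (p : Fin k → Prop) [DecidablePred p] (c : {n // p n} → ℂ) (n : Fin k)
    (h : ¬ p n) : ext p c n = 0 := by
  simp [ext, h]

theorem ext_in {k : ℕ} (p : Fin k → Prop) [DecidablePred p] (c : {n // p n} → ℂ) (n : {n // p n}) :
    ext p c n = c n := by
  have := n.2
  simp [ext, this]

theorem space {m : ℕ} {H : Matrix (Fin m) (Fin m) ℂ} (h : H.IsHermitian) (lam : ℝ) :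
    ∃ (W : Submodule ℂ (Fin m → ℂ)) (δ : ℝ), 0 < δ ∧
      (Finset.univ.filter fun i => h.eigenvalues i < -lam).card ≤ Module.finrank ℂ W ∧
      ∀ v ∈ W, (star v ⬝ᵥ (H *ᵥ v)).re ≤ (-lam - δ) * (star v ⬝ᵥ v).re := by
  classical
  obtain ⟨δ, hδ, hgap⟩ := gap h.eigenvalues (-lam)
  set U : Matrix (Fin m) (Fin m) ℂ := (h.eigenvectorUnitary : Matrix (Fin m) (Fin m) ℂ) with hU
  have hs : star U * U = 1 := by rw [hU]; exact Unitary.coe_star_mul_self _
  set L : ({n // h.eigenvalues n < -lam} → ℂ) →ₗ[ℂ] (Fin m → ℂ) :=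
    U.mulVecLin ∘ₗ ext (fun n => h.eigenvalues n < -lam) with hL
  have hLa : ∀ c, star U *ᵥ L c = ext (fun n => h.eigenvalues n < -lam) c := fun c => by
    rw [hL, LinearMap.comp_apply, Matrix.mulVecLin_apply, mulVec_mulVec, hs, one_mulVec]
  have hinj : Function.Injective L := by
    rw [← LinearMap.ker_eq_bot, LinearMap.ker_eq_bot']
    intro c hc
    have h1 := hLa c
    rw [hc, Matrix.mulVec_zero] at h1
    funext n
    have h2 := congrFun h1 n.1
    rw [ext_in] at h2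
    exact h2.symm
  refine ⟨LinearMap.range L, δ, hδ, ?_, ?_⟩
  · rw [LinearMap.finrank_range_of_inj hinj, Module.finrank_fintype_fun_eq_card,
      Fintype.card_subtype]
  · rintro v ⟨c, rfl⟩
    rw [IN.quad h, IN.nrm h, Complex.re_sum, Complex.re_sum, Finset.mul_sum]
    refine Finset.sum_le_sum fun i _ => ?_
    rw [← hU, hLa]
    set z := ext (fun n => h.eigenvalues n < -lam) c with hz
    have h2 : star (z i) * z i = ((Complex.normSq (z i) : ℝ) : ℂ) := by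
      rw [Complex.normSq_eq_conj_mul_self]
      rfl
    rw [h2, ← Complex.ofReal_mul, Complex.ofReal_re, Complex.ofReal_re]
    by_cases hi : h.eigenvalues i < -lam
    · exact mul_le_mul_of_nonneg_right (hgap i hi) (Complex.normSq_nonneg _)
    · rw [hz, ext_out _ _ _ hi]
      simp

theorem split {m : ℕ} (A M : Matrix (Fin m) (Fin m) ℂ) (τ : ℝ) (v : Fin m → ℂ) :
    (star v ⬝ᵥ ((A + (τ : ℂ) • M) *ᵥ v)).re =
      (star v ⬝ᵥ (A *ᵥ v)).re + τ * (star v ⬝ᵥ (M *ᵥ v)).re := by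
  rw [Matrix.add_mulVec, dotProduct_add, Complex.add_re, Matrix.smul_mulVec, dotProduct_smul,
    smul_eq_mul, Complex.re_ofReal_mul]

theorem t_MEAS (h : S_INERT) : S_MEAS := by
  intro m A M hA hM
  refine measurable_of_Ici fun k => ?_
  apply IsOpen.measurableSet
  rw [Metric.isOpen_iff]
  rintro ⟨lam0, τ0⟩ hk
  have hk' : k ≤ cnt A M lam0 τ0 := hk
  have hH : (A + (τ0 : ℂ) • M).IsHermitian := by
    refine hA.add ?_
    unfold Matrix.IsHermitian
    rw [conjTranspose_smul, hM.eq, Complex.star_def, Complex.conj_ofReal]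
  have hcnt : cnt A M lam0 τ0 = (Finset.univ.filter fun i => hH.eigenvalues i < -lam0).card := by
    unfold cnt
    rw [dif_pos hH]
  obtain ⟨W, δ, hδ, hcard, hW⟩ := space hH lam0
  obtain ⟨C, hC0, hC⟩ := bnd M
  have hC2 : 0 < C + 2 := by linarith
  refine ⟨δ / (C + 2), div_pos hδ hC2, ?_⟩
  rintro ⟨lam, τ⟩ hp
  rw [Metric.mem_ball, Prod.dist_eq, max_lt_iff, Real.dist_eq, Real.dist_eq] at hp
  obtain ⟨h1, h2⟩ := hp
  have h3 : ∀ v ∈ W, v ≠ 0 →
      (star v ⬝ᵥ ((A + (τ : ℂ) • M) *ᵥ v)).re < -lam * (star v ⬝ᵥ v).re := by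
    intro v hv hv0
    have h4 := hW v hv
    rw [split] at h4
    rw [split]
    have h5 := hC v
    have h6 := sq_pos v hv0
    set a := (star v ⬝ᵥ (A *ᵥ v)).re
    set b := (star v ⬝ᵥ (M *ᵥ v)).re
    set n := (star v ⬝ᵥ v).re
    set ε := δ / (C + 2) with hε
    have hεδ : ε * (C + 2) = δ := by rw [hε]; field_simp
    have hε0 : 0 < ε := div_pos hδ hC2
    have h7 : (τ - τ0) * b ≤ ε * (C * n) := by
      calc (τ - τ0) * b ≤ |(τ - τ0) * b| := le_abs_self _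
        _ = |τ - τ0| * |b| := abs_mul _ _
        _ ≤ ε * (C * n) := mul_le_mul h2.le h5 (abs_nonneg _) hε0.le
    have h8 : (lam - lam0) * n ≤ ε * n := by
      refine mul_le_mul_of_nonneg_right ?_ h6.le
      exact (le_abs_self _).trans h1.le
    have h9 : 0 < ε * n := mul_pos hε0 h6
    have h10 : δ * n = ε * (C * n) + ε * n + ε * n := by
      rw [← hεδ]
      ring
    nlinarith
  have h4 := h m A M hA hM lam τ W h3
  show k ≤ cnt A M lam τ
  rw [hcnt] at hk'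
  exact hk'.trans (hcard.trans h4)

end Pool.Agent.N537.RS.ME
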