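import Pool.Agent.R117.RL.Cst
import Pool.Agent.R117.RL.ShellFull

/-!
# Project RS (helper537): the Lieb-Thirring inequality for closed shells in dimension `d ≥ 6`

Statements of the parts. The functions are written in the logarithmic radial variable `t = log |x|`.
-/

set_option autoImplicit false

open MeasureTheory Set Filter Topology Matrix
open scoped ComplexOrder

namespace Pool.Agent.N537.RS

noncomputable section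

/-- admissible functions on the line -/
structure Fn (f f' : ℝ → ℂ) : Prop where
  deriv : ∀ t, HasDerivAt f (f' t) t
  cont : Continuous f'
  i0 : Integrable (fun t => ‖f t‖ ^ 2)
  i1 : Integrable (fun t => ‖f' t‖ ^ 2)
  i2 : Integrable (fun t => Real.exp (2 * t) * ‖f t‖ ^ 2)

/-- orthonormal in `L²(ℝ)` -/
def Orth {m : ℕ} (ψ : Fin m → ℝ → ℂ) : Prop :=
  ∀ i j, ∫ t, star (ψ i t) * ψ j t = if i = j then (1 : ℂ) else 0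

/-- RS/GS: Gram-Schmidt orthogonalisation -/
def S_GS : Prop := ∀ (ι : Type) [Fintype ι] (φ φ' : ι → ℝ → ℂ), (∀ i, Fn (φ i) (φ' i)) →
  ∃ (m : ℕ) (ψ ψ' : Fin m → ℝ → ℂ) (c : ι → Fin m → ℂ), (∀ j, Fn (ψ j) (ψ' j)) ∧ Orth ψ ∧
    ∀ i t, φ i t = ∑ j, c i j * ψ j t ∧ φ' i t = ∑ j, c i j * ψ' j t

/-- RS/CAL: the sharp inequality on the line for orthonormal systems with weights -/
def S_CAL : Prop := ∀ (m : ℕ) (ψ ψ' : Fin m → ℝ → ℂ), (∀ j, Fn (ψ j) (ψ' j)) → Orth ψ →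
  ∀ ν : Fin m → ℝ, (∀ j, 0 ≤ ν j) →
    Integrable (fun t => (∑ j, ν j * ‖ψ j t‖ ^ 2) ^ 2) ∧
    4 / 3 * ∫ t, (∑ j, ν j * ‖ψ j t‖ ^ 2) ^ 2 ≤
      (∑ j, ν j * ∫ t, ‖ψ' j t‖ ^ 2) + 4 / 27 * ∑ j, ν j ^ 3

/-- `Q` is the matrix of the form `∫ (|ψ'|² - W |ψ|²)` -/
def IsForm {m : ℕ} (ψ ψ' : Fin m → ℝ → ℂ) (W : ℝ → ℝ) (Q : Matrix (Fin m) (Fin m) ℂ) : Prop :=
  ∀ i j, Q i j = (∫ t, star (ψ' i t) * ψ' j t) - ∫ t, (W t : ℂ) * (star (ψ i t) * ψ j t)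

/-- RS/LT32: the sharp Lieb-Thirring inequality for the exponent 3/2 in dimension one, for the
compression to a finite dimensional space -/
def S_LT32 : Prop := ∀ (m : ℕ) (ψ ψ' : Fin m → ℝ → ℂ), (∀ j, Fn (ψ j) (ψ' j)) → Orth ψ →
  ∀ W : ℝ → ℝ, Measurable W → (∃ C : ℝ, ∀ t, |W t| ≤ C * Real.exp (2 * t)) →
  ∀ (Q : Matrix (Fin m) (Fin m) ℂ) (hQ : Q.IsHermitian), IsForm ψ ψ' W Q →
  ∀ σ : ℝ, 0 ≤ σ → ∑ i, ENNReal.ofReal ((max (-hQ.eigenvalues i - σ) 0) ^ (3 / 2 : ℝ)) ≤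
    ENNReal.ofReal (3 / 16) * ∫⁻ t, ENNReal.ofReal ((max (W t - σ) 0) ^ 2)

/-- the semiclassical constant for the exponent `(d - 1) / 2` in dimension one -/
def LL (d : ℕ) : ℝ := (d.factorial : ℝ) / (2 ^ (d + 1) * Pool.Agent.R117.RL.Ga d ^ 2)

/-- RS/AL: the lifting argument of Aizenman and Lieb, from the exponent `3/2` to `(d - 1) / 2` -/
def S_AL : Prop := ∀ d : ℕ, 6 ≤ d → ∀ (m : ℕ) (y : Fin m → ℝ) (W : ℝ → ℝ), Measurable W →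
  (∀ σ : ℝ, 0 ≤ σ → ∑ i, ENNReal.ofReal ((max (y i - σ) 0) ^ (3 / 2 : ℝ)) ≤
    ENNReal.ofReal (3 / 16) * ∫⁻ t, ENNReal.ofReal ((max (W t - σ) 0) ^ 2)) →
  ∑ i, ENNReal.ofReal ((max (y i) 0) ^ (((d : ℝ) - 1) / 2)) ≤
    ENNReal.ofReal (LL d) * ∫⁻ t, ENNReal.ofReal ((max (W t) 0) ^ ((d : ℝ) / 2))

open Classical in
/-- the number of the eigenvalues of `A + τ M` which are less than `-lam` -/
def cnt {m : ℕ} (A M : Matrix (Fin m) (Fin m) ℂ) (lam τ : ℝ) : ℕ :=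
  if h : (A + (τ : ℂ) • M).IsHermitian then
    (Finset.univ.filter fun i => h.eigenvalues i < -lam).card
  else 0

/-- RS/INERT: a subspace on which the form is less than `-lam` has dimension at most `cnt` -/
def S_INERT : Prop := ∀ (m : ℕ) (A M : Matrix (Fin m) (Fin m) ℂ), A.IsHermitian → M.IsHermitian →
  ∀ (lam τ : ℝ) (W : Submodule ℂ (Fin m → ℂ)),
    (∀ v ∈ W, v ≠ 0 → (star v ⬝ᵥ ((A + (τ : ℂ) • M) *ᵥ v)).re < -lam * (star v ⬝ᵥ v).re) →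
    Module.finrank ℂ W ≤ cnt A M lam τ

/-- RS/MEAS: measurability of `cnt` -/
def S_MEAS : Prop := ∀ (m : ℕ) (A M : Matrix (Fin m) (Fin m) ℂ), A.IsHermitian → M.IsHermitian →
  Measurable fun p : ℝ × ℝ => cnt A M p.1 p.2

/-- RS/INT: the sum of the negative eigenvalues with respect to `M`, as an integral of `cnt` -/
def S_INT : Prop := ∀ (m : ℕ) (A M : Matrix (Fin m) (Fin m) ℂ), A.IsHermitian → M.PosDef →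
  ∀ (N : ℕ) (v : Fin N → Fin m → ℂ),
    (∀ a b, star (v a) ⬝ᵥ (M *ᵥ v b) = if a = b then (1 : ℂ) else 0) → ∀ lam : ℝ,
    ENNReal.ofReal (-(∑ a, (star (v a) ⬝ᵥ (A *ᵥ v a)).re) -
      lam * ∑ a, (star (v a) ⬝ᵥ v a).re) ≤ ∫⁻ τ in Ioi (0 : ℝ), (cnt A M lam τ : ENNReal)

/-- the dimension of the space of the spherical harmonics of degree `l` in dimension `d` -/
def hdim (d l : ℕ) : ℕ := (l + d - 1).choose (d - 1) - (l + d - 3).choose (d - 1)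

/-- the end points of the cells -/
def PP (d l : ℕ) : ℝ := ((l : ℝ) + ((d : ℝ) - 3) / 2) * ∏ j ∈ Finset.range (d - 2), ((l : ℝ) + j)

/-- RS/CELL: the cells -/
def S_CELL : Prop := ∀ d : ℕ, 6 ≤ d → PP d 0 = 0 ∧ ∀ l : ℕ,
  2 * (PP d (l + 1) - PP d l) = ((d - 1).factorial : ℝ) * hdim d l ∧
  PP d l ≤ PP d (l + 1) ∧
  ∫ x in (PP d l)..(PP d (l + 1)), x ^ (2 / ((d : ℝ) - 1)) ≤
    (PP d (l + 1) - PP d l) * ((l : ℝ) + ((d : ℝ) - 2) / 2) ^ 2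

/-- RS/LA: the inequality for matrices -/
def S_LA : Prop := ∀ d : ℕ, 6 ≤ d → ∀ (m : ℕ) (A M : Matrix (Fin m) (Fin m) ℂ),
  A.IsHermitian → M.PosDef → ∀ (Λ : Finset ℕ) (g N : ℕ → ℕ), (∀ l ∈ Λ, g l ≤ hdim d l) →
  ∀ v : ∀ l, Fin (N l) → Fin m → ℂ,
  (∀ l ∈ Λ, ∀ a b, star (v l a) ⬝ᵥ (M *ᵥ v l b) = if a = b then (1 : ℂ) else 0) →
  ∀ hH : ∀ τ : ℝ, (A + (τ : ℂ) • M).IsHermitian,
  ENNReal.ofReal (∑ l ∈ Λ, (g l : ℝ) * (-(∑ a, (star (v l a) ⬝ᵥ (A *ᵥ v l a)).re) -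
      ((l : ℝ) + ((d : ℝ) - 2) / 2) ^ 2 * ∑ a, (star (v l a) ⬝ᵥ v l a).re)) ≤
    ENNReal.ofReal (2 / ((d - 1).factorial : ℝ)) * ∫⁻ τ in Ioi (0 : ℝ),
      ∑ i, ENNReal.ofReal ((max (-(hH τ).eigenvalues i) 0) ^ (((d : ℝ) - 1) / 2))

/-- RS/TAU: an integral -/
def S_TAU : Prop := ∀ d : ℕ, 6 ≤ d → ∀ V : ℝ → ℝ, Measurable V → (∀ t, 0 ≤ V t) →
  ∫⁻ τ in Ioi (0 : ℝ), ∫⁻ t, ENNReal.ofReal
      ((max (Real.exp (2 * t) * (V t - τ)) 0) ^ ((d : ℝ) / 2)) =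
    ENNReal.ofReal (2 / ((d : ℝ) + 2)) *
      ∫⁻ t, ENNReal.ofReal (Real.exp (d * t) * V t ^ (1 + (d : ℝ) / 2))

/-- the radial functions of closed shells, in the logarithmic variable -/
structure Sys (Λ : Finset ℕ) (N : ℕ → ℕ) (φ φ' : ∀ l, Fin (N l) → ℝ → ℂ) : Prop where
  fn : ∀ l ∈ Λ, ∀ n, Fn (φ l n) (φ' l n)
  orth : ∀ l ∈ Λ, ∀ a b, ∫ t, (Real.exp (2 * t) : ℂ) * (star (φ l a t) * φ l b t) =
    if a = b then (1 : ℂ) else 0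

/-- RS/DUAL: the dual inequality -/
def S_DUAL : Prop := ∀ d : ℕ, 6 ≤ d → ∀ (Λ : Finset ℕ) (g N : ℕ → ℕ), (∀ l ∈ Λ, g l ≤ hdim d l) →
  ∀ φ φ' : ∀ l, Fin (N l) → ℝ → ℂ, Sys Λ N φ φ' → ∀ V : ℝ → ℝ, Measurable V → (∀ t, 0 ≤ V t) →
  (∃ C : ℝ, ∀ t, V t ≤ C) →
  ENNReal.ofReal (∑ l ∈ Λ, (g l : ℝ) * ∑ n,
    ((∫ t, Real.exp (2 * t) * V t * ‖φ l n t‖ ^ 2) - (∫ t, ‖φ' l n t‖ ^ 2) -
      ((l : ℝ) + ((d : ℝ) - 2) / 2) ^ 2 * ∫ t, ‖φ l n t‖ ^ 2)) ≤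
    ENNReal.ofReal (2 / ((d - 1).factorial : ℝ) * LL d * (2 / ((d : ℝ) + 2))) *
      ∫⁻ t, ENNReal.ofReal (Real.exp (d * t) * V t ^ (1 + (d : ℝ) / 2))

/-- RS/KIN: the kinetic inequality in the logarithmic variable -/
def S_KIN : Prop := ∀ d : ℕ, 6 ≤ d → ∀ (Λ : Finset ℕ) (g N : ℕ → ℕ), (∀ l ∈ Λ, g l ≤ hdim d l) →
  ∀ φ φ' : ∀ l, Fin (N l) → ℝ → ℂ, Sys Λ N φ φ' →
  Integrable (fun t => Real.exp (4 * t / d) *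
    (∑ l ∈ Λ, (g l : ℝ) * ∑ n, ‖φ l n t‖ ^ 2) ^ (1 + 2 / (d : ℝ))) ∧
  (d : ℝ) / (d + 2) * (2 / ((d - 1).factorial : ℝ) * LL d) ^ (-(2 / (d : ℝ))) *
    ∫ t, Real.exp (4 * t / d) *
      (∑ l ∈ Λ, (g l : ℝ) * ∑ n, ‖φ l n t‖ ^ 2) ^ (1 + 2 / (d : ℝ)) ≤
    ∑ l ∈ Λ, (g l : ℝ) * ∑ n,
      ((∫ t, ‖φ' l n t‖ ^ 2) + ((l : ℝ) + ((d : ℝ) - 2) / 2) ^ 2 * ∫ t, ‖φ l n t‖ ^ 2)

open Pool.Agent.R117.RL in
/-- RS/CST: the constant -/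
def S_CST : Prop := ∀ d : ℕ, 6 ≤ d → 0 < LL d ∧
  Kcl d = sg d ^ (2 / (d : ℝ)) *
    ((d : ℝ) / (d + 2) * (2 / ((d - 1).factorial : ℝ) * LL d) ^ (-(2 / (d : ℝ))))

/-- RS/HARDY: from the energy in the logarithmic variable to admissible functions -/
def S_HARDY : Prop := ∀ (a μ : ℝ), 0 < a → 0 ≤ μ → ∀ f f' : ℝ → ℂ,
  (∀ t, HasDerivAt f (f' t) t) → Continuous f' →
  Integrable (fun t => Real.exp (2 * t) * ‖f t‖ ^ 2) →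
  Integrable (fun t => ‖f' t - (a : ℂ) * f t‖ ^ 2 + μ * ‖f t‖ ^ 2) →
  Fn f f' ∧ (∫ t, ‖f' t‖ ^ 2) + (a ^ 2 + μ) * (∫ t, ‖f t‖ ^ 2) ≤
    ∫ t, (‖f' t - (a : ℂ) * f t‖ ^ 2 + μ * ‖f t‖ ^ 2)

open Pool.Agent.R117.RL in
/-- RS/LOG: the radial functions of a closed shell system -/
def S_LOG : Prop := ∀ k g l N : ℕ, 5 ≤ k → 0 < g → ∀ P : Fin g → E (k + 1) → ℝ, Shell l P →
  ∀ u : Fin N → Fin g → E (k + 1) → ℂ, ShellSystem P u →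
  ∃ φ φ' : Fin N → ℝ → ℂ, (∀ n, Fn (φ n) (φ' n)) ∧
    (∀ a b, ∫ t, (Real.exp (2 * t) : ℂ) * (star (φ a t) * φ b t) =
      if a = b then (1 : ℂ) else 0) ∧
    (∀ x : E (k + 1), x ≠ 0 → ∑ n, ∑ j, ‖u n j x‖ ^ 2 =
      (g : ℝ) / sg (k + 1) / ‖x‖ ^ (k - 1) * ∑ n, ‖φ n (Real.log ‖x‖)‖ ^ 2) ∧
    (g : ℝ) * ∑ n, ((∫ t, ‖φ' n t‖ ^ 2) +
      ((l : ℝ) + (((k + 1 : ℕ) : ℝ) - 2) / 2) ^ 2 * ∫ t, ‖φ n t‖ ^ 2) ≤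
      ∑ n, ∑ j, ∫ x, grad2 (u n j) x

end

end Pool.Agent.N537.RS
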