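import Pool.Agent.N537.RS.Stm

/-!
RS/TAU: an integral.
-/

set_option autoImplicit false

open MeasureTheory Set Filter Topology Matrix

namespace Pool.Agent.N537.RS.TA

open Pool.Agent.N537.RS

theorem aux (v s : ℝ) (hv : 0 ≤ v) (hs : 0 < s) :
    ∫⁻ τ in Ioi (0 : ℝ), ENNReal.ofReal ((max (v - τ) 0) ^ s) =
      ENNReal.ofReal (v ^ (s + 1) / (s + 1)) := by
  have hc : Continuous (fun τ : ℝ => (max (v - τ) 0) ^ s) := by
    apply Continuous.rpow_const (by fun_prop)
    intro x
    right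
    exact hs.le
  have h1 : ∫⁻ τ in Ioi (0 : ℝ), ENNReal.ofReal ((max (v - τ) 0) ^ s) =
      ∫⁻ τ in Ioc (0 : ℝ) v, ENNReal.ofReal ((max (v - τ) 0) ^ s) := by
    rw [← Ioc_union_Ioi_eq_Ioi hv, lintegral_union measurableSet_Ioi (Ioc_disjoint_Ioi le_rfl)]
    have h0 : ∫⁻ τ in Ioi v, ENNReal.ofReal ((max (v - τ) 0) ^ s) = 0 := by
      rw [setLIntegral_congr_fun (g := fun _ => 0) measurableSet_Ioi]
      · simp
      · intro τ hτ
        have hτ' : v < τ := hτ
        beta_reduce
        rw [max_eq_right (by linarith), Real.zero_rpow hs.ne', ENNReal.ofReal_zero]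
    rw [h0, add_zero]
  rw [h1, ← ofReal_integral_eq_lintegral_ofReal hc.integrableOn_Ioc
    (ae_of_all _ (fun τ => Real.rpow_nonneg (le_max_right _ _) _))]
  congr 1
  rw [← intervalIntegral.integral_of_le hv]
  have h2 : ∫ τ in (0 : ℝ)..v, (max (v - τ) 0) ^ s = ∫ τ in (0 : ℝ)..v, (v - τ) ^ s := by
    apply intervalIntegral.integral_congr
    intro τ hτ
    rw [uIcc_of_le hv] at hτ
    beta_reduce
    rw [max_eq_left (sub_nonneg.mpr hτ.2)]
  rw [h2, intervalIntegral.integral_comp_sub_left (fun x => x ^ s) v, sub_self, sub_zero,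
    integral_rpow (Or.inl (by linarith)), Real.zero_rpow (by linarith), sub_zero]

theorem split (d : ℕ) (v t τ : ℝ) :
    (max (Real.exp (2 * t) * (v - τ)) 0) ^ ((d : ℝ) / 2) =
      Real.exp (d * t) * (max (v - τ) 0) ^ ((d : ℝ) / 2) := by
  have h1 : max (Real.exp (2 * t) * (v - τ)) 0 = Real.exp (2 * t) * max (v - τ) 0 := by
    rw [mul_max_of_nonneg _ _ (Real.exp_pos _).le, mul_zero]
  rw [h1, Real.mul_rpow (Real.exp_pos _).le (le_max_right _ _), ← Real.exp_mul]
  congr 2
  ring

theorem t_TAU : S_TAU := by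
  intro d hd V hV hV0
  have hd' : (6 : ℝ) ≤ d := by exact_mod_cast hd
  have hm : Measurable (Function.uncurry (fun τ t : ℝ => ENNReal.ofReal
      ((max (Real.exp (2 * t) * (V t - τ)) 0) ^ ((d : ℝ) / 2)))) := by
    apply ENNReal.measurable_ofReal.comp
    apply Measurable.pow_const
    apply Measurable.max _ measurable_const
    apply Measurable.mul
    · exact Real.measurable_exp.comp (measurable_snd.const_mul 2)
    · exact (hV.comp measurable_snd).sub measurable_fst
  rw [lintegral_lintegral_swap hm.aemeasurable, ← lintegral_const_mul']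
  · apply lintegral_congr
    intro t
    have h1 : ∀ τ : ℝ, ENNReal.ofReal ((max (Real.exp (2 * t) * (V t - τ)) 0) ^ ((d : ℝ) / 2)) =
        ENNReal.ofReal (Real.exp (d * t)) * ENNReal.ofReal ((max (V t - τ) 0) ^ ((d : ℝ) / 2)) := by
      intro τ
      rw [split, ENNReal.ofReal_mul (Real.exp_pos _).le]
    simp_rw [h1]
    rw [lintegral_const_mul' _ _ ENNReal.ofReal_ne_top, aux _ _ (hV0 t) (by linarith),
      ← ENNReal.ofReal_mul (Real.exp_pos _).le, ← ENNReal.ofReal_mul (by positivity)]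
    congr 1
    rw [show (1 : ℝ) + (d : ℝ) / 2 = (d : ℝ) / 2 + 1 by ring]
    field_simp
  · exact ENNReal.ofReal_ne_top

end Pool.Agent.N537.RS.TA
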